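import Mathlib

/-!
# Kummer extensions of `κ(T)`
-/

set_option autoImplicit false
set_option linter.unusedSectionVars false

open Polynomial

namespace Pool.Agent.Helper14C

section kummer

variable {F Ω : Type*} [Field F] [Field Ω] [Algebra F Ω]

lemma prod_form (θ : Ω) (s : Multiset Ω)
    (h : ∀ ρ ∈ s, ∃ u : F, u ≠ 0 ∧ ρ = algebraMap F Ω u * θ) :
    ∃ u : F, u ≠ 0 ∧ s.prod = algebraMap F Ω u * θ ^ (Multiset.card s) := by
  induction s using Multiset.induction with
  | empty => exact ⟨1, one_ne_zero, by simp⟩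
  | cons a s ih =>
    obtain ⟨u, hu, h1⟩ := ih fun ρ hρ => h ρ (Multiset.mem_cons_of_mem hρ)
    obtain ⟨v, hv, h2⟩ := h a (Multiset.mem_cons_self _ _)
    refine ⟨v * u, mul_ne_zero hv hu, ?_⟩
    rw [Multiset.prod_cons, Multiset.card_cons, h1, h2, map_mul, pow_succ]
    ring

/-- Kummer theory for one root. -/
theorem kum1 {θ : Ω} (hθ : θ ≠ 0) {n : ℕ} (hn : 0 < n) {ζ : F} (hζ : IsPrimitiveRoot ζ n)
    {b : F} (hb : θ ^ n = algebraMap F Ω b) :
    (∃ c : F, θ ^ (Module.finrank F (IntermediateField.adjoin F {θ})) = algebraMap F Ω c) ∧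
    ∀ k : ℕ, (∃ c : F, θ ^ k = algebraMap F Ω c) →
      Module.finrank F (IntermediateField.adjoin F {θ}) ∣ k := by
  classical
  have hint : IsIntegral F θ := by
    refine IsIntegral.of_pow hn ?_
    rw [hb]
    exact isIntegral_algebraMap
  set d := Module.finrank F (IntermediateField.adjoin F {θ}) with hd
  have hdm : d = (minpoly F θ).natDegree := IntermediateField.adjoin.finrank hint
  have hd0 : 0 < d := by rw [hdm]; exact minpoly.natDegree_pos hint
  have hζ' : IsPrimitiveRoot (algebraMap F Ω ζ) n := hζ.map_of_injective (algebraMap F Ω).injective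
  have hP : (X ^ n - C (algebraMap F Ω b) : Polynomial Ω).Splits :=
    X_pow_sub_C_splits_of_isPrimitiveRoot hζ' hb
  have hP0 : (X ^ n - C (algebraMap F Ω b) : Polynomial Ω) ≠ 0 := X_pow_sub_C_ne_zero hn _
  have hdvd : (minpoly F θ).map (algebraMap F Ω) ∣ X ^ n - C (algebraMap F Ω b) := by
    have h1 : minpoly F θ ∣ X ^ n - C b := by
      apply minpoly.dvd
      simp [hb]
    have h2 := Polynomial.map_dvd (algebraMap F Ω) h1
    simpa using h2
  have hsp : ((minpoly F θ).map (algebraMap F Ω)).Splits := hP.of_dvd hP0 hdvd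
  have hmon : ((minpoly F θ).map (algebraMap F Ω)).Monic := (minpoly.monic hint).map _
  have hroots : ∀ ρ ∈ ((minpoly F θ).map (algebraMap F Ω)).roots,
      ∃ u : F, u ≠ 0 ∧ ρ = algebraMap F Ω u * θ := by
    intro ρ hρ
    have h1 : ρ ∈ (X ^ n - C (algebraMap F Ω b) : Polynomial Ω).roots :=
      Multiset.mem_of_le (roots.le_of_dvd hP0 hdvd) hρ
    have h2 : ρ ^ n = algebraMap F Ω b := by
      have h3 := (mem_roots hP0).mp h1
      simp only [IsRoot.def, eval_sub, eval_pow, eval_X, eval_C] at h3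
      exact sub_eq_zero.mp h3
    have h4 : (ρ / θ) ^ n = 1 := by
      rw [div_pow, h2, ← hb, div_self (pow_ne_zero _ hθ)]
    have : NeZero n := ⟨hn.ne'⟩
    obtain ⟨l, -, hl⟩ := hζ'.eq_pow_of_pow_eq_one h4
    refine ⟨ζ ^ l, pow_ne_zero _ (hζ.ne_zero hn.ne'), ?_⟩
    rw [map_pow, hl, div_mul_cancel₀ _ hθ]
  have hfirst : ∃ c : F, θ ^ d = algebraMap F Ω c := by
    obtain ⟨u, hu, h1⟩ := prod_form θ _ hroots
    have hcard : Multiset.card ((minpoly F θ).map (algebraMap F Ω)).roots = d := by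
      rw [← hsp.natDegree_eq_card_roots, natDegree_map, hdm]
    rw [hcard] at h1
    have h2 := hsp.coeff_zero_eq_prod_roots_of_monic hmon
    rw [h1, coeff_map] at h2
    have hu' : algebraMap F Ω u ≠ 0 := by rwa [Ne, map_eq_zero]
    refine ⟨u⁻¹ * ((-1) ^ ((minpoly F θ).map (algebraMap F Ω)).natDegree * (minpoly F θ).coeff 0), ?_⟩
    rw [map_mul, map_mul, h2, map_inv₀, map_pow, map_neg, map_one]
    rw [← mul_assoc ((-1) ^ _) ((-1) ^ _), ← mul_pow]
    field_simp
    simp
  refine ⟨hfirst, ?_⟩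
  rintro k ⟨c, hc⟩
  obtain ⟨c', hc'⟩ := hfirst
  by_contra hnd
  have hr : 0 < k % d := Nat.pos_of_ne_zero fun h => hnd (Nat.dvd_of_mod_eq_zero h)
  have hlt : k % d < d := Nat.mod_lt _ hd0
  have hθr : θ ^ (k % d) = algebraMap F Ω (c / c' ^ (k / d)) := by
    have h1 : θ ^ k = θ ^ (k % d) * (θ ^ d) ^ (k / d) := by
      rw [← pow_mul, ← pow_add, Nat.mod_add_div]
    rw [hc, hc'] at h1
    have h2 : algebraMap F Ω c' ≠ 0 := by rw [← hc']; exact pow_ne_zero _ hθ
    rw [map_div₀, map_pow, h1]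
    field_simp
  have h3 : minpoly F θ ∣ X ^ (k % d) - C (c / c' ^ (k / d)) := by
    apply minpoly.dvd
    rw [map_sub, map_pow, aeval_X, aeval_C, hθr, sub_self]
  have h4 := natDegree_le_of_dvd h3 (X_pow_sub_C_ne_zero hr _)
  rw [natDegree_X_pow_sub_C, ← hdm] at h4
  omega

variable {ι : Type*} [DecidableEq ι]

/-- degrees of Kummer extensions divide the product of the degrees of the factors -/
theorem kumD (θ : ι → Ω) (hθ : ∀ i, θ i ≠ 0) (q : ι → ℕ) (hq : ∀ i, 0 < q i)
    (hζ : ∀ i, ∃ ζ : F, IsPrimitiveRoot ζ (q i))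
    (hb : ∀ i, ∃ b : F, θ i ^ q i = algebraMap F Ω b) (s : Finset ι) :
    Module.finrank F (IntermediateField.adjoin F (θ '' (s : Set ι)))
      ∣ ∏ i ∈ s, Module.finrank F (IntermediateField.adjoin F {θ i}) := by
  classical
  induction s using Finset.induction_on with
  | empty => simp
  | insert i s hi ih =>
    rw [Finset.prod_insert hi]
    set E := IntermediateField.adjoin F (θ '' (s : Set ι)) with hE
    have h1 : (IntermediateField.adjoin E {θ i}).restrictScalars F
        = IntermediateField.adjoin F (θ '' ((insert i s : Finset ι) : Set ι)) := by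
      rw [hE, IntermediateField.adjoin_adjoin_left, Finset.coe_insert, Set.image_insert_eq,
        Set.union_comm]
      rfl
    have h2 : Module.finrank F (IntermediateField.adjoin F (θ '' ((insert i s : Finset ι) : Set ι)))
        = Module.finrank F E * Module.finrank E (IntermediateField.adjoin E {θ i}) := by
      rw [Module.finrank_mul_finrank F E (IntermediateField.adjoin E {θ i}), ← h1]
      rfl
    rw [h2, mul_comm]
    refine mul_dvd_mul ?_ ih
    obtain ⟨ζ, hζi⟩ := hζ i
    obtain ⟨b, hbi⟩ := hb i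
    obtain ⟨⟨c, hc⟩, -⟩ := kum1 (hθ i) (hq i) hζi hbi
    have hζE : IsPrimitiveRoot (algebraMap F E ζ) (q i) :=
      hζi.map_of_injective (algebraMap F E).injective
    exact (kum1 (F := E) (hθ i) (hq i) hζE (b := algebraMap F E b) hbi).2 _
      ⟨algebraMap F E c, hc⟩

end kummer

section rational

variable {κ : Type} [Field κ] [CharZero κ] {Ω : Type} [Field Ω] [Algebra (FractionRing κ[X]) Ω]
  [IsAlgClosure (FractionRing κ[X]) Ω] {r : ℕ}

lemma rm_prod {ι : Type*} (a : κ) (s : Finset ι) (p : ι → κ[X]) (hp : ∀ i ∈ s, p i ≠ 0) :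
    rootMultiplicity a (∏ i ∈ s, p i) = ∑ i ∈ s, rootMultiplicity a (p i) := by
  classical
  induction s using Finset.induction_on with
  | empty =>
    rw [Finset.prod_empty, Finset.sum_empty]
    exact rootMultiplicity_C 1 a
  | insert i s hi ih =>
    rw [Finset.prod_insert hi, Finset.sum_insert hi, rootMultiplicity_mul, ih]
    · intro j hj; exact hp j (Finset.mem_insert_of_mem hj)
    · refine mul_ne_zero (hp i (Finset.mem_insert_self _ _)) ?_
      exact Finset.prod_ne_zero_iff.mpr fun j hj => hp j (Finset.mem_insert_of_mem hj)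

lemma rm_pow (a : κ) (p : κ[X]) (hp : p ≠ 0) (n : ℕ) :
    rootMultiplicity a (p ^ n) = n * rootMultiplicity a p := by
  have h := rm_prod a (Finset.range n) (fun _ => p) (fun _ _ => hp)
  simpa using h

/-- monomials in the roots are pairwise non proportional -/
lemma nonprop (θ : Fin r → Ω) (q : Fin r → ℕ) (hq : ∀ i, 0 < q i) (a : Fin r → κ)
    (ha : Function.Injective a)
    (hθ : ∀ i, θ i ^ q i = algebraMap (FractionRing κ[X]) Ω (algebraMap κ[X] _ (X - C (a i))))
    (k k' : ∀ i, Fin (q i)) (g : FractionRing κ[X])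
    (hg : ∏ i, θ i ^ (k i : ℕ) = algebraMap (FractionRing κ[X]) Ω g * ∏ i, θ i ^ (k' i : ℕ)) :
    k = k' := by
  classical
  obtain ⟨u, v, hv, huv⟩ := IsFractionRing.div_surjective (A := κ[X]) g
  have hv0 : v ≠ 0 := nonZeroDivisors.ne_zero hv
  set n := ∏ i, q i with hn
  have hn0 : 0 < n := Finset.prod_pos fun i _ => hq i
  have hnq : ∀ i, q i * (∏ j ∈ Finset.univ.erase i, q j) = n := fun i =>
    Finset.mul_prod_erase _ _ (Finset.mem_univ i)
  set m : Fin r → ℕ := fun i => ∏ j ∈ Finset.univ.erase i, q j with hm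
  let A := algebraMap κ[X] (FractionRing κ[X])
  let Bm := algebraMap (FractionRing κ[X]) Ω
  have hA : Function.Injective A := IsFractionRing.injective _ _
  have hB : Function.Injective Bm := Bm.injective
  have hθn : ∀ (i : Fin r) (l : ℕ), (θ i ^ l) ^ n = Bm (A ((X - C (a i)) ^ (l * m i))) := by
    intro i l
    rw [← hnq i, ← pow_mul, show l * (q i * m i) = q i * (l * m i) by ring, pow_mul, hθ,
      map_pow, map_pow]
  have hprod : ∀ l : ∀ i, Fin (q i), (∏ i, θ i ^ (l i : ℕ)) ^ n
      = Bm (A (∏ i, (X - C (a i)) ^ ((l i : ℕ) * m i))) := by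
    intro l
    rw [← Finset.prod_pow, map_prod, map_prod]
    exact Finset.prod_congr rfl fun i _ => hθn i _
  have hne : ∀ i, (X - C (a i) : κ[X]) ≠ 0 := fun i => X_sub_C_ne_zero _
  have h1 : v ^ n * ∏ i, (X - C (a i)) ^ ((k i : ℕ) * m i)
      = u ^ n * ∏ i, (X - C (a i)) ^ ((k' i : ℕ) * m i) := by
    apply hA
    apply hB
    rw [map_mul, map_mul, map_mul, map_mul, ← hprod, ← hprod, hg, mul_pow, ← huv, map_pow, map_pow,
      map_pow, map_pow, ← mul_assoc]
    congr 1
    have : Bm (A v) ≠ 0 := by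
      rw [Ne, map_eq_zero, map_eq_zero_iff _ hA]; exact hv0
    rw [map_div₀]
    change Bm (A v) ^ n * (Bm (A u) / Bm (A v)) ^ n = _
    rw [← mul_pow, mul_div_cancel₀ _ this]
  have hu0 : u ≠ 0 := by
    rintro rfl
    rw [zero_pow hn0.ne', zero_mul, mul_eq_zero] at h1
    rcases h1 with h1 | h1
    · exact pow_ne_zero _ hv0 h1
    · exact Finset.prod_ne_zero_iff.mpr (fun i _ => pow_ne_zero _ (hne i)) h1
  have hmult : ∀ (w : κ[X]) (_ : w ≠ 0) (l : ∀ i, Fin (q i)) (j : Fin r),
      rootMultiplicity (a j) (w ^ n * ∏ i, (X - C (a i)) ^ ((l i : ℕ) * m i))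
        = n * rootMultiplicity (a j) w + (l j : ℕ) * m j := by
    intro w hw l j
    have hp : ∏ i, (X - C (a i)) ^ ((l i : ℕ) * m i) ≠ 0 :=
      Finset.prod_ne_zero_iff.mpr (fun i _ => pow_ne_zero _ (hne i))
    rw [rootMultiplicity_mul (mul_ne_zero (pow_ne_zero _ hw) hp), rm_pow _ _ hw,
      rm_prod _ _ _ (fun i _ => pow_ne_zero _ (hne i)), Finset.sum_eq_single j]
    · rw [rm_pow _ _ (hne j), rootMultiplicity_X_sub_C_self, mul_one]
    · intro i _ hij
      rw [rm_pow _ _ (hne i), rootMultiplicity_X_sub_C, if_neg, mul_zero]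
      intro h
      exact hij (ha h).symm
    · intro h; exact absurd (Finset.mem_univ j) h
  funext j
  have h2 := congrArg (rootMultiplicity (a j)) h1
  rw [hmult v hv0, hmult u hu0] at h2
  have hmj : 0 < m j := Finset.prod_pos fun i _ => hq i
  have h3 : q j * rootMultiplicity (a j) v + (k j : ℕ)
      = q j * rootMultiplicity (a j) u + (k' j : ℕ) := by
    apply Nat.eq_of_mul_eq_mul_right hmj
    have e : n = q j * m j := (hnq j).symm
    rw [e] at h2
    linarith
  have h4 := congrArg (· % q j) h3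
  simp only [Nat.mul_add_mod] at h4
  rw [Nat.mod_eq_of_lt (k j).2, Nat.mod_eq_of_lt (k' j).2] at h4
  exact Fin.ext h4

/-- **The monomials in the roots are linearly independent over `κ(T)`.** -/
theorem mono_indep (hroots : ∀ n : ℕ, n ≠ 0 → ∃ ζ : κ, IsPrimitiveRoot ζ n)
    (θ : Fin r → Ω) (q : Fin r → ℕ) (hq : ∀ i, 0 < q i) (a : Fin r → κ)
    (ha : Function.Injective a)
    (hθ : ∀ i, θ i ^ q i = algebraMap (FractionRing κ[X]) Ω (algebraMap κ[X] _ (X - C (a i)))) :
    LinearIndependent (FractionRing κ[X]) (fun k : (∀ i, Fin (q i)) => ∏ i, θ i ^ (k i : ℕ)) := by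
  classical
  set K := FractionRing κ[X] with hK
  have hcK : CharZero K := charZero_of_injective_algebraMap (IsFractionRing.injective κ[X] K)
  have : IsAlgClosed Ω := IsAlgClosure.isAlgClosed K
  have : Algebra.IsAlgebraic K Ω := IsAlgClosure.isAlgebraic
  have hgal : IsGalois K Ω := { to_isSeparable := inferInstance, to_normal := inferInstance }
  have hθ0 : ∀ i, θ i ≠ 0 := by
    intro i h
    have h1 := hθ i
    rw [h, zero_pow (hq i).ne'] at h1
    have h2 := ((map_eq_zero _).mp h1.symm)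
    rw [map_eq_zero_iff _ (IsFractionRing.injective κ[X] K)] at h2
    exact X_sub_C_ne_zero _ h2
  let mm : (∀ i, Fin (q i)) → Ω := fun k => ∏ i, θ i ^ (k i : ℕ)
  have hmm0 : ∀ k, mm k ≠ 0 := fun k => Finset.prod_ne_zero_iff.mpr fun i _ => pow_ne_zero _ (hθ0 i)
  set n := ∏ i, q i with hn
  have hn0 : 0 < n := Finset.prod_pos fun i _ => hq i
  obtain ⟨ζ, hζ⟩ := hroots n hn0.ne'
  let ζK : K := algebraMap κ K ζ
  have hζK : IsPrimitiveRoot ζK n := hζ.map_of_injective (algebraMap κ K).injective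
  have hζΩ : IsPrimitiveRoot (algebraMap K Ω ζK) n := hζK.map_of_injective (algebraMap K Ω).injective
  have hact : ∀ (k : ∀ i, Fin (q i)) (σ : Ω ≃ₐ[K] Ω), ∃ u : K, σ (mm k) = algebraMap K Ω u * mm k := by
    intro k σ
    have h1 : ∃ b : K, mm k ^ n = algebraMap K Ω b := by
      refine ⟨∏ i, (algebraMap κ[X] K (X - C (a i))) ^ ((k i : ℕ) * ∏ j ∈ Finset.univ.erase i, q j), ?_⟩
      simp only [mm]
      rw [← Finset.prod_pow, map_prod]
      refine Finset.prod_congr rfl fun i _ => ?_
      rw [map_pow, ← hθ, hn, ← Finset.mul_prod_erase _ _ (Finset.mem_univ i), ← pow_mul, ← pow_mul]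
      congr 1
      ring
    obtain ⟨b, hb⟩ := h1
    have h2 : (σ (mm k) / mm k) ^ n = 1 := by
      rw [div_pow, ← map_pow, hb, AlgEquiv.commutes, ← hb, div_self (pow_ne_zero _ (hmm0 k))]
    have : NeZero n := ⟨hn0.ne'⟩
    obtain ⟨l, -, hl⟩ := hζΩ.eq_pow_of_pow_eq_one h2
    refine ⟨ζK ^ l, ?_⟩
    rw [map_pow, hl, div_mul_cancel₀ _ (hmm0 k)]
  let χ : (∀ i, Fin (q i)) → ((Ω ≃ₐ[K] Ω) →* Ω) := fun k =>
    { toFun := fun σ => σ (mm k) / mm k
      map_one' := by
        rw [AlgEquiv.one_apply, div_self (hmm0 k)]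
      map_mul' := by
        intro σ τ
        obtain ⟨u, hu⟩ := hact k τ
        rw [AlgEquiv.mul_apply, hu, map_mul, AlgEquiv.commutes, mul_div_cancel_right₀ _ (hmm0 k)]
        ring }
  have hχ : ∀ k σ, σ (mm k) = χ k σ * mm k := by
    intro k σ
    change σ (mm k) = σ (mm k) / mm k * mm k
    rw [div_mul_cancel₀ _ (hmm0 k)]
  have hχinj : Function.Injective χ := by
    intro k k' h
    have h1 : ∀ σ : Ω ≃ₐ[K] Ω, σ (mm k / mm k') = mm k / mm k' := by
      intro σ
      rw [map_div₀, hχ, hχ, h]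
      have h2 : χ k' σ ≠ 0 := by
        intro h0
        have := hχ k' σ
        rw [h0, zero_mul] at this
        exact hmm0 k' ((map_eq_zero_iff _ σ.injective).mp this)
      rw [mul_div_mul_left _ _ h2]
    obtain ⟨g, hg⟩ := (InfiniteGalois.mem_range_algebraMap_iff_fixed (k := K) (mm k / mm k')).mpr h1
    apply nonprop θ q hq a ha hθ k k' g
    change mm k = _ * mm k'
    rw [hg, div_mul_cancel₀ _ (hmm0 k')]
  have hli := (linearIndependent_monoidHom (Ω ≃ₐ[K] Ω) Ω).comp χ hχinj
  rw [Fintype.linearIndependent_iff] at hli ⊢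
  intro f hf k
  have h1 := hli (fun k => algebraMap K Ω (f k) * mm k) (by
    funext σ
    rw [Finset.sum_apply, Pi.zero_apply]
    have h2 := congrArg σ hf
    rw [map_sum, map_zero] at h2
    rw [← h2]
    refine Finset.sum_congr rfl fun k _ => ?_
    rw [Pi.smul_apply, smul_eq_mul, Algebra.smul_def, map_mul, AlgEquiv.commutes]
    change _ = _ * σ (mm k)
    rw [hχ]
    simp only [Function.comp_apply]
    ring) k
  rcases mul_eq_zero.mp h1 with h2 | h2
  · exact (map_eq_zero _).mp h2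
  · exact absurd h2 (hmm0 k)

end rational

/-- **Kummer divisibility.** -/
theorem kummer {κ : Type} [Field κ] [CharZero κ]
    (hroots : ∀ n : ℕ, n ≠ 0 → ∃ ζ : κ, IsPrimitiveRoot ζ n) {L : Type} [Field L]
    [Algebra (FractionRing κ[X]) L] [FiniteDimensional (FractionRing κ[X]) L]
    {Ω : Type} [Field Ω] [Algebra L Ω] [Algebra (FractionRing κ[X]) Ω]
    [IsScalarTower (FractionRing κ[X]) L Ω] [IsAlgClosed Ω] [Algebra.IsAlgebraic L Ω] {r : ℕ}
    (θ : Fin r → Ω) (q : Fin r → ℕ) (hq : ∀ i, 0 < q i) (a : Fin r → κ)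
    (ha : Function.Injective a)
    (hθ : ∀ i, θ i ^ q i = algebraMap (FractionRing κ[X]) Ω (algebraMap κ[X] _ (X - C (a i)))) :
    ∏ i, q i ∣ (∏ i, Module.finrank L (IntermediateField.adjoin L {θ i})) *
      Module.finrank (FractionRing κ[X]) L := by
  classical
  set K := FractionRing κ[X] with hK
  have : Algebra.IsAlgebraic K L := inferInstance
  have halg : Algebra.IsAlgebraic K Ω := Algebra.IsAlgebraic.trans K L Ω
  have hac : IsAlgClosure K Ω := ⟨inferInstance, halg⟩
  have hθ0 : ∀ i, θ i ≠ 0 := by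
    intro i h
    have h1 := hθ i
    rw [h, zero_pow (hq i).ne'] at h1
    have h2 := ((map_eq_zero _).mp h1.symm)
    rw [map_eq_zero_iff _ (IsFractionRing.injective κ[X] K)] at h2
    exact X_sub_C_ne_zero _ h2
  have hζK : ∀ i, ∃ ζ : K, IsPrimitiveRoot ζ (q i) := by
    intro i
    obtain ⟨ζ, hζ⟩ := hroots (q i) (hq i).ne'
    exact ⟨algebraMap κ K ζ, hζ.map_of_injective (algebraMap κ K).injective⟩
  have hζL : ∀ i, ∃ ζ : L, IsPrimitiveRoot ζ (q i) := by
    intro i
    obtain ⟨ζ, hζ⟩ := hζK i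
    exact ⟨algebraMap K L ζ, hζ.map_of_injective (algebraMap K L).injective⟩
  have hbK : ∀ i, ∃ b : K, θ i ^ q i = algebraMap K Ω b := fun i => ⟨_, hθ i⟩
  have hbL : ∀ i, ∃ b : L, θ i ^ q i = algebraMap L Ω b := fun i =>
    ⟨algebraMap K L (algebraMap κ[X] K (X - C (a i))), by
      rw [hθ]; exact IsScalarTower.algebraMap_apply K L Ω _⟩
  have hint : ∀ i, IsIntegral K (θ i) := fun i => halg.isIntegral.isIntegral _
  have hintL : ∀ i, IsIntegral L (θ i) := fun i => (hint i).tower_top
  have hfdK : FiniteDimensional K (IntermediateField.adjoin K (θ '' (Finset.univ : Finset (Fin r)))) := by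
    apply IntermediateField.finiteDimensional_adjoin
    rintro _ ⟨i, -, rfl⟩
    exact hint i
  have hfdL : FiniteDimensional L (IntermediateField.adjoin L (θ '' (Finset.univ : Finset (Fin r)))) := by
    apply IntermediateField.finiteDimensional_adjoin
    rintro _ ⟨i, -, rfl⟩
    exact hintL i
  have hK1 : Module.finrank K (IntermediateField.adjoin K (θ '' (Finset.univ : Finset (Fin r))))
      = ∏ i, q i := by
    have hpos : 0 < ∏ i, q i := Finset.prod_pos fun i _ => hq i
    refine le_antisymm (Nat.le_of_dvd hpos ?_) ?_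
    · refine (kumD θ hθ0 q hq hζK hbK Finset.univ).trans (Finset.prod_dvd_prod_of_dvd _ _ fun i _ => ?_)
      obtain ⟨ζ, hζ⟩ := hζK i
      exact (kum1 (hθ0 i) (hq i) hζ (hθ i)).2 _ ⟨_, hθ i⟩
    · have hli := mono_indep (Ω := Ω) hroots θ q hq a ha hθ
      have hmem : ∀ k : (∀ i, Fin (q i)), ∏ i, θ i ^ (k i : ℕ) ∈
          IntermediateField.adjoin K (θ '' (Finset.univ : Finset (Fin r))) := by
        intro k
        refine prod_mem fun i _ => pow_mem ?_ _
        exact IntermediateField.subset_adjoin K _ ⟨i, by simp, rfl⟩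
      have h1 : LinearIndependent K (fun k : (∀ i, Fin (q i)) =>
          (⟨_, hmem k⟩ : IntermediateField.adjoin K (θ '' (Finset.univ : Finset (Fin r))))) := by
        apply LinearIndependent.of_comp
          (IntermediateField.adjoin K (θ '' (Finset.univ : Finset (Fin r)))).val.toLinearMap
        exact hli
      have h2 := h1.fintype_card_le_finrank
      rwa [Fintype.card_pi, Finset.prod_congr rfl (fun i _ => Fintype.card_fin (q i))] at h2
  have hL1 := kumD θ hθ0 q hq hζL hbL Finset.univ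
  rw [← hK1]
  have h1 : IntermediateField.adjoin K (θ '' (Finset.univ : Finset (Fin r)))
      ≤ (IntermediateField.adjoin L (θ '' (Finset.univ : Finset (Fin r)))).restrictScalars K := by
    rw [IntermediateField.adjoin_le_iff]
    exact IntermediateField.subset_adjoin L _
  have h2 := IntermediateField.finrank_dvd_of_le_right h1
  have h3 : Module.finrank K ((IntermediateField.adjoin L (θ '' (Finset.univ : Finset (Fin r)))).restrictScalars K)
      = Module.finrank K L * Module.finrank L (IntermediateField.adjoin L (θ '' (Finset.univ : Finset (Fin r)))) := by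
    rw [Module.finrank_mul_finrank K L]
    rfl
  rw [h3] at h2
  refine h2.trans ?_
  rw [mul_comm]
  exact mul_dvd_mul_right hL1 _

end Pool.Agent.Helper14C
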