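import Mathlib
import Pool.Agent.TH922.KC.Trans
import Pool.Agent.Helper14C.Kum

/-!
# Transcendence count over `κ(T)`
-/

set_option autoImplicit false
set_option linter.unusedSectionVars false

open Polynomial

namespace Pool.Agent.Helper14C

open Pool.Agent.TH922.KC

lemma sum_split {A : Type*} [AddCommMonoid A] (f : ℕ → A) (m d : ℕ) :
    ∑ k ∈ Finset.range (m * d), f k = ∑ s : Fin d, ∑ t ∈ Finset.range m, f (s + d * t) := by
  rw [Finset.sum_range, ← Equiv.sum_comp finProdFinEquiv, Fintype.sum_prod_type, Finset.sum_comm]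
  refine Finset.sum_congr rfl fun s _ => ?_
  rw [Finset.sum_range]
  rfl

/-- splitting an equation along the powers of `θ` -/
lemma kill {L Ω : Type*} [Field L] [Field Ω] [Algebra L Ω] {θ : Ω} (hint : IsIntegral L θ)
    {d m : ℕ} (hd : d = Module.finrank L (IntermediateField.adjoin L {θ})) {η : L}
    (hη : θ ^ d = algebraMap L Ω η) (ℓ : ℕ → L)
    (h : ∑ k ∈ Finset.range (m * d), θ ^ k * algebraMap L Ω (ℓ k) = 0) (s : ℕ) (hs : s < d) :
    ∑ t ∈ Finset.range m, η ^ t * ℓ (s + d * t) = 0 := by
  have hdm : d = (minpoly L θ).natDegree := by rw [hd]; exact IntermediateField.adjoin.finrank hint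
  have hli := linearIndependent_pow (K := L) θ
  rw [← hdm, Fintype.linearIndependent_iff] at hli
  refine hli (fun s => ∑ t ∈ Finset.range m, η ^ t * ℓ (s + d * t)) ?_ ⟨s, hs⟩
  rw [← h, sum_split]
  refine Finset.sum_congr rfl fun s _ => ?_
  rw [Finset.sum_smul]
  refine Finset.sum_congr rfl fun t _ => ?_
  rw [Algebra.smul_def, map_mul, map_pow, ← hη]
  ring

/-- the multilinear forms in the variables `x_l`, `l ≠ j` -/
def lin {R : Type*} [CommRing R] {N : ℕ} (j : Fin N) (b : (Fin N → Fin 2) → R)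
    (x : Fin N → Fin 2 → R) : R :=
  ∑ g, b g * ∏ l ∈ Finset.univ.erase j, x l (g l)

lemma map_lin {R S : Type*} [CommRing R] [CommRing S] (φ : R →+* S) {N : ℕ} (j : Fin N)
    (b : (Fin N → Fin 2) → R) (x : Fin N → Fin 2 → R) :
    φ (lin j b x) = lin j (fun g => φ (b g)) (fun l c => φ (x l c)) := by
  simp only [lin, map_sum, map_mul, map_prod]

lemma lin_scale {R : Type*} [CommRing R] {N : ℕ} (j : Fin N) (b : (Fin N → Fin 2) → R)
    (x : Fin N → Fin 2 → R) (c : Fin N → R) :
    lin j b (fun l a => c l * x l a) = (∏ l ∈ Finset.univ.erase j, c l) * lin j b x := by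
  simp only [lin, Finset.mul_sum, Finset.prod_mul_distrib]
  refine Finset.sum_congr rfl fun g _ => ?_
  ring

/-- **The count.** -/
theorem count {κ : Type} [Field κ] [CharZero κ] {L : Type} [Field L]
    [Algebra (FractionRing κ[X]) L] [FiniteDimensional (FractionRing κ[X]) L]
    {Ω : Type} [Field Ω] [Algebra L Ω] [Algebra (FractionRing κ[X]) Ω]
    [IsScalarTower (FractionRing κ[X]) L Ω] {r N Qm : ℕ}
    (b : Fin r → ℕ → (Fin N → Fin 2) → κ)
    (hb : AlgebraicIndependent ℚ (fun z : Fin r × Fin Qm × (Fin N → Fin 2) => b z.1 z.2.1 z.2.2))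
    (θ : Fin r → Ω) (q : Fin r → ℕ) (hq : ∀ i, 0 < q i) (hqm : ∀ i, q i ≤ Qm) (a : Fin r → ℚ)
    (hθ : ∀ i, θ i ^ q i = algebraMap (FractionRing κ[X]) Ω
      (algebraMap κ[X] _ (X - C (algebraMap ℚ κ (a i)))))
    (d : Fin r → ℕ) (hd : ∀ i, d i = Module.finrank L (IntermediateField.adjoin L {θ i}))
    (hdq : ∀ i, d i ∣ q i) (hη : ∀ i, ∃ η : L, θ i ^ d i = algebraMap L Ω η)
    (j : Fin N) (x : Fin N → Fin 2 → L) (ε : Fin N → Fin 2) (hx : ∀ l, x l (ε l) = 1)
    (heq : ∀ i, ∑ k ∈ Finset.range (q i), θ i ^ k * algebraMap L Ω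
      (lin j (fun g => algebraMap (FractionRing κ[X]) L (algebraMap κ _ (b i k g))) x) = 0) :
    ∑ i, d i + 1 ≤ N := by
  classical
  set K := FractionRing κ[X] with hK
  let ι : κ →+* Ω := (algebraMap K Ω).comp (algebraMap κ K)
  let T : Ω := algebraMap K Ω (algebraMap κ[X] K X)
  have hcK : CharZero K := charZero_of_injective_algebraMap (IsFractionRing.injective κ[X] K)
  have hcΩ : CharZero Ω := charZero_of_injective_algebraMap (algebraMap K Ω).injective
  have hd0 : ∀ i, 0 < d i := fun i => Nat.pos_of_ne_zero fun h => by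
    have h1 := hdq i
    rw [h, zero_dvd_iff] at h1
    exact (hq i).ne' h1
  have hdQ : ∀ i, d i ≤ Qm := fun i => (Nat.le_of_dvd (hq i) (hdq i)).trans (hqm i)
  let β := Fin r × Fin Qm × (Fin N → Fin 2)
  let sel : (Σ i : Fin r, Fin (d i)) → β := fun z => (z.1, ⟨z.2, z.2.2.trans_le (hdQ z.1)⟩, ε)
  have hsel : Function.Injective sel := by
    rintro ⟨i, s⟩ ⟨i', s'⟩ h
    have h1 : i = i' := congrArg Prod.fst h
    subst h1
    have h2 : (s : ℕ) = s' := congrArg (fun z : β => (z.2.1 : ℕ)) h
    have : s = s' := Fin.ext h2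
    rw [this]
  let xo : Fin N → Fin 2 → Ω := fun l c => algebraMap L Ω (x l c)
  let Y := {l : Fin N // l ≠ j} ⊕ (Unit ⊕ {z : β // z ∉ Set.range sel})
  let y : Y → Ω := Sum.elim (fun l => xo l (1 - ε l)) (Sum.elim (fun _ => T)
    (fun z => ι (b z.1.1 z.1.2.1 z.1.2.2)))
  set F := Lf (Set.range y) with hF
  have hTF : T ∈ F := Lf_of_mem ⟨Sum.inr (Sum.inl ()), rfl⟩
  have hxF : ∀ l, l ≠ j → ∀ c, xo l c ∈ F := by
    intro l hl c
    by_cases hc : c = ε l
    · have : xo l c = 1 := by
        simp only [xo]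
        rw [hc, hx, map_one]
      rw [this]
      exact F.one_mem
    · have hc' : c = 1 - ε l := by
        generalize ε l = e at hc ⊢
        fin_cases c <;> fin_cases e <;> simp_all
      rw [hc']
      exact Lf_of_mem ⟨Sum.inl ⟨l, hl⟩, rfl⟩
  have hbF : ∀ z : β, z ∉ Set.range sel → ι (b z.1 z.2.1 z.2.2) ∈ F := fun z hz =>
    Lf_of_mem ⟨Sum.inr (Sum.inr ⟨z, hz⟩), rfl⟩
  have hθF : ∀ i, θ i ∈ F := by
    intro i
    have h1 : θ i ^ q i ∈ F := by
      rw [hθ, map_sub, map_sub]
      refine F.sub_mem hTF ?_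
      have h2 : algebraMap K Ω (algebraMap κ[X] K (C (algebraMap ℚ κ (a i)))) = (a i : Ω) := by
        have h3 : algebraMap K Ω (algebraMap κ[X] K (C (algebraMap ℚ κ (a i))))
          = ((algebraMap K Ω).comp ((algebraMap κ[X] K).comp
              ((C : κ →+* κ[X]).comp (algebraMap ℚ κ)))) (a i) := rfl
        rw [h3]
        exact map_ratCast _ _
      rw [h2]
      exact Lf_of_alg (isAlgebraic_algebraMap (a i))
    rw [mem_Lf] at h1 ⊢
    exact h1.of_pow (hq i)
  choose η hη' using hη
  have hηF : ∀ i, algebraMap L Ω (η i) ∈ F := fun i => by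
    rw [← hη']
    exact F.pow_mem (hθF i) _
  have hmF : ∀ g : Fin N → Fin 2, ∏ l ∈ Finset.univ.erase j, xo l (g l) ∈ F := fun g =>
    F.prod_mem fun l hl => hxF l (Finset.ne_of_mem_erase hl) _
  have hint : ∀ i, IsIntegral L (θ i) := by
    intro i
    refine IsIntegral.of_pow (hd0 i) ?_
    rw [hη']
    exact isIntegral_algebraMap
  have hselF : ∀ (i : Fin r) (s : ℕ) (hs : s < d i), ι (b i s ε) ∈ F := by
    intro i s hs
    obtain ⟨m, hm⟩ := hdq i
    have hm0 : 0 < m := Nat.pos_of_ne_zero fun h => by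
      rw [h, mul_zero] at hm
      exact (hq i).ne' hm
    have h1 := heq i
    rw [hm, mul_comm (d i) m] at h1
    have h2 := kill (hint i) (hd i) (hη' i) _ h1 s hs
    have h3 := congrArg (algebraMap L Ω) h2
    rw [map_sum, map_zero] at h3
    have h4 : ∀ t, algebraMap L Ω (η i ^ t * lin j (fun g => algebraMap K L
        (algebraMap κ _ (b i (s + d i * t) g))) x)
        = algebraMap L Ω (η i) ^ t * ∑ g, ι (b i (s + d i * t) g) *
          ∏ l ∈ Finset.univ.erase j, xo l (g l) := by
      intro t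
      rw [map_mul, map_pow, map_lin]
      congr 1
      simp only [lin, xo]
      refine Finset.sum_congr rfl fun g _ => ?_
      congr 1
      exact (IsScalarTower.algebraMap_apply K L Ω _).symm
    rw [Finset.sum_congr rfl (fun t _ => h4 t)] at h3
    obtain ⟨m', rfl⟩ := Nat.exists_eq_add_of_le' hm0
    rw [Finset.sum_range_succ', pow_zero, one_mul, ← Finset.add_sum_erase _ _ (Finset.mem_univ ε)] at h3
    have h5 : ∏ l ∈ Finset.univ.erase j, xo l (ε l) = 1 := by
      refine Finset.prod_eq_one fun l _ => ?_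
      simp only [xo]
      rw [hx, map_one]
    rw [h5, mul_one, mul_zero, add_zero] at h3
    have hsQ : s < Qm := hs.trans_le (hdQ i)
    have h6 : ι (b i s ε) = -(∑ t ∈ Finset.range m', algebraMap L Ω (η i) ^ (t + 1) *
        ∑ g, ι (b i (s + d i * (t + 1)) g) * ∏ l ∈ Finset.univ.erase j, xo l (g l))
        - ∑ g ∈ Finset.univ.erase ε, ι (b i s g) * ∏ l ∈ Finset.univ.erase j, xo l (g l) := by
      linear_combination h3
    rw [h6]
    refine F.sub_mem (F.neg_mem (F.sum_mem fun t ht => F.mul_mem (F.pow_mem (hηF i) _)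
      (F.sum_mem fun g _ => F.mul_mem ?_ (hmF g)))) (F.sum_mem fun g hg => F.mul_mem ?_ (hmF g))
    · have hlt : s + d i * (t + 1) < Qm := by
        have h7 : t + 1 < m' + 1 := by
          have := Finset.mem_range.mp ht
          omega
        have h8 : s + d i * (t + 1) < d i * (m' + 1) := by
          have h9 : d i * (t + 1 + 1) ≤ d i * (m' + 1) := Nat.mul_le_mul_left _ h7
          have h10 : d i * (t + 1 + 1) = d i * (t + 1) + d i := by ring
          omega
        rw [← hm] at h8
        exact h8.trans_le (hqm i)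
      refine hbF (i, ⟨_, hlt⟩, g) ?_
      rintro ⟨⟨i', s'⟩, h⟩
      have h1 : i' = i := congrArg Prod.fst h
      subst h1
      have h7 : (s' : ℕ) = s + d i' * (t + 1) := congrArg (fun z : β => (z.2.1 : ℕ)) h
      have h8 : (s' : ℕ) < d i' := s'.2
      have h9 : d i' * (t + 1) = d i' * t + d i' := by ring
      omega
    · refine hbF (i, ⟨s, hsQ⟩, g) ?_
      rintro ⟨⟨i', s'⟩, h⟩
      have h1 : ε = g := congrArg (fun z : β => z.2.2) h
      exact (Finset.ne_of_mem_erase hg) h1.symm
  have hallF : ∀ z : β, ι (b z.1 z.2.1 z.2.2) ∈ F := by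
    intro z
    by_cases hz : z ∈ Set.range sel
    · obtain ⟨⟨i, s⟩, rfl⟩ := hz
      exact hselF i s s.2
    · exact hbF z hz
  -- the independent family
  let w : Option β → Ω := fun o => o.elim T (fun z => ι (b z.1 z.2.1 z.2.2))
  have hw : AlgebraicIndependent ℚ w := by
    have hι : Function.Injective ι := ι.injective
    have h1 : AlgebraicIndependent ℚ (fun z : β => ι (b z.1 z.2.1 z.2.2)) := by
      have := hb.map' (f := ι.toRatAlgHom) hι
      exact this
    refine (h1.option_iff_transcendental T).mpr ?_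
    intro hal
    have htr : ∀ p : κ[X], p ≠ 0 → Polynomial.eval₂ ι T p ≠ 0 := by
      intro p hp h0
      have h2 : Polynomial.eval₂ ι T p = algebraMap K Ω (algebraMap κ[X] K p) := by
        have h3 : ((algebraMap K Ω).comp (algebraMap κ[X] K)) = Polynomial.eval₂RingHom ι T := by
          apply Polynomial.ringHom_ext
          · intro c
            simp only [RingHom.comp_apply, Polynomial.coe_eval₂RingHom, Polynomial.eval₂_C]
            rfl
          · simp only [RingHom.comp_apply, Polynomial.coe_eval₂RingHom, Polynomial.eval₂_X]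
            rfl
        have h4 := RingHom.congr_fun h3 p
        simp only [RingHom.comp_apply, Polynomial.coe_eval₂RingHom] at h4
        exact h4.symm
      rw [h2] at h0
      have h5 := (map_eq_zero _).mp h0
      rw [map_eq_zero_iff _ (IsFractionRing.injective κ[X] K)] at h5
      exact hp h5
    have h2 : Algebra.adjoin ℚ (Set.range (fun z : β => ι (b z.1 z.2.1 z.2.2)))
        ≤ (ι.toRatAlgHom).range := by
      rw [Algebra.adjoin_le_iff]
      rintro _ ⟨z, rfl⟩
      exact ⟨b z.1 z.2.1 z.2.2, rfl⟩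
    obtain ⟨P, hP0, hP⟩ := hal
    let A0 := Algebra.adjoin ℚ (Set.range (fun z : β => ι (b z.1 z.2.1 z.2.2)))
    let e : κ ≃ₐ[ℚ] (ι.toRatAlgHom : κ →ₐ[ℚ] Ω).range :=
      AlgEquiv.ofInjective (ι.toRatAlgHom) hι
    let ψ : A0 →+* κ := (e.symm.toAlgHom.comp (Subalgebra.inclusion h2)).toRingHom
    have hψ : ι.comp ψ = algebraMap A0 Ω := by
      ext z
      have : e (ψ z) = Subalgebra.inclusion h2 z := by
        simp [ψ]
      have h3 := congrArg Subtype.val this
      exact h3
    have hψinj : Function.Injective ψ := by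
      intro z w hzw
      have := congrArg ι hzw
      rw [← RingHom.comp_apply, ← RingHom.comp_apply, hψ] at this
      exact Subtype.ext this
    apply htr (P.map ψ)
    · rwa [Ne, Polynomial.map_eq_zero_iff hψinj]
    · rw [Polynomial.eval₂_map, hψ]
      exact hP
  have hfin := card_le_of_alg w hw y (by
    intro o
    cases o with
    | none => exact hTF
    | some z => exact hallF z)
  have hY : Fintype.card Y + ∑ i, d i = (N - 1) + (1 + Fintype.card β) := by
    have e1 : Fintype.card {l : Fin N // l ≠ j} = N - 1 := by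
      rw [Fintype.card_subtype_compl, Fintype.card_fin, Fintype.card_unique]
    have e2 : Fintype.card {z : β // z ∉ Set.range sel} + ∑ i, d i = Fintype.card β := by
      have h1 : Fintype.card {z : β // z ∈ Set.range sel} = ∑ i, d i := by
        have h2 : Fintype.card {z : β // z ∈ Set.range sel} = Fintype.card (Σ i : Fin r, Fin (d i)) :=
          Fintype.card_congr (Equiv.ofInjective sel hsel).symm
        rw [h2, Fintype.card_sigma]
        simp
      rw [← h1, add_comm, Fintype.card_subtype_compl]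
      have h2 : Fintype.card {z : β // z ∈ Set.range sel} ≤ Fintype.card β :=
        Fintype.card_subtype_le _
      omega
    simp only [Y, Fintype.card_sum, Fintype.card_unit]
    omega
  rw [Fintype.card_option] at hfin
  have hN : 0 < N := j.pos
  omega

end Pool.Agent.Helper14C
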