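import Mathlib
import Pool.Agent.Helper14C.Cnt

/-!
# Norm forms over `κ(T)`
-/

set_option autoImplicit false
set_option linter.unusedSectionVars false

open Polynomial

namespace Pool.Agent.Helper14C

/-- the matrix of multiplication by `∑ θ ^ k ℓ_k`, `θ ^ q = u1 / u0`, times `u0` -/
def mat {R : Type*} [CommRing R] (q : ℕ) (u0 u1 : R) (ℓ : ℕ → R) : Matrix (Fin q) (Fin q) R :=
  Matrix.of fun s t => if (t : ℕ) ≤ s then u0 * ℓ (s - t) else u1 * ℓ (s + q - t)

lemma map_mat {R S : Type*} [CommRing R] [CommRing S] (φ : R →+* S) (q : ℕ) (u0 u1 : R) (ℓ : ℕ → R) :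
    φ (mat q u0 u1 ℓ).det = (mat q (φ u0) (φ u1) (fun k => φ (ℓ k))).det := by
  rw [RingHom.map_det]
  congr 1
  ext s t
  simp only [mat, RingHom.mapMatrix_apply, Matrix.map_apply, Matrix.of_apply]
  split_ifs <;> simp

lemma mat_scale {R : Type*} [CommRing R] (q : ℕ) (u0 u : R) (ℓ : ℕ → R) :
    (mat q u0 (u * u0) ℓ).det = u0 ^ q * (mat q 1 u ℓ).det := by
  have h : mat q u0 (u * u0) ℓ = u0 • mat q 1 u ℓ := by
    ext s t
    simp only [mat, Matrix.of_apply, Matrix.smul_apply, smul_eq_mul]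
    split_ifs <;> ring
  rw [h, Matrix.det_smul, Fintype.card_fin]

lemma row_id {R : Type*} [CommRing R] (q : ℕ) (θ : R) (ℓ : ℕ → R) (t : ℕ) (ht : t < q) :
    ∑ s ∈ Finset.range q, θ ^ s * (if t ≤ s then 1 * ℓ (s - t) else θ ^ q * ℓ (s + q - t))
      = θ ^ t * ∑ k ∈ Finset.range q, θ ^ k * ℓ k := by
  rw [Finset.mul_sum]
  refine Finset.sum_nbij' (fun s => if t ≤ s then s - t else s + q - t)
    (fun k => if k + t < q then k + t else k + t - q) ?_ ?_ ?_ ?_ ?_
  · intro s hs
    have := Finset.mem_range.mp hs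
    simp only [Finset.mem_range]
    split_ifs <;> omega
  · intro k hk
    have := Finset.mem_range.mp hk
    simp only [Finset.mem_range]
    split_ifs <;> omega
  · intro s hs
    have := Finset.mem_range.mp hs
    split_ifs <;> omega
  · intro k hk
    have := Finset.mem_range.mp hk
    split_ifs <;> omega
  · intro s hs
    have := Finset.mem_range.mp hs
    split_ifs with h
    · rw [one_mul, ← mul_assoc, ← pow_add]
      congr 2
      omega
    · rw [← mul_assoc, ← mul_assoc, ← pow_add, ← pow_add]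
      congr 2
      omega

/-- zeros of the norm form -/
theorem det_zero {Ω : Type*} [Field Ω] {q : ℕ} {ζ : Ω} (hζ : IsPrimitiveRoot ζ q) {θ0 : Ω}
    (hθ0 : θ0 ≠ 0) (ℓ : ℕ → Ω) (h : (mat q 1 (θ0 ^ q) ℓ).det = 0) :
    ∃ θ : Ω, θ ^ q = θ0 ^ q ∧ ∑ k ∈ Finset.range q, θ ^ k * ℓ k = 0 := by
  classical
  let θ : Fin q → Ω := fun a => ζ ^ (a : ℕ) * θ0
  have hθq : ∀ a, θ a ^ q = θ0 ^ q := by
    intro a
    simp only [θ]
    rw [mul_pow, ← pow_mul, mul_comm (a : ℕ) q, pow_mul, hζ.pow_eq_one, one_pow, one_mul]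
  have hinj : Function.Injective θ := by
    intro a a' haa
    have h1 : ζ ^ (a : ℕ) = ζ ^ (a' : ℕ) := mul_right_cancel₀ hθ0 haa
    exact Fin.ext (hζ.pow_inj a.2 a'.2 h1)
  have hW : (Matrix.vandermonde θ).det ≠ 0 := Matrix.det_vandermonde_ne_zero_iff.mpr hinj
  have hmul : Matrix.vandermonde θ * mat q 1 (θ0 ^ q) ℓ
      = Matrix.diagonal (fun a => ∑ k ∈ Finset.range q, θ a ^ k * ℓ k) * Matrix.vandermonde θ := by
    ext a t
    rw [Matrix.mul_apply, Matrix.diagonal_mul, Matrix.vandermonde_apply]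
    have h1 := row_id q (θ a) ℓ t t.2
    rw [Finset.sum_range] at h1
    rw [mul_comm, ← h1]
    refine Finset.sum_congr rfl fun s _ => ?_
    rw [Matrix.vandermonde_apply, mat, Matrix.of_apply, hθq]
  have h2 := congrArg Matrix.det hmul
  rw [Matrix.det_mul, Matrix.det_mul, h, mul_zero, Matrix.det_diagonal] at h2
  have h3 := (mul_eq_zero.mp h2.symm).resolve_right hW
  obtain ⟨a, -, ha⟩ := Finset.prod_eq_zero_iff.mp h3
  exact ⟨θ a, hθq a, ha⟩

/-- **Divisibility for points on norm hypersurfaces.** -/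
theorem fin0 {κ : Type} [Field κ] [CharZero κ]
    (hroots : ∀ n : ℕ, n ≠ 0 → ∃ ζ : κ, IsPrimitiveRoot ζ n) {L : Type} [Field L]
    [Algebra (FractionRing κ[X]) L] [FiniteDimensional (FractionRing κ[X]) L] {r N Qm : ℕ}
    (b : Fin r → ℕ → (Fin N → Fin 2) → κ)
    (hb : AlgebraicIndependent ℚ (fun z : Fin r × Fin Qm × (Fin N → Fin 2) => b z.1 z.2.1 z.2.2))
    (q : Fin r → ℕ) (hq : ∀ i, 0 < q i) (hqm : ∀ i, q i ≤ Qm) (a : Fin r → ℚ)
    (ha : Function.Injective a) (Mn : ℕ)
    (hM : ∀ d : Fin r → ℕ, (∀ i, 0 < d i) → ∑ i, d i + 1 ≤ N → ∏ i, d i ∣ Mn)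
    (j : Fin N) (x : Fin N → Fin 2 → L) (hx : ∀ l, x l ≠ 0)
    (hT : x j 1 = algebraMap (FractionRing κ[X]) L (algebraMap κ[X] _ X) * x j 0)
    (heq : ∀ i, (mat (q i) (x j 0) (x j 1 - (a i : L) * x j 0)
      (fun k => lin j (fun g => algebraMap (FractionRing κ[X]) L (algebraMap κ _ (b i k g))) x)).det
        = 0) :
    ∏ i, q i ∣ Mn * Module.finrank (FractionRing κ[X]) L := by
  classical
  set K := FractionRing κ[X] with hK
  have hcK : CharZero K := charZero_of_injective_algebraMap (IsFractionRing.injective κ[X] K)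
  have hcL : CharZero L := charZero_of_injective_algebraMap (algebraMap K L).injective
  let Ω := AlgebraicClosure L
  have hcΩ : CharZero Ω := charZero_of_injective_algebraMap (algebraMap L Ω).injective
  let T : L := algebraMap K L (algebraMap κ[X] K X)
  have hx0 : x j 0 ≠ 0 := by
    intro h0
    apply hx j
    funext c
    fin_cases c
    · exact h0
    · change x j 1 = 0
      rw [hT, h0, mul_zero]
  -- `T - a`
  have hTa : ∀ i, T - (a i : L) = algebraMap K L (algebraMap κ[X] K (X - C (algebraMap ℚ κ (a i)))) := by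
    intro i
    rw [map_sub, map_sub]
    congr 1
    have h3 : algebraMap K L (algebraMap κ[X] K (C (algebraMap ℚ κ (a i))))
      = ((algebraMap K L).comp ((algebraMap κ[X] K).comp
          ((C : κ →+* κ[X]).comp (algebraMap ℚ κ)))) (a i) := rfl
    rw [h3]
    exact (map_ratCast _ _).symm
  have hTa0 : ∀ i, T - (a i : L) ≠ 0 := by
    intro i h
    rw [hTa] at h
    have h2 := (map_eq_zero _).mp h
    rw [map_eq_zero_iff _ (IsFractionRing.injective κ[X] K)] at h2
    exact X_sub_C_ne_zero _ h2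
  have hdet : ∀ i, (mat (q i) 1 (T - (a i : L))
      (fun k => lin j (fun g => algebraMap K L (algebraMap κ _ (b i k g))) x)).det = 0 := by
    intro i
    have h1 := heq i
    rw [hT, ← sub_mul, mat_scale] at h1
    exact (mul_eq_zero.mp h1).resolve_left (pow_ne_zero _ hx0)
  have hζL : ∀ i, ∃ ζ : L, IsPrimitiveRoot ζ (q i) := by
    intro i
    obtain ⟨ζ, hζ⟩ := hroots (q i) (hq i).ne'
    exact ⟨algebraMap K L (algebraMap κ K ζ), (hζ.map_of_injective
      (algebraMap κ K).injective).map_of_injective (algebraMap K L).injective⟩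
  have hθex : ∀ i, ∃ θ : Ω, θ ^ q i = algebraMap L Ω (T - (a i : L)) ∧
      ∑ k ∈ Finset.range (q i), θ ^ k * algebraMap L Ω
        (lin j (fun g => algebraMap K L (algebraMap κ _ (b i k g))) x) = 0 := by
    intro i
    obtain ⟨ζ, hζ⟩ := hζL i
    obtain ⟨θ0, hθ0⟩ := IsAlgClosed.exists_pow_nat_eq (algebraMap L Ω (T - (a i : L))) (hq i)
    have h00 : θ0 ≠ 0 := by
      rintro rfl
      rw [zero_pow (hq i).ne'] at hθ0
      exact hTa0 i ((map_eq_zero _).mp hθ0.symm)
    have h1 := congrArg (algebraMap L Ω) (hdet i)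
    rw [map_mat, map_one, map_zero, ← hθ0] at h1
    obtain ⟨θ, hθ, h2⟩ := det_zero (hζ.map_of_injective (algebraMap L Ω).injective) h00 _ h1
    exact ⟨θ, hθ.trans hθ0, h2⟩
  choose θ hθ hsum using hθex
  have hne : ∀ l, ∃ c, x l c ≠ 0 := fun l => by
    by_contra hcon
    push Not at hcon
    exact hx l (funext hcon)
  choose ε hε using hne
  let x' : Fin N → Fin 2 → L := fun l c => (x l (ε l))⁻¹ * x l c
  have hx' : ∀ l, x' l (ε l) = 1 := fun l => inv_mul_cancel₀ (hε l)
  have hθK : ∀ i, θ i ^ q i = algebraMap K Ω (algebraMap κ[X] K (X - C (algebraMap ℚ κ (a i)))) := by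
    intro i
    rw [hθ, hTa]
    exact (IsScalarTower.algebraMap_apply K L Ω _).symm
  have hθ0 : ∀ i, θ i ≠ 0 := by
    intro i h
    have h1 := hθ i
    rw [h, zero_pow (hq i).ne'] at h1
    exact hTa0 i ((map_eq_zero _).mp h1.symm)
  have hk1 := fun i => kum1 (F := L) (hθ0 i) (hq i) (hζL i).choose_spec (hθ i)
  have hcount := count b hb θ q hq hqm a hθK
    (fun i => Module.finrank L (IntermediateField.adjoin L {θ i})) (fun i => rfl)
    (fun i => (hk1 i).2 _ ⟨_, hθ i⟩) (fun i => (hk1 i).1) j x' ε hx' (by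
      intro i
      have h1 : ∀ k, lin j (fun g => algebraMap K L (algebraMap κ _ (b i k g))) x'
          = (∏ l ∈ Finset.univ.erase j, (x l (ε l))⁻¹) *
            lin j (fun g => algebraMap K L (algebraMap κ _ (b i k g))) x :=
        fun k => lin_scale j _ x (fun l => (x l (ε l))⁻¹)
      calc ∑ k ∈ Finset.range (q i), θ i ^ k * algebraMap L Ω
            (lin j (fun g => algebraMap K L (algebraMap κ _ (b i k g))) x')
          = algebraMap L Ω (∏ l ∈ Finset.univ.erase j, (x l (ε l))⁻¹) *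
            ∑ k ∈ Finset.range (q i), θ i ^ k * algebraMap L Ω
              (lin j (fun g => algebraMap K L (algebraMap κ _ (b i k g))) x) := by
            rw [Finset.mul_sum]
            refine Finset.sum_congr rfl fun k _ => ?_
            rw [h1, map_mul]
            ring
        _ = 0 := by rw [hsum, mul_zero])
  have hpos : ∀ i, 0 < Module.finrank L (IntermediateField.adjoin L {θ i}) := by
    intro i
    refine Nat.pos_of_ne_zero fun h => ?_
    have h1 := (hk1 i).2 _ ⟨_, hθ i⟩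
    rw [h, zero_dvd_iff] at h1
    exact (hq i).ne' h1
  have h1 := kummer (L := L) (Ω := Ω) hroots θ q hq (fun i => algebraMap ℚ κ (a i))
    (fun i i' h => ha ((algebraMap ℚ κ).injective h)) hθK
  exact h1.trans (Nat.mul_dvd_mul_right (hM _ hpos hcount) _)

end Pool.Agent.Helper14C
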