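import Mathlib

/-!
# Segre coordinates
-/

set_option autoImplicit false
set_option linter.unusedSectionVars false

open MvPolynomial

namespace Pool.Agent.Helper14C

/-- points of the Segre variety -/
theorem seg_pt {L : Type*} [Field L] {N : ℕ} (z : (Fin N → Fin 2) → L) (hz : z ≠ 0)
    (hrel : ∀ f g k, z f * z g = z (Function.update f k (g k)) * z (Function.update g k (f k)))
    (T : L) (j : Fin N) (hT : ∀ f, f j = 0 → T * z f = z (Function.update f j 1)) :
    ∃ (x : Fin N → Fin 2 → L) (c : L), c ≠ 0 ∧ (∀ k, x k ≠ 0) ∧ x j 1 = T * x j 0 ∧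
      ∀ f, z f = c * ∏ k, x k (f k) := by
  classical
  obtain ⟨f0, hf0⟩ := Function.ne_iff.mp hz
  have hf0' : z f0 ≠ 0 := hf0
  refine ⟨fun k a => z (Function.update f0 k a) / z f0, z f0, hf0', ?_, ?_, ?_⟩
  · intro k h
    have h1 := congrFun h (f0 k)
    simp only [Function.update_eq_self, Pi.zero_apply] at h1
    rw [div_self hf0'] at h1
    exact one_ne_zero h1
  · have h1 := hT (Function.update f0 j 0) (by simp)
    rw [Function.update_idem] at h1
    change z (Function.update f0 j 1) / z f0 = T * (z (Function.update f0 j 0) / z f0)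
    rw [← h1, mul_div_assoc]
  · intro f
    have key : ∀ A : Finset (Fin N), z (fun k => if k ∈ A then f k else f0 k)
        = z f0 * ∏ k ∈ A, z (Function.update f0 k (f k)) / z f0 := by
      intro A
      induction A using Finset.induction_on with
      | empty => simp
      | insert k A hk ih =>
        rw [Finset.prod_insert hk]
        have h1 := hrel (fun l => if l ∈ insert k A then f l else f0 l) f0 k
        have e1 : Function.update (fun l => if l ∈ insert k A then f l else f0 l) k (f0 k)
            = fun l => if l ∈ A then f l else f0 l := by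
          funext l
          by_cases hl : l = k
          · subst hl
            simp [hk]
          · rw [Function.update_of_ne hl]
            simp [hl]
        have e2 : (if k ∈ insert k A then f k else f0 k) = f k := by simp
        rw [e1] at h1
        simp only [e2] at h1
        rw [ih] at h1
        have h2 : z (fun l => if l ∈ insert k A then f l else f0 l)
            = (z f0 * ∏ k ∈ A, z (Function.update f0 k (f k)) / z f0) *
              z (Function.update f0 k (f k)) / z f0 := by
          rw [eq_div_iff hf0', h1]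
        rw [h2]
        ring
    have h1 := key Finset.univ
    simpa using h1

/-- the value of a multihomogeneous form of multidegree `(m, …, m)` with coefficients `c` -/
def mfe {R : Type*} [CommRing R] {N : ℕ} (m : ℕ) (c : (Fin N → Fin (m + 1)) → R)
    (x : Fin N → Fin 2 → R) : R :=
  ∑ a, c a * ∏ k, (x k 1 ^ (a k : ℕ) * x k 0 ^ (m - (a k : ℕ)))

lemma map_mfe {R S : Type*} [CommRing R] [CommRing S] (φ : R →+* S) {N : ℕ} (m : ℕ)
    (c : (Fin N → Fin (m + 1)) → R) (x : Fin N → Fin 2 → R) :
    φ (mfe m c x) = mfe m (fun a => φ (c a)) (fun k e => φ (x k e)) := by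
  simp only [mfe, map_sum, map_mul, map_prod, map_pow]

/-- the form in the Segre coordinates -/
noncomputable def sgp {R : Type*} [CommRing R] {N : ℕ} (m : ℕ) (c : (Fin N → Fin (m + 1)) → R) :
    MvPolynomial (Fin N → Fin 2) R :=
  ∑ a, C (c a) * ∏ l ∈ Finset.range m, X (fun k => if l < (a k : ℕ) then 1 else 0)

lemma sgp_hom {R : Type*} [CommRing R] {N : ℕ} (m : ℕ) (c : (Fin N → Fin (m + 1)) → R) :
    (sgp m c).IsHomogeneous m := by
  refine IsHomogeneous.sum _ _ _ fun a _ => ?_
  have h := (isHomogeneous_C (Fin N → Fin 2) (c a)).mul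
    (IsHomogeneous.prod (Finset.range m) (fun l => (X (fun k => if l < (a k : ℕ) then 1 else 0) :
      MvPolynomial (Fin N → Fin 2) R)) (fun _ => 1) (fun l _ => isHomogeneous_X R _))
  simpa using h

lemma map_sgp {R S : Type*} [CommRing R] [CommRing S] (φ : R →+* S) {N : ℕ} (m : ℕ)
    (c : (Fin N → Fin (m + 1)) → R) :
    MvPolynomial.map φ (sgp m c) = sgp m (fun a => φ (c a)) := by
  simp only [sgp, map_sum, map_mul, map_prod, map_C, map_X]

lemma eval_sgp {R : Type*} [CommRing R] {N : ℕ} (m : ℕ) (c : (Fin N → Fin (m + 1)) → R)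
    (x : Fin N → Fin 2 → R) (u : R) (z : (Fin N → Fin 2) → R) (hz : ∀ f, z f = u * ∏ k, x k (f k)) :
    MvPolynomial.eval z (sgp m c) = u ^ m * mfe m c x := by
  classical
  simp only [sgp, mfe, map_sum, map_mul, eval_C, map_prod, eval_X, Finset.mul_sum]
  refine Finset.sum_congr rfl fun a _ => ?_
  have h1 : ∀ l ∈ Finset.range m, z (fun k => if l < (a k : ℕ) then 1 else 0)
      = u * ∏ k, x k (if l < (a k : ℕ) then 1 else 0) := fun l _ => hz _
  rw [Finset.prod_congr rfl h1, Finset.prod_mul_distrib, Finset.prod_const, Finset.card_range,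
    Finset.prod_comm]
  have h2 : ∀ k : Fin N, ∏ l ∈ Finset.range m, x k (if l < (a k : ℕ) then 1 else 0)
      = x k 1 ^ (a k : ℕ) * x k 0 ^ (m - (a k : ℕ)) := by
    intro k
    have h3 : ∀ l ∈ Finset.range m, x k (if l < (a k : ℕ) then 1 else 0)
        = if l < (a k : ℕ) then x k 1 else x k 0 := fun l _ => by split_ifs <;> rfl
    rw [Finset.prod_congr rfl h3, Finset.prod_ite, Finset.prod_const, Finset.prod_const]
    have h4 : (Finset.filter (fun l => l < (a k : ℕ)) (Finset.range m)).card = (a k : ℕ) := by
      have : Finset.filter (fun l => l < (a k : ℕ)) (Finset.range m) = Finset.range (a k : ℕ) := by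
        ext l
        simp only [Finset.mem_filter, Finset.mem_range]
        have := (a k).2
        omega
      rw [this, Finset.card_range]
    have h5 := Finset.card_filter_add_card_filter_not (s := Finset.range m)
      (fun l => l < (a k : ℕ))
    rw [h4, Finset.card_range] at h5
    rw [h4]
    congr 2
    omega
  rw [Finset.prod_congr rfl (fun k _ => h2 k)]
  ring

end Pool.Agent.Helper14C
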