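import Mathlib
import Pool.Agent.Helper14C.Seg
import Pool.Agent.Helper14C.Fin0

/-!
# Multihomogeneous forms
-/

set_option autoImplicit false
set_option linter.unusedSectionVars false

open MvPolynomial

namespace Pool.Agent.Helper14C

section

variable {N : ℕ}

/-- the multidegree of the variables -/
def wt (N : ℕ) (y : Fin N × Fin 2) : Fin N → ℕ := Pi.single y.1 1

/-- multihomogeneous of multidegree `(m, …, m)` -/
def MH {R : Type*} [CommRing R] (m : ℕ) (p : MvPolynomial (Fin N × Fin 2) R) : Prop :=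
  IsWeightedHomogeneous (wt N) p (fun _ => m)

lemma weight_apply (μ : (Fin N × Fin 2) →₀ ℕ) (k : Fin N) :
    Finsupp.weight (wt N) μ k = μ (k, 0) + μ (k, 1) := by
  classical
  rw [Finsupp.weight_apply, Finsupp.sum_fintype _ _ (by simp), Finset.sum_apply,
    Fintype.sum_prod_type]
  simp only [Fin.sum_univ_two, Pi.smul_apply, smul_eq_mul, wt]
  rw [Finset.sum_eq_single k]
  · simp
  · intro l _ hl
    rw [Pi.single_eq_of_ne (Ne.symm hl)]
    simp
  · intro h; exact absurd (Finset.mem_univ k) h

/-- exponents of multidegree `(m, …, m)` -/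
noncomputable def expo (m : ℕ) (a : Fin N → Fin (m + 1)) : (Fin N × Fin 2) →₀ ℕ :=
  Finsupp.equivFunOnFinite.symm (fun y => if y.2 = 1 then (a y.1 : ℕ) else m - (a y.1 : ℕ))

lemma expo_one (m : ℕ) (a : Fin N → Fin (m + 1)) (k : Fin N) : expo m a (k, 1) = a k := by
  simp [expo]

lemma expo_zero (m : ℕ) (a : Fin N → Fin (m + 1)) (k : Fin N) : expo m a (k, 0) = m - a k := by
  simp [expo]

lemma expo_inj (m : ℕ) : Function.Injective (expo (N := N) m) := by
  intro a a' h
  funext k
  have := DFunLike.congr_fun h (k, 1)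
  rw [expo_one, expo_one] at this
  exact Fin.ext this

lemma weight_expo (m : ℕ) (a : Fin N → Fin (m + 1)) :
    Finsupp.weight (wt N) (expo m a) = fun _ => m := by
  funext k
  rw [weight_apply, expo_one, expo_zero]
  have := (a k).2
  omega

lemma expo_of_weight {m : ℕ} {μ : (Fin N × Fin 2) →₀ ℕ}
    (h : Finsupp.weight (wt N) μ = fun _ => m) : ∃ a, expo m a = μ := by
  have h1 : ∀ k, μ (k, 0) + μ (k, 1) = m := fun k => by
    rw [← weight_apply, h]
  refine ⟨fun k => ⟨μ (k, 1), by have := h1 k; omega⟩, ?_⟩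
  ext ⟨k, e⟩
  have := h1 k
  fin_cases e
  · change expo m _ (k, 0) = μ (k, 0)
    rw [expo_zero]
    simp only
    omega
  · change expo m _ (k, 1) = μ (k, 1)
    rw [expo_one]

variable {R : Type*} [CommRing R]

lemma monomial_expo (m : ℕ) (a : Fin N → Fin (m + 1)) (c : R) :
    monomial (expo m a) c = C c * ∏ k, ((X (k, 1) : MvPolynomial (Fin N × Fin 2) R) ^ (a k : ℕ) *
      X (k, 0) ^ (m - (a k : ℕ))) := by
  classical
  rw [monomial_eq, Finsupp.prod_fintype _ _ (by simp), Fintype.prod_prod_type]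
  congr 1
  refine Finset.prod_congr rfl fun k _ => ?_
  rw [Fin.prod_univ_two, expo_one, expo_zero, mul_comm]

theorem mh_coeff {m : ℕ} {p : MvPolynomial (Fin N × Fin 2) R} (hp : MH m p) :
    p = mfe m (fun a => C (coeff (expo m a) p)) (fun k e => X (k, e)) := by
  classical
  have h1 : mfe m (fun a => C (coeff (expo m a) p)) (fun k e => X (k, e))
      = ∑ a : Fin N → Fin (m + 1), monomial (expo m a) (coeff (expo m a) p) := by
    unfold mfe
    exact Finset.sum_congr rfl fun a _ => (monomial_expo m a _).symm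
  rw [h1]
  ext ν
  rw [coeff_sum]
  simp only [coeff_monomial]
  by_cases hν : ∃ a, expo m a = ν
  · obtain ⟨a, rfl⟩ := hν
    rw [Finset.sum_eq_single a]
    · rw [if_pos rfl]
    · intro a' _ ha'
      rw [if_neg]
      intro h
      exact ha' (expo_inj m h)
    · intro h; exact absurd (Finset.mem_univ a) h
  · rw [Finset.sum_eq_zero]
    · by_contra hne
      exact hν (expo_of_weight (hp hne))
    · intro a _
      rw [if_neg]
      intro h
      exact hν ⟨a, h⟩

theorem mh_mfe (m : ℕ) (c : (Fin N → Fin (m + 1)) → R) :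
    MH m (mfe m (fun a => C (c a)) (fun k e => (X (k, e) : MvPolynomial (Fin N × Fin 2) R))) := by
  have h1 : mfe m (fun a => C (c a)) (fun k e => (X (k, e) : MvPolynomial (Fin N × Fin 2) R))
      = ∑ a : Fin N → Fin (m + 1), monomial (expo m a) (c a) := by
    unfold mfe
    exact Finset.sum_congr rfl fun a _ => (monomial_expo m a _).symm
  rw [h1]
  refine IsWeightedHomogeneous.sum _ _ _ fun a _ => ?_
  exact isWeightedHomogeneous_monomial _ _ _ (weight_expo m a)

lemma mh_lin (j : Fin N) (b : (Fin N → Fin 2) → R) :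
    IsWeightedHomogeneous (wt N) (lin j (fun g => C (b g))
      (fun k e => (X (k, e) : MvPolynomial (Fin N × Fin 2) R)))
      (∑ l ∈ Finset.univ.erase j, Pi.single l 1) := by
  unfold lin
  refine IsWeightedHomogeneous.sum _ _ _ fun g _ => ?_
  refine IsWeightedHomogeneous.C_mul ?_ _
  exact IsWeightedHomogeneous.prod _ _ _ fun l _ => isWeightedHomogeneous_X R (wt N) (l, g l)

/-- the norm form is multihomogeneous -/
theorem mh_norm (q : ℕ) (j : Fin N) (b : ℕ → (Fin N → Fin 2) → R) (a : R) :
    MH q (mat q (X (j, 0) : MvPolynomial (Fin N × Fin 2) R) (X (j, 1) - C a * X (j, 0))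
      (fun k => lin j (fun g => C (b k g)) (fun k e => X (k, e)))).det := by
  classical
  have h0 : (Pi.single j 1 : Fin N → ℕ) + ∑ l ∈ Finset.univ.erase j, Pi.single l 1 = fun _ => 1 := by
    rw [Finset.add_sum_erase _ (fun l => (Pi.single l 1 : Fin N → ℕ)) (Finset.mem_univ j)]
    funext k
    rw [Finset.sum_apply, Finset.sum_eq_single k]
    · simp
    · intro l _ hl
      rw [Pi.single_eq_of_ne (Ne.symm hl)]
    · intro h; exact absurd (Finset.mem_univ k) h
  have hX : ∀ e, IsWeightedHomogeneous (wt N) (X (j, e) : MvPolynomial (Fin N × Fin 2) R)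
      (Pi.single j 1) := fun e => isWeightedHomogeneous_X R (wt N) (j, e)
  have hent : ∀ s t, IsWeightedHomogeneous (wt N)
      (mat q (X (j, 0) : MvPolynomial (Fin N × Fin 2) R) (X (j, 1) - C a * X (j, 0))
      (fun k => lin j (fun g => C (b k g)) (fun k e => X (k, e))) s t) (fun _ => 1) := by
    intro s t
    rw [← h0]
    simp only [mat, Matrix.of_apply]
    split_ifs
    · exact (hX 0).mul (mh_lin j _)
    · exact ((hX 1).sub ((hX 0).C_mul a)).mul (mh_lin j _)
  unfold MH
  rw [Matrix.det_apply]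
  refine IsWeightedHomogeneous.sum _ _ _ fun σ _ => ?_
  have h1 := IsWeightedHomogeneous.prod (w := wt N) Finset.univ
    (fun i => mat q (X (j, 0) : MvPolynomial (Fin N × Fin 2) R) (X (j, 1) - C a * X (j, 0))
      (fun k => lin j (fun g => C (b k g)) (fun k e => X (k, e))) (σ i) i)
    (fun _ => (fun _ => 1 : Fin N → ℕ)) (fun i _ => hent _ _)
  have h2 : ∑ i : Fin q, (fun _ => 1 : Fin N → ℕ) = fun _ => q := by
    funext k
    rw [Finset.sum_apply]
    simp
  rw [h2] at h1
  rcases Int.units_eq_one_or (Equiv.Perm.sign σ) with hs | hs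
  · rw [hs, one_smul]; exact h1
  · rw [hs, Units.neg_smul, one_smul]; exact h1.neg

end

end Pool.Agent.Helper14C
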