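import Mathlib
import Pool.Agent.TH922.KC.Kum1

/-!
# Closed points and homogeneous ideals of bounded Hilbert function
-/

set_option autoImplicit false
set_option linter.unusedSectionVars false

open MvPolynomial

namespace Pool.Agent.Helper14C

open Pool.Agent.TH922.KC

section span

variable {K : Type*} [Field K] {X : Type*} [Finite X] {Ω : Type*} [Field Ω] [Algebra K Ω]

/-- the span of the monomials of degree `t` in `z` -/
noncomputable def V (K : Type*) [Field K] {X : Type*} {Ω : Type*} [Field Ω] [Algebra K Ω]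
    (z : X → Ω) (t : ℕ) : Submodule K Ω :=
  (homogeneousSubmodule X K t).map (aeval z : MvPolynomial X K →ₐ[K] Ω).toLinearMap

omit [Finite X] in
lemma mem_V {z : X → Ω} {t : ℕ} {w : Ω} :
    w ∈ V K z t ↔ ∃ p : MvPolynomial X K, p.IsHomogeneous t ∧ aeval z p = w := Iff.rfl

instance (z : X → Ω) (t : ℕ) : Module.Finite K (V K z t) := by
  unfold V; infer_instance

omit [Finite X] in
lemma V_succ {z : X → Ω} {x0 : X} (h0 : z x0 = 1) (t : ℕ) : V K z t ≤ V K z (t + 1) := by
  rintro _ ⟨p, hp, rfl⟩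
  refine ⟨p * MvPolynomial.X x0, ?_, ?_⟩
  · exact IsHomogeneous.mul hp (isHomogeneous_X K x0)
  · simp [h0]

omit [Finite X] in
lemma V_mono {z : X → Ω} {x0 : X} (h0 : z x0 = 1) : Monotone (V K z) :=
  monotone_nat_of_le_succ (V_succ h0)

omit [Finite X] in
lemma V_le (z : X → Ω) (t : ℕ) :
    V K z t ≤ Subalgebra.toSubmodule (Algebra.adjoin K (Set.range z)) := by
  rintro _ ⟨p, hp, rfl⟩
  change aeval z p ∈ Algebra.adjoin K (Set.range z)
  rw [Algebra.adjoin_range_eq_range_aeval]
  exact ⟨p, rfl⟩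

omit [Finite X] in
lemma exists_mem_V {z : X → Ω} {x0 : X} (h0 : z x0 = 1) {w : Ω}
    (hw : w ∈ Algebra.adjoin K (Set.range z)) : ∃ t, w ∈ V K z t := by
  rw [Algebra.adjoin_range_eq_range_aeval] at hw
  obtain ⟨p, rfl⟩ := hw
  refine ⟨p.totalDegree, ?_⟩
  change aeval z p ∈ _
  have hs : aeval z p = ∑ i ∈ Finset.range (p.totalDegree + 1),
      aeval z (homogeneousComponent i p) := by
    rw [← map_sum, p.sum_homogeneousComponent]
  rw [hs]
  refine Submodule.sum_mem _ fun i hi => ?_
  refine V_mono (K := K) h0 (Nat.lt_succ_iff.mp (Finset.mem_range.mp hi)) ?_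
  exact ⟨homogeneousComponent i p, homogeneousComponent_isHomogeneous i p, rfl⟩

/-- bounded dimensions: the spans are eventually the algebra generated by `z` -/
lemma V_stab {z : X → Ω} {x0 : X} (h0 : z x0 = 1) (hb : ∃ C : ℕ, ∀ t, Module.finrank K (V K z t) ≤ C) :
    ∃ t0, ∀ t ≥ t0, V K z t = Subalgebra.toSubmodule (Algebra.adjoin K (Set.range z)) := by
  obtain ⟨C, hC⟩ := hb
  obtain ⟨t0, e, he⟩ := mono_bdd C (fun t => Module.finrank K (V K z t))
    (fun s t hst => Submodule.finrank_mono (V_mono (K := K) h0 hst)) hC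
  have hconst : ∀ t ≥ t0, V K z t = V K z t0 := fun t ht =>
    (Submodule.eq_of_le_of_finrank_eq (V_mono (K := K) h0 ht) (by rw [he t ht, he t0 le_rfl])).symm
  refine ⟨t0, fun t ht => le_antisymm (V_le z t) ?_⟩
  intro w hw
  obtain ⟨s, hs⟩ := exists_mem_V h0 hw
  rw [hconst t ht, ← hconst (max s t0) (le_max_right _ _)]
  exact V_mono (K := K) h0 (le_max_left _ _) hs

end span

section ideal

variable {K : Type*} [Field K] {X : Type*} [Finite X]

omit [Finite X] in
lemma aeval_scale {Ω : Type*} [CommRing Ω] [Algebra K Ω] (v : X → Ω) (c : Ω)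
    {W : MvPolynomial X K} {t : ℕ} (hW : W.IsHomogeneous t) :
    aeval (fun j => c * v j) W = c ^ t * aeval v W := by
  rw [W.as_sum, map_sum, map_sum, Finset.mul_sum]
  refine Finset.sum_congr rfl fun μ hμ => ?_
  have hdeg : μ.degree = t := by
    by_contra hne
    exact (mem_support_iff.mp hμ) (hW.coeff_eq_zero hne)
  rw [aeval_monomial, aeval_monomial]
  have : (μ.prod fun i k => (c * v i) ^ k) = c ^ t * μ.prod fun i k => v i ^ k := by
    simp only [Finsupp.prod, mul_pow]
    rw [Finset.prod_mul_distrib, Finset.prod_pow_eq_pow_sum, ← hdeg]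
    rfl
  rw [this]
  ring

/-- the homogeneous ideal of a point over a finite extension -/
theorem pt_ideal {L : Type*} [Field L] [Algebra K L] [FiniteDimensional K L] (z : X → L)
    (hz : z ≠ 0) :
    ∃ I : Ideal (MvPolynomial X K), IsHom I ∧
      (∀ (f : MvPolynomial X K) (d : ℕ), f.IsHomogeneous d → aeval z f = 0 → f ∈ I) ∧
      ∃ e : ℕ, (∃ t0, ∀ t ≥ t0, hf I t = e) ∧ e ∣ Module.finrank K L := by
  classical
  obtain ⟨x0, hx0⟩ := Function.ne_iff.mp hz
  have hx0' : z x0 ≠ 0 := hx0
  let z' : X → L := fun i => (z x0)⁻¹ * z i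
  have hz'0 : z' x0 = 1 := inv_mul_cancel₀ hx0'
  let Ω := FractionRing (Polynomial L)
  let s : Ω := algebraMap (Polynomial L) Ω Polynomial.X
  let Φ : MvPolynomial X K →ₐ[K] Ω := aeval (fun i => s * algebraMap L Ω (z' i))
  have hΦ : ∀ (f : MvPolynomial X K) (d : ℕ), f.IsHomogeneous d →
      Φ f = s ^ d * algebraMap L Ω (aeval z' f) := by
    intro f d hfd
    have h1 : Φ f = s ^ d * aeval (fun i => algebraMap L Ω (z' i)) f := aeval_scale _ _ hfd
    rw [h1]
    congr 1
    have h2 := aeval_algebraMap_apply (R := K) (A := L) Ω z' f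
    exact h2
  have hinj : Function.Injective (algebraMap (Polynomial L) Ω) := IsFractionRing.injective _ _
  have hsum : ∀ (n : ℕ) (a : ℕ → L), ∑ d ∈ Finset.range n, s ^ d * algebraMap L Ω (a d) = 0 →
      ∀ d < n, a d = 0 := by
    intro n a h d hd
    have h1 : algebraMap (Polynomial L) Ω (∑ d ∈ Finset.range n, Polynomial.X ^ d * Polynomial.C (a d))
        = 0 := by
      rw [map_sum, ← h]
      refine Finset.sum_congr rfl fun d _ => ?_
      rw [map_mul, map_pow]
      congr 1
    have h2 := (map_eq_zero_iff _ hinj).mp h1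
    have h3 := congrArg (fun p => Polynomial.coeff p d) h2
    simp only [Polynomial.finsetSum_coeff, Polynomial.coeff_zero] at h3
    rw [Finset.sum_eq_single d] at h3
    · simpa [Polynomial.coeff_X_pow] using h3
    · intro b _ hb
      rw [Polynomial.coeff_X_pow_mul', ]
      split_ifs with hle
      · rw [Polynomial.coeff_C, if_neg (by omega)]
      · rfl
    · intro h; exact absurd (Finset.mem_range.mpr hd) h
  have hs0 : s ≠ 0 := by
    intro h
    exact Polynomial.X_ne_zero ((map_eq_zero_iff _ hinj).mp h)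
  refine ⟨RingHom.ker Φ, ?_, ?_, ?_⟩
  · intro p hp k
    rw [RingHom.mem_ker] at hp ⊢
    rw [← p.sum_homogeneousComponent, map_sum] at hp
    have h1 : ∑ d ∈ Finset.range (p.totalDegree + 1),
        s ^ d * algebraMap L Ω (aeval z' (homogeneousComponent d p)) = 0 := by
      rw [← hp]
      exact Finset.sum_congr rfl fun d _ => (hΦ _ d (homogeneousComponent_isHomogeneous d p)).symm
    rw [hΦ _ k (homogeneousComponent_isHomogeneous k p)]
    by_cases hk : k < p.totalDegree + 1
    · rw [hsum _ _ h1 k hk, map_zero, mul_zero]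
    · rw [homogeneousComponent_eq_zero _ _ (by omega), map_zero, map_zero, mul_zero]
  · intro f d hfd h0
    rw [RingHom.mem_ker, hΦ f d hfd]
    have h1 : aeval z' f = (z x0)⁻¹ ^ d * aeval z f := aeval_scale _ _ hfd
    rw [h1, h0, mul_zero, map_zero, mul_zero]
  · have hfr : ∀ t, hf (RingHom.ker Φ) t = Module.finrank K (V K z' t) := by
      intro t
      rw [hf_ker]
      let ι : L →ₗ[K] Ω := (LinearMap.mulLeft K (s ^ t)).comp
        ((Algebra.ofId L Ω).restrictScalars K).toLinearMap
      have hι : Function.Injective ι := by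
        intro a b hab
        have h1 : s ^ t * algebraMap L Ω a = s ^ t * algebraMap L Ω b := hab
        exact (algebraMap L Ω).injective (mul_left_cancel₀ (pow_ne_zero t hs0) h1)
      have e : (homogeneousSubmodule X K t).map Φ.toLinearMap = (V K z' t).map ι := by
        unfold V
        rw [← Submodule.map_comp]
        apply le_antisymm
        · rintro _ ⟨p, hp, rfl⟩
          exact ⟨p, hp, (hΦ p t hp).symm⟩
        · rintro _ ⟨p, hp, rfl⟩
          exact ⟨p, hp, hΦ p t hp⟩
      rw [e]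
      exact (Submodule.equivMapOfInjective ι hι _).finrank_eq.symm
    obtain ⟨t0, ht0⟩ := V_stab hz'0 ⟨Module.finrank K L, fun t => Submodule.finrank_le _⟩
    let F := IntermediateField.adjoin K (Set.range z')
    have hF : F.toSubalgebra = Algebra.adjoin K (Set.range z') :=
      IntermediateField.adjoin_toSubalgebra_of_isAlgebraic
        (fun x _ => Algebra.IsAlgebraic.isAlgebraic x)
    refine ⟨Module.finrank K F, ⟨t0, fun t ht => ?_⟩, ?_⟩
    · rw [hfr, ht0 t ht, ← hF]
      rfl
    · exact ⟨Module.finrank F L, (Module.finrank_mul_finrank K F L).symm⟩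

/-- a homogeneous prime of bounded Hilbert function is the ideal of a point -/
theorem pt_of_prime {K : Type} [Field K] {X : Type} [Finite X] (P : Ideal (MvPolynomial X K))
    (hP : IsHom P) (hp : P.IsPrime)
    (hb : ∃ C : ℕ, ∀ t, hf P t ≤ C) (x0 : X) (hx0 : (MvPolynomial.X x0 : MvPolynomial X K) ∉ P) :
    ∃ (L : Type) (_ : Field L) (_ : Algebra K L), FiniteDimensional K L ∧
      ∃ z : X → L, z ≠ 0 ∧ (∀ f ∈ P, aeval z f = 0) ∧
        ∃ t0, ∀ t ≥ t0, hf P t = Module.finrank K L := by
  classical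
  let Ω := FractionRing (MvPolynomial X K ⧸ P)
  let u : X → Ω := fun i => algebraMap (MvPolynomial X K ⧸ P) Ω (Ideal.Quotient.mk P (MvPolynomial.X i))
  have hau : ∀ f : MvPolynomial X K, aeval u f = algebraMap (MvPolynomial X K ⧸ P) Ω
      (Ideal.Quotient.mk P f) := by
    intro f
    have h1 : (aeval u : MvPolynomial X K →ₐ[K] Ω)
        = (IsScalarTower.toAlgHom K (MvPolynomial X K ⧸ P) Ω).comp (Ideal.Quotient.mkₐ K P) := by
      ext i
      simp [u]
    rw [h1]
    rfl
  have hker : RingHom.ker (aeval u : MvPolynomial X K →ₐ[K] Ω) = P := by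
    ext p
    rw [RingHom.mem_ker, hau,
      map_eq_zero_iff _ (IsFractionRing.injective (MvPolynomial X K ⧸ P) Ω),
      Ideal.Quotient.eq_zero_iff_mem]
  have hux : u x0 ≠ 0 := by
    intro h
    apply hx0
    rw [← hker, RingHom.mem_ker, aeval_X]
    exact h
  let z : X → Ω := fun i => (u x0)⁻¹ * u i
  have hz0 : z x0 = 1 := inv_mul_cancel₀ hux
  have hfr : ∀ t, hf P t = Module.finrank K (V K z t) := by
    intro t
    conv_lhs => rw [← hker, hf_ker]
    let ι : Ω →ₗ[K] Ω := LinearMap.mulLeft K ((u x0)⁻¹ ^ t)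
    have hι : Function.Injective ι := fun a b hab =>
      mul_left_cancel₀ (pow_ne_zero t (inv_ne_zero hux)) hab
    have e : V K z t = ((homogeneousSubmodule X K t).map
        (aeval u : MvPolynomial X K →ₐ[K] Ω).toLinearMap).map ι := by
      unfold V
      rw [← Submodule.map_comp]
      apply le_antisymm
      · rintro _ ⟨p, hp, rfl⟩
        exact ⟨p, hp, (aeval_scale u _ hp).symm⟩
      · rintro _ ⟨p, hp, rfl⟩
        exact ⟨p, hp, aeval_scale u _ hp⟩
    rw [e]
    exact (Submodule.equivMapOfInjective ι hι _).finrank_eq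
  obtain ⟨C, hC⟩ := hb
  obtain ⟨t0, ht0⟩ := V_stab hz0 ⟨C, fun t => by rw [← hfr]; exact hC t⟩
  let A := Algebra.adjoin K (Set.range z)
  have hAfin : FiniteDimensional K A := by
    have h1 : Module.Finite K (V K z t0) := inferInstance
    rw [ht0 t0 le_rfl] at h1
    exact h1
  have hAfield : IsField A := by
    have : Algebra.IsIntegral K A := inferInstance
    exact isField_of_isIntegral_of_isField' (R := K) (Field.toIsField K)
  let _ : Field A := hAfield.toField
  have hzA : ∀ i, z i ∈ A := fun i => Algebra.subset_adjoin ⟨i, rfl⟩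
  refine ⟨A, inferInstance, inferInstance, ?_, fun i => ⟨z i, hzA i⟩, ?_, ?_, t0, fun t ht => ?_⟩
  · exact hAfin
  · intro h
    have h1 := congrFun h x0
    have h2 : z x0 = 0 := congrArg Subtype.val h1
    rw [hz0] at h2
    exact one_ne_zero h2
  · intro f hf
    apply Subtype.ext
    have h1 : ((aeval (fun i => (⟨z i, hzA i⟩ : A)) f : A) : Ω) = aeval z f := by
      have h2 := aeval_algebraMap_apply (R := K) (A := A) Ω (fun i => (⟨z i, hzA i⟩ : A)) f
      exact h2.symm
    change ((aeval (fun i => (⟨z i, hzA i⟩ : A)) f : A) : Ω) = ((0 : A) : Ω)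
    rw [h1, ← f.sum_homogeneousComponent, map_sum]
    change _ = (0 : Ω)
    refine Finset.sum_eq_zero fun d _ => ?_
    have h3 : homogeneousComponent d f ∈ RingHom.ker (aeval u : MvPolynomial X K →ₐ[K] Ω) := by
      rw [hker]; exact hP _ hf _
    rw [RingHom.mem_ker] at h3
    have h4 : aeval z (homogeneousComponent d f) = (u x0)⁻¹ ^ d * aeval u (homogeneousComponent d f) :=
      aeval_scale u _ (homogeneousComponent_isHomogeneous d f)
    rw [h4, h3, mul_zero]
  · rw [hfr, ht0 t ht]
    rfl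

end ideal

/-- Divisibility for ideals of bounded Hilbert function follows from the case of primes. -/
theorem div_of_prime0 {X κ : Type*} [Field κ] [Finite X] (q : ℕ) (ℓ : ℕ)
    (F : Ideal (MvPolynomial X κ))
    (H : ∀ J : Ideal (MvPolynomial X κ), IsHom J → J.IsPrime → F ≤ J →
      (∃ C : ℕ, ∀ t, hf J t ≤ C) → ∃ K : ℕ, ∀ t ≥ K, q ∣ ℓ * hf J t) :
    ∀ J : Ideal (MvPolynomial X κ), IsHom J → F ≤ J →
      (∃ C : ℕ, ∀ t, hf J t ≤ C) → ∃ K : ℕ, ∀ t ≥ K, q ∣ ℓ * hf J t := by
  refine hom_induction _ ?_ ?_ ?_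
  · intro _ _
    exact ⟨0, fun t _ => by rw [hf_top]; simp⟩
  · intro J hJ hp _ hF hgr
    exact H J hJ hp hF hgr
  · intro J a δ hJ ha ha0 h1 h2 hF hgr
    obtain ⟨C, hC⟩ := hgr
    obtain ⟨K1, hK1⟩ := h1 (hF.trans le_sup_left) ⟨C, fun t => le_trans (by
      rw [hf_step hJ ha ha0 t]; omega) (hC t)⟩
    obtain ⟨K2, hK2⟩ := h2 (hF.trans (le_col J a)) ⟨C, fun t => by
      calc hf (col J a) t ≤ hf J (δ + t) := by
            rw [hf_step hJ ha ha0 (δ + t), if_pos (by omega), Nat.add_sub_cancel_left]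
            omega
        _ ≤ C := hC _⟩
    refine ⟨K1 + K2 + δ, fun t ht => ?_⟩
    rw [hf_step hJ ha ha0 t, if_pos (by omega), mul_add]
    exact dvd_add (hK1 t (by omega)) (hK2 (t - δ) (by omega))

end Pool.Agent.Helper14C
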