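import Mathlib
import Pool.Agent.Helper14C.Mf
import Pool.Agent.Helper14C.Pts

/-!
# Symmetric forms on `(P^1)^N` and forms on `P^N`
-/

set_option autoImplicit false
set_option linter.unusedSectionVars false

open MvPolynomial

namespace Pool.Agent.Helper14C

open Pool.Agent.TH922.KC

section es

variable {R S : Type*} [CommRing R] [CommRing S] {N : ℕ}

/-- the coefficients of `∏ (x_{k0} t - x_{k1})` -/
noncomputable def es (x : Fin N → Fin 2 → R) (i : Fin (N + 1)) : R :=
  (∏ k, (Polynomial.C (x k 0) * Polynomial.X - Polynomial.C (x k 1))).coeff i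

lemma map_es (φ : R →+* S) (x : Fin N → Fin 2 → R) (i : Fin (N + 1)) :
    φ (es x i) = es (fun k e => φ (x k e)) i := by
  unfold es
  rw [← Polynomial.coeff_map, Polynomial.map_prod]
  simp

lemma es_perm (x : Fin N → Fin 2 → R) (σ : Equiv.Perm (Fin N)) : es (fun k => x (σ k)) = es x := by
  funext i
  unfold es
  congr 1
  exact Equiv.prod_comp σ (fun k => Polynomial.C (x k 0) * Polynomial.X - Polynomial.C (x k 1))

lemma mfe_perm (m : ℕ) (c : (Fin N → Fin (m + 1)) → R) (x : Fin N → Fin 2 → R)
    (σ : Equiv.Perm (Fin N)) :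
    mfe m c (fun k => x (σ k)) = mfe m (fun a => c (fun k => a (σ k))) x := by
  unfold mfe
  refine Fintype.sum_equiv (Equiv.arrowCongr σ (Equiv.refl _)) _ _ fun a => ?_
  have h1 : (fun k => (Equiv.arrowCongr σ (Equiv.refl (Fin (m + 1)))) a (σ k)) = a := by
    funext k
    simp [Equiv.arrowCongr]
  change c a * _ = c (fun k => (Equiv.arrowCongr σ (Equiv.refl (Fin (m + 1)))) a (σ k)) * _
  rw [h1]
  congr 1
  conv_rhs => rw [← Equiv.prod_comp σ]
  refine Finset.prod_congr rfl fun k _ => ?_
  have h2 : (Equiv.arrowCongr σ (Equiv.refl (Fin (m + 1)))) a (σ k) = a k := congrFun h1 k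
  rw [h2]

end es

/-- functions from lists -/
lemma list_fn {α : Type*} (l : List α) (N : ℕ) (h : l.length = N) :
    ∃ x : Fin N → α, (∀ (β : Type _) [CommMonoid β] (g : α → β), ∏ k, g (x k) = (l.map g).prod) ∧
      (∀ a ∈ l, ∃ k, x k = a) ∧ ∀ k, x k ∈ l := by
  subst h
  refine ⟨fun k => l.get k, ?_, ?_, ?_⟩
  · intro β _ g
    rw [← List.prod_ofFn]
    congr 1
    have : (fun i => g (l.get i)) = g ∘ l.get := rfl
    rw [this, ← List.map_ofFn, List.ofFn_get]
  · intro a ha
    obtain ⟨k, hk⟩ := List.get_of_mem ha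
    exact ⟨k, hk⟩
  · intro k
    exact List.get_mem l k

/-- every point is the image of a point of `(P^1)^N` once the polynomial splits -/
theorem fac {L : Type} [Field L] {N : ℕ} (e : Fin (N + 1) → L) (he : e ≠ 0)
    (hs : (∑ i : Fin (N + 1), Polynomial.C (e i) * Polynomial.X ^ (i : ℕ)).Splits) :
    ∃ (x : Fin N → Fin 2 → L) (c : L), c ≠ 0 ∧ (∀ k, x k ≠ 0) ∧ (∀ i, e i = c * es x i) ∧
      ∀ T, (∑ i : Fin (N + 1), Polynomial.C (e i) * Polynomial.X ^ (i : ℕ)).eval T = 0 →
        ∃ j, x j 1 = T * x j 0 := by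
  classical
  set E := ∑ i : Fin (N + 1), Polynomial.C (e i) * Polynomial.X ^ (i : ℕ) with hE
  have hcoeff : ∀ i : Fin (N + 1), E.coeff i = e i := by
    intro i
    rw [hE, Polynomial.finsetSum_coeff, Finset.sum_eq_single i]
    · simp
    · intro j _ hj
      rw [Polynomial.coeff_C_mul, Polynomial.coeff_X_pow, if_neg, mul_zero]
      intro h
      exact hj (Fin.ext h.symm)
    · intro h; exact absurd (Finset.mem_univ i) h
  have hE0 : E ≠ 0 := by
    intro h
    apply he
    funext i
    rw [← hcoeff i, h]
    simp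
  have hdeg : E.natDegree ≤ N := by
    apply Polynomial.natDegree_sum_le_of_forall_le
    intro i _
    refine (Polynomial.natDegree_C_mul_X_pow_le _ _).trans ?_
    have := i.2
    omega
  have hcard : Multiset.card E.roots = E.natDegree := hs.natDegree_eq_card_roots.symm
  let M : Multiset (Fin 2 → L) := E.roots.map (fun ρ => ![1, ρ]) +
    Multiset.replicate (N - E.natDegree) ![0, -1]
  have hMcard : M.toList.length = N := by
    rw [Multiset.length_toList]
    simp only [M, Multiset.card_add, Multiset.card_map, Multiset.card_replicate, hcard]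
    omega
  obtain ⟨x, hx1, hx2, hx3⟩ := list_fn M.toList N hMcard
  have hprod : ∏ k, (Polynomial.C (x k 0) * Polynomial.X - Polynomial.C (x k 1))
      = (E.roots.map (fun ρ => Polynomial.X - Polynomial.C ρ)).prod := by
    rw [hx1 (Polynomial L) (fun v => Polynomial.C (v 0) * Polynomial.X - Polynomial.C (v 1))]
    have h1 : (M.toList.map (fun v => Polynomial.C (v 0) * Polynomial.X - Polynomial.C (v 1))).prod
        = (M.map (fun v => Polynomial.C (v 0) * Polynomial.X - Polynomial.C (v 1))).prod := by
      conv_rhs => rw [← Multiset.coe_toList M]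
      rw [Multiset.map_coe, Multiset.prod_coe]
    rw [h1]
    simp only [M, Multiset.map_add, Multiset.map_map, Multiset.map_replicate, Multiset.prod_add,
      Multiset.prod_replicate]
    simp
  have hEq : E = Polynomial.C E.leadingCoeff *
      ∏ k, (Polynomial.C (x k 0) * Polynomial.X - Polynomial.C (x k 1)) := by
    rw [hprod]
    exact hs.eq_prod_roots
  refine ⟨x, E.leadingCoeff, Polynomial.leadingCoeff_ne_zero.mpr hE0, ?_, ?_, ?_⟩
  · intro k hk
    have h1 := hx3 k
    rw [Multiset.mem_toList, Multiset.mem_add] at h1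
    rcases h1 with h1 | h1
    · obtain ⟨ρ, -, hρ⟩ := Multiset.mem_map.mp h1
      have h2 := congrFun (hρ.trans hk) 0
      simp at h2
    · have h2 := Multiset.eq_of_mem_replicate h1
      have h3 := congrFun (h2.symm.trans hk) 1
      simp at h3
  · intro i
    rw [← hcoeff i]
    conv_lhs => rw [hEq]
    rw [Polynomial.coeff_C_mul]
    rfl
  · intro T hT
    have h1 : T ∈ E.roots := (Polynomial.mem_roots hE0).mpr hT
    have h2 : (![1, T] : Fin 2 → L) ∈ M.toList := by
      rw [Multiset.mem_toList, Multiset.mem_add]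
      exact Or.inl (Multiset.mem_map_of_mem _ h1)
    obtain ⟨j, hj⟩ := hx2 _ h2
    refine ⟨j, ?_⟩
    rw [hj]
    simp

section sym

variable {k : Type} [Field k] [CharZero k] {N : ℕ}

/-- the generic point -/
noncomputable def gx (k : Type) [Field k] (N : ℕ) : Fin N → Fin 2 → MvPolynomial (Fin N × Fin 2) k :=
  fun l e => X (l, e)

/-- symmetric multihomogeneous forms -/
noncomputable def W (k : Type) [Field k] (N D : ℕ) : Submodule k (MvPolynomial (Fin N × Fin 2) k) where
  carrier := {p | MH D p ∧ ∀ σ : Equiv.Perm (Fin N), rename (Prod.map σ id) p = p}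
  add_mem' := by
    rintro p p' ⟨h1, h2⟩ ⟨h1', h2'⟩
    exact ⟨h1.add h1', fun σ => by rw [map_add, h2, h2']⟩
  zero_mem' := ⟨isWeightedHomogeneous_zero _ _ _, fun σ => map_zero _⟩
  smul_mem' := by
    rintro c p ⟨h1, h2⟩
    refine ⟨?_, fun σ => by rw [map_smul, h2]⟩
    rw [smul_eq_C_mul]
    exact h1.C_mul c

lemma es_mh (i : Fin (N + 1)) : MH 1 (es (gx k N) i) := by
  classical
  have key : ∀ (s : Finset (Fin N)) (i : ℕ), IsWeightedHomogeneous (wt N)
      ((∏ l ∈ s, (Polynomial.C (gx k N l 0) * Polynomial.X - Polynomial.C (gx k N l 1))).coeff i)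
      (∑ l ∈ s, Pi.single l 1) := by
    intro s
    induction s using Finset.induction_on with
    | empty =>
      intro i
      rw [Finset.prod_empty, Finset.sum_empty, Polynomial.coeff_one]
      split_ifs
      · exact isWeightedHomogeneous_one _ _
      · exact isWeightedHomogeneous_zero _ _ _
    | insert a s ha ih =>
      intro i
      rw [Finset.prod_insert ha, Finset.sum_insert ha, sub_mul, Polynomial.coeff_sub,
        mul_assoc, Polynomial.coeff_C_mul, Polynomial.coeff_C_mul]
      refine IsWeightedHomogeneous.sub (IsWeightedHomogeneous.mul ?_ ?_)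
        (IsWeightedHomogeneous.mul ?_ (ih i))
      · exact isWeightedHomogeneous_X k (wt N) (a, 0)
      · cases i with
        | zero =>
          rw [Polynomial.mul_coeff_zero, Polynomial.coeff_X_zero, zero_mul]
          exact isWeightedHomogeneous_zero _ _ _
        | succ i =>
          rw [Polynomial.coeff_X_mul]
          exact ih i
      · exact isWeightedHomogeneous_X k (wt N) (a, 1)
  have h := key Finset.univ i
  have h0 : (∑ l : Fin N, Pi.single l 1 : Fin N → ℕ) = fun _ => 1 := by
    funext k
    rw [Finset.sum_apply, Finset.sum_eq_single k]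
    · simp
    · intro l _ hl
      rw [Pi.single_eq_of_ne (Ne.symm hl)]
    · intro h; exact absurd (Finset.mem_univ k) h
  rw [h0] at h
  exact h

lemma es_sym (i : Fin (N + 1)) (σ : Equiv.Perm (Fin N)) :
    rename (Prod.map σ id) (es (gx k N) i) = es (gx k N) i := by
  have h1 := map_es (rename (Prod.map σ id) : MvPolynomial (Fin N × Fin 2) k →ₐ[k] _).toRingHom
    (gx k N) i
  have h2 : (fun l e => (rename (Prod.map σ id) : MvPolynomial (Fin N × Fin 2) k →ₐ[k] _).toRingHom
      (gx k N l e)) = fun l => gx k N (σ l) := by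
    funext l e
    simp [gx]
  rw [h2, es_perm] at h1
  exact h1

lemma theta_mem {D : ℕ} {G : MvPolynomial (Fin (N + 1)) k} (hG : G.IsHomogeneous D) :
    aeval (es (gx k N)) G ∈ W k N D := by
  classical
  constructor
  · unfold MH
    rw [G.as_sum, map_sum]
    refine IsWeightedHomogeneous.sum _ _ _ fun μ hμ => ?_
    have hdeg : μ.degree = D := by
      by_contra hne
      exact (mem_support_iff.mp hμ) (hG.coeff_eq_zero hne)
    rw [aeval_monomial]
    refine IsWeightedHomogeneous.C_mul ?_ _
    rw [Finsupp.prod_fintype _ _ (by simp)]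
    have h1 := IsWeightedHomogeneous.prod (w := wt N) Finset.univ
      (fun i => es (gx k N) i ^ μ i) (fun i => μ i • (fun _ => 1 : Fin N → ℕ))
      (fun i _ => (es_mh i).pow (μ i))
    have h2 : ∑ i, μ i • (fun _ => 1 : Fin N → ℕ) = fun _ => D := by
      funext l
      rw [Finset.sum_apply]
      simp only [Pi.smul_apply, smul_eq_mul, mul_one]
      rw [← hdeg, Finsupp.degree_eq_sum]
    rw [h2] at h1
    exact h1
  · intro σ
    have h1 : (rename (Prod.map σ id) : MvPolynomial (Fin N × Fin 2) k →ₐ[k] _).comp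
        (aeval (es (gx k N))) = aeval (es (gx k N)) := by
      ext1 i
      rw [AlgHom.comp_apply, aeval_X]
      exact es_sym i σ
    exact DFunLike.congr_fun h1 G

/-- the comparison map -/
noncomputable def theta (k : Type) [Field k] [CharZero k] (N D : ℕ) :
    homogeneousSubmodule (Fin (N + 1)) k D →ₗ[k] W k N D :=
  LinearMap.codRestrict (W k N D)
    ((aeval (es (gx k N)) : MvPolynomial (Fin (N + 1)) k →ₐ[k] _).toLinearMap.comp
      (homogeneousSubmodule (Fin (N + 1)) k D).subtype)
    (fun G => theta_mem G.2)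

lemma theta_inj (D : ℕ) : Function.Injective (theta k N D) := by
  rw [injective_iff_map_eq_zero]
  rintro ⟨G, hG⟩ h
  have h0 : aeval (es (gx k N)) G = 0 := congrArg Subtype.val h
  have hG' : G.IsHomogeneous D := hG
  apply Subtype.ext
  change G = 0
  let Kb := AlgebraicClosure k
  have hinf : Infinite Kb := IsAlgClosed.instInfinite
  have hX : MvPolynomial.map (algebraMap k Kb) (X 0 * G) = 0 := by
    apply MvPolynomial.funext
    intro e
    rw [map_zero, eval_map]
    change aeval e (X 0 * G) = 0
    rw [map_mul, aeval_X]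
    by_cases he : e = 0
    · rw [he]; simp
    obtain ⟨x, c, hc, -, hex, -⟩ := fac e he (IsAlgClosed.splits _)
    have h1 : aeval e G = c ^ D * aeval (es x) G := by
      have h2 : e = fun i => c * es x i := funext hex
      conv_lhs => rw [h2]
      exact aeval_scale (es x) c hG'
    have h2 : (aeval (fun y : Fin N × Fin 2 => x y.1 y.2) : MvPolynomial (Fin N × Fin 2) k →ₐ[k] Kb).comp
        (aeval (es (gx k N))) = aeval (es x) := by
      ext1 i
      rw [AlgHom.comp_apply, aeval_X, aeval_X]
      have h3 := map_es (aeval (fun y : Fin N × Fin 2 => x y.1 y.2) :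
        MvPolynomial (Fin N × Fin 2) k →ₐ[k] Kb).toRingHom (gx k N) i
      have h4 : (fun l e => (aeval (fun y : Fin N × Fin 2 => x y.1 y.2) :
        MvPolynomial (Fin N × Fin 2) k →ₐ[k] Kb).toRingHom (gx k N l e)) = x := by
        funext l e
        simp [gx]
      rw [h4] at h3
      exact h3
    have h3 := DFunLike.congr_fun h2 G
    rw [AlgHom.comp_apply, h0, map_zero] at h3
    rw [h1, ← h3, mul_zero, mul_zero]
  have h1 := (map_eq_zero_iff _ (MvPolynomial.map_injective _ (algebraMap k Kb).injective)).mp hX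
  exact (mul_eq_zero.mp h1).resolve_left (X_ne_zero 0)

lemma rename_mfe (m : ℕ) (c : (Fin N → Fin (m + 1)) → k) (σ : Equiv.Perm (Fin N)) :
    rename (Prod.map σ id) (mfe m (fun a => C (c a)) (gx k N))
      = mfe m (fun a => C (c (fun l => a (σ l)))) (gx k N) := by
  have h1 := map_mfe (rename (Prod.map σ id) : MvPolynomial (Fin N × Fin 2) k →ₐ[k] _).toRingHom
    m (fun a => C (c a)) (gx k N)
  have h2 : (fun l e => (rename (Prod.map σ id) : MvPolynomial (Fin N × Fin 2) k →ₐ[k] _).toRingHom
      (gx k N l e)) = fun l => gx k N (σ l) := by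
    funext l e
    simp [gx]
  have h3 : (fun a => (rename (Prod.map σ id) : MvPolynomial (Fin N × Fin 2) k →ₐ[k] _).toRingHom
      (C (c a))) = fun a => C (c a) := by
    funext a
    simp
  rw [h2, h3, mfe_perm] at h1
  exact h1

lemma coeff_mfe (m : ℕ) (c : (Fin N → Fin (m + 1)) → k) (a : Fin N → Fin (m + 1)) :
    coeff (expo m a) (mfe m (fun a => C (c a)) (gx k N)) = c a := by
  classical
  have h1 : mfe m (fun a => C (c a)) (gx k N)
      = ∑ a : Fin N → Fin (m + 1), monomial (expo m a) (c a) := by
    unfold mfe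
    exact Finset.sum_congr rfl fun a _ => (monomial_expo m a _).symm
  rw [h1, coeff_sum]
  simp only [coeff_monomial]
  rw [Finset.sum_eq_single a]
  · rw [if_pos rfl]
  · intro a' _ ha'
    rw [if_neg]
    intro h
    exact ha' (expo_inj m h)
  · intro h; exact absurd (Finset.mem_univ a) h

lemma coeff_sym {D : ℕ} {p : MvPolynomial (Fin N × Fin 2) k} (hp : p ∈ W k N D)
    (a : Fin N → Fin (D + 1)) (σ : Equiv.Perm (Fin N)) :
    coeff (expo D (fun l => a (σ l))) p = coeff (expo D a) p := by
  obtain ⟨h1, h2⟩ := hp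
  have h3 : p = mfe D (fun a => C (coeff (expo D a) p)) (gx k N) := mh_coeff h1
  have h4 := h2 σ
  have h5 := congrArg (coeff (expo D a)) h4
  conv_lhs at h5 => rw [h3]
  rw [rename_mfe, coeff_mfe] at h5
  exact h5

/-- functions with the same multiset of values -/
lemma perm_of_count {D : ℕ} (a a' : Fin N → Fin (D + 1))
    (h : Finset.univ.val.map a = Finset.univ.val.map a') :
    ∃ σ : Equiv.Perm (Fin N), a' = fun l => a (σ l) := by
  classical
  have hc : ∀ v, Nonempty ({l // a' l = v} ≃ {l // a l = v}) := by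
    intro v
    refine ⟨Fintype.equivOfCardEq ?_⟩
    have h1 := congrArg (Multiset.count v) h
    rw [Multiset.count_map, Multiset.count_map] at h1
    rw [Fintype.card_subtype, Fintype.card_subtype]
    have e1 : ∀ b : Fin N → Fin (D + 1), (Finset.univ.filter fun l => b l = v).card
        = Multiset.card (Multiset.filter (fun l => v = b l) Finset.univ.val) := by
      intro b
      rw [Finset.card_def, Finset.filter_val]
      congr 2
      funext l
      exact propext eq_comm
    rw [e1, e1]
    exact h1.symm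
  refine ⟨Equiv.ofFiberEquiv fun v => (hc v).some, ?_⟩
  funext l
  exact (Equiv.ofFiberEquiv_map _ l).symm

lemma finrank_W (D : ℕ) : Module.Finite k (W k N D) ∧
    Module.finrank k (W k N D) ≤ Fintype.card (Sym (Fin (D + 1)) N) := by
  classical
  let sy : (Fin N → Fin (D + 1)) → Sym (Fin (D + 1)) N := fun a =>
    ⟨Finset.univ.val.map a, by simp⟩
  let rep : Sym (Fin (D + 1)) N → (Fin N → Fin (D + 1)) := fun s =>
    if h : ∃ a, sy a = s then h.choose else fun _ => 0
  have hrep : ∀ a, sy (rep (sy a)) = sy a := by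
    intro a
    have h : ∃ a', sy a' = sy a := ⟨a, rfl⟩
    simp only [rep, dif_pos h]
    exact h.choose_spec
  let R : W k N D →ₗ[k] (Sym (Fin (D + 1)) N → k) :=
    { toFun := fun p s => coeff (expo D (rep s)) p.1
      map_add' := fun p p' => by funext s; simp
      map_smul' := fun c p => by funext s; simp }
  have hR : Function.Injective R := by
    rw [injective_iff_map_eq_zero]
    intro p hp
    apply Subtype.ext
    have h1 : ∀ a, coeff (expo D a) p.1 = 0 := by
      intro a
      obtain ⟨σ, hσ⟩ := perm_of_count a (rep (sy a)) (congrArg Subtype.val (hrep a)).symm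
      have h2 := congrFun hp (sy a)
      change coeff (expo D (rep (sy a))) p.1 = 0 at h2
      rw [hσ, coeff_sym p.2] at h2
      exact h2
    rw [mh_coeff p.2.1]
    simp only [h1, C_0]
    unfold mfe
    simp
  refine ⟨Module.Finite.of_injective R hR, ?_⟩
  have h := LinearMap.finrank_le_finrank_of_injective hR
  rwa [Module.finrank_fintype_fun_eq_card] at h

lemma finrank_hom (D : ℕ) : Module.finrank k (homogeneousSubmodule (Fin (N + 1)) k D)
    = Fintype.card (Sym (Fin (D + 1)) N) := by
  rw [finrank_H]
  have e : It (Fin (N + 1)) D ≃ Sym (Fin (N + 1)) D :=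
    (Equiv.subtypeEquivRight (fun μ => by
      rw [Finsupp.degree_eq_sum, Finsupp.sum_fintype _ _ (by simp)]; rfl)).trans
      (Sym.equivNatSum (Fin (N + 1)) D).symm
  rw [Fintype.card_congr e, Sym.card_sym_eq_choose, Sym.card_sym_eq_choose, Fintype.card_fin,
    Fintype.card_fin]
  have h1 : N + 1 + D - 1 = N + D := by omega
  have h2 : D + 1 + N - 1 = N + D := by omega
  rw [h1, h2, ← Nat.choose_symm_add]
  

/-- **Symmetric forms.** -/
theorem sym_form {δ : ℕ} {p : MvPolynomial (Fin N × Fin 2) k} (hp : MH δ p) :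
    ∃ G : MvPolynomial (Fin (N + 1)) k, G.IsHomogeneous (N.factorial * δ) ∧
      aeval (es (gx k N)) G = ∏ σ : Equiv.Perm (Fin N), rename (Prod.map σ id) p := by
  classical
  set D := N.factorial * δ with hD
  have hP : (∏ σ : Equiv.Perm (Fin N), rename (Prod.map σ id) p) ∈ W k N D := by
    constructor
    · have h1 := IsWeightedHomogeneous.prod (w := wt N) Finset.univ
        (fun σ : Equiv.Perm (Fin N) => rename (Prod.map σ id) p)
        (fun _ => (fun _ => δ : Fin N → ℕ)) (fun σ _ => by
          have h2 : p = mfe δ (fun a => C (coeff (expo δ a) p)) (gx k N) := mh_coeff hp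
          rw [h2, rename_mfe]
          exact mh_mfe δ _)
      have h2 : ∑ σ : Equiv.Perm (Fin N), (fun _ => δ : Fin N → ℕ) = fun _ => D := by
        funext l
        rw [Finset.sum_apply]
        simp [hD, Fintype.card_perm]
      rw [h2] at h1
      exact h1
    · intro τ
      rw [map_prod]
      refine Fintype.prod_equiv (Equiv.mulLeft τ) _ _ fun σ => ?_
      rw [rename_rename]
      congr 1
  obtain ⟨hfin, hle⟩ := finrank_W (k := k) (N := N) D
  have h1 := LinearMap.finrank_le_finrank_of_injective (theta_inj (k := k) (N := N) D)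
  rw [finrank_hom] at h1
  have hsurj : Function.Surjective (theta k N D) :=
    (LinearMap.injective_iff_surjective_of_finrank_eq_finrank (by
      rw [finrank_hom]; exact le_antisymm h1 hle)).mp (theta_inj D)
  obtain ⟨G, hG⟩ := hsurj ⟨_, hP⟩
  exact ⟨G.1, G.2, congrArg Subtype.val hG⟩

end sym

end Pool.Agent.Helper14C
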