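import Mathlib
import Pool.Agent.TH922.KC.Trans
import Pool.Agent.Helper14C.Sy
import Pool.Agent.Helper14C.Kum

/-!
# Transcendence count for symmetric norm forms
-/

set_option autoImplicit false
set_option linter.unusedSectionVars false

open MvPolynomial

namespace Pool.Agent.Helper14C

open Pool.Agent.TH922.KC

/-- adding a transcendental element -/
lemma indep_option {κ Ω E : Type} [Field κ] [Field Ω] [CharZero κ] [CharZero Ω] [Algebra κ Ω]
    (h : E → κ) (hh : AlgebraicIndependent ℚ h) (T : Ω) (hT : Transcendental κ T) :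
    AlgebraicIndependent ℚ (fun o : Option E => o.elim T (fun e => algebraMap κ Ω (h e))) := by
  have h1 : AlgebraicIndependent ℚ (fun z : E => algebraMap κ Ω (h z)) := by
    have := hh.map' (f := (Algebra.ofId κ Ω).restrictScalars ℚ) (algebraMap κ Ω).injective
    exact this
  refine (h1.option_iff_transcendental T).mpr ?_
  intro hal
  apply hT
  have h2 : Algebra.adjoin ℚ (Set.range (fun z : E =>
      algebraMap κ Ω (h z))) ≤ ((Algebra.ofId κ Ω).restrictScalars ℚ).range := by
    rw [Algebra.adjoin_le_iff]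
    rintro _ ⟨z, rfl⟩
    exact ⟨h z, rfl⟩
  obtain ⟨P, hP0, hP⟩ := hal
  let A0 := Algebra.adjoin ℚ (Set.range (fun z : E => algebraMap κ Ω (h z)))
  let e : κ ≃ₐ[ℚ] ((Algebra.ofId κ Ω).restrictScalars ℚ : κ →ₐ[ℚ] Ω).range :=
    AlgEquiv.ofInjective ((Algebra.ofId κ Ω).restrictScalars ℚ) (algebraMap κ Ω).injective
  let ψ : A0 →+* κ := (e.symm.toAlgHom.comp (Subalgebra.inclusion h2)).toRingHom
  have hψ : (algebraMap κ Ω).comp ψ = algebraMap A0 Ω := by
    ext z
    have : e (ψ z) = Subalgebra.inclusion h2 z := by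
      simp [ψ]
    have h3 := congrArg Subtype.val this
    exact h3
  have hψinj : Function.Injective ψ := by
    intro z w hzw
    have := congrArg (algebraMap κ Ω) hzw
    rw [← RingHom.comp_apply, ← RingHom.comp_apply, hψ] at this
    exact Subtype.ext this
  refine ⟨P.map ψ, ?_, ?_⟩
  · rwa [Ne, Polynomial.map_eq_zero_iff hψinj]
  · rw [Polynomial.aeval_def, Polynomial.eval₂_map, hψ]
    exact hP

/-- **Transcendence count, one generic vector.** -/
theorem count1 {κ Ω E Y : Type} [Field κ] [Field Ω] [CharZero κ] [CharZero Ω] [Algebra κ Ω]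
    [Fintype E] [Fintype Y] (h : E → κ) (hh : AlgebraicIndependent ℚ h) (T : Ω)
    (hT : Transcendental κ T) (y : Y → Ω) (hTy : T ∈ Lf (Set.range y)) {ρ : ℕ}
    (w : Fin ρ → E → Lf (Set.range y)) (hw : LinearIndependent (Lf (Set.range y)) w)
    (h0 : ∀ a, ∑ e, (w a e : Ω) * algebraMap κ Ω (h e) = 0) : ρ + 1 ≤ Fintype.card Y := by
  classical
  let F := Lf (Set.range y)
  let Φ : (E → F) →ₗ[F] Ω := Fintype.linearCombination F (fun e => algebraMap κ Ω (h e))
  have hker : ρ ≤ Module.finrank F (LinearMap.ker Φ) := by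
    have hmem : ∀ a, w a ∈ LinearMap.ker Φ := by
      intro a
      rw [LinearMap.mem_ker, ← h0 a]
      simp only [Φ, Fintype.linearCombination_apply]
      rfl
    have h1 : LinearIndependent F (fun a => (⟨w a, hmem a⟩ : LinearMap.ker Φ)) := by
      apply LinearIndependent.of_comp (LinearMap.ker Φ).subtype
      exact hw
    have h2 := h1.fintype_card_le_finrank
    rwa [Fintype.card_fin] at h2
  have hran : Module.finrank F (LinearMap.range Φ) + ρ ≤ Fintype.card E := by
    have h1 := LinearMap.finrank_range_add_finrank_ker Φ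
    rw [Module.finrank_fintype_fun_eq_card] at h1
    omega
  let γ : Fin (Module.finrank F (LinearMap.range Φ)) → Ω := fun x =>
    ((Module.finBasis F (LinearMap.range Φ) x : LinearMap.range Φ) : Ω)
  let y' : Y ⊕ Fin (Module.finrank F (LinearMap.range Φ)) → Ω := Sum.elim y γ
  have hsub : Set.range y ⊆ Set.range y' := by
    rintro _ ⟨j, rfl⟩
    exact ⟨Sum.inl j, rfl⟩
  have hLE : ∀ z, z ∈ F → z ∈ Lf (Set.range y') := fun z hz => isAlg_mono hsub hz
  have hc' : ∀ e, algebraMap κ Ω (h e) ∈ Lf (Set.range y') := by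
    intro e
    have h1 : algebraMap κ Ω (h e) ∈ LinearMap.range Φ := by
      refine ⟨Pi.single e 1, ?_⟩
      simp [Φ, Fintype.linearCombination_apply, Pi.single_apply]
    have h2 := (Module.finBasis F (LinearMap.range Φ)).sum_repr ⟨_, h1⟩
    have h3 := congrArg (fun w : LinearMap.range Φ => (w : Ω)) h2
    simp only at h3
    rw [← h3]
    rw [Submodule.coe_sum]
    refine (Lf (Set.range y')).sum_mem fun k _ => ?_
    rw [Submodule.coe_smul, Subfield.smul_def, smul_eq_mul]
    refine (Lf (Set.range y')).mul_mem (hLE _ (SetLike.coe_mem _)) ?_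
    exact Lf_of_mem ⟨Sum.inr k, rfl⟩
  have hfin := card_le_of_alg _ (indep_option h hh T hT) y' (by
    intro o
    cases o with
    | none => exact hLE _ hTy
    | some z => exact hc' z)
  rw [Fintype.card_option, Fintype.card_sum, Fintype.card_fin] at hfin
  omega

/-- **The symmetric norm forms.** -/
theorem typeB {κ : Type} [Field κ] [CharZero κ] {L : Type} [Field L]
    [Algebra (FractionRing (Polynomial κ)) L] [FiniteDimensional (FractionRing (Polynomial κ)) L]
    {Ω : Type} [Field Ω] [Algebra L Ω] [IsAlgClosed Ω] [Algebra.IsAlgebraic L Ω]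
    {N s p v : ℕ} (hp : p.Prime) (hpN : N < p) (hN : N ≤ s + 1)
    (ζ : κ) (hζ : IsPrimitiveRoot ζ (p ^ v))
    (h : It (Fin (N + 1)) s → κ) (hh : AlgebraicIndependent ℚ h) (a : ℚ) (j : Fin N)
    (x : Fin N → Fin 2 → L) (hx : ∀ l, x l 0 = 1 ∨ (x l 0 = 0 ∧ x l 1 = 1)) (hx0 : x j 0 = 1)
    (hx1 : x j 1 = algebraMap (FractionRing (Polynomial κ)) L (algebraMap (Polynomial κ) _ Polynomial.X))
    (θ : Fin N → Fin 2 → Ω) (hθ0 : ∀ l, θ l 0 = algebraMap L Ω (x l 0))
    (hθ1 : ∀ l, θ l 1 ^ (p ^ v) = algebraMap L Ω (x l 1 - (a : L) * x l 0))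
    (hH : eval₂ ((algebraMap L Ω).comp ((algebraMap (FractionRing (Polynomial κ)) L).comp
      (algebraMap κ (FractionRing (Polynomial κ))))) (es θ) (tp (Fin (N + 1)) κ s h) = 0) :
    ∃ η : L, θ j 1 = algebraMap L Ω η := by
  classical
  set K := FractionRing (Polynomial κ) with hK
  have hcK : CharZero K := charZero_of_injective_algebraMap (IsFractionRing.injective (Polynomial κ) K)
  have hcL : CharZero L := charZero_of_injective_algebraMap (algebraMap K L).injective
  have hcΩ : CharZero Ω := charZero_of_injective_algebraMap (algebraMap L Ω).injective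
  let φL : κ →+* L := (algebraMap K L).comp (algebraMap κ K)
  let _ : Algebra κ Ω := ((algebraMap L Ω).comp φL).toAlgebra
  set q := p ^ v with hq
  have hq0 : 0 < q := pow_pos hp.pos v
  let T : Ω := algebraMap L Ω (x j 1)
  have hNpos : 0 < N := j.pos
  -- `T` is transcendental over `κ`
  have hT : Transcendental κ T := by
    rintro ⟨P, hP0, hP⟩
    have h1 : Polynomial.aeval T P = algebraMap L Ω (algebraMap K L (algebraMap (Polynomial κ) K P)) := by
      have h3 : ((algebraMap L Ω).comp ((algebraMap K L).comp (algebraMap (Polynomial κ) K)))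
          = (Polynomial.aeval T : Polynomial κ →ₐ[κ] Ω).toRingHom := by
        apply Polynomial.ringHom_ext
        · intro c
          simp only [RingHom.comp_apply, AlgHom.toRingHom_eq_coe, RingHom.coe_coe, Polynomial.aeval_C]
          rfl
        · simp only [RingHom.comp_apply, AlgHom.toRingHom_eq_coe, RingHom.coe_coe,
            Polynomial.aeval_X]
          change _ = algebraMap L Ω (x j 1)
          rw [hx1]
      exact (RingHom.congr_fun h3 P).symm
    rw [h1] at hP
    have h2 := (map_eq_zero _).mp ((map_eq_zero _).mp hP)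
    rw [map_eq_zero_iff _ (IsFractionRing.injective (Polynomial κ) K)] at h2
    exact hP0 h2
  -- the field of the count
  let Y := {l : Fin N // l ≠ j} ⊕ Unit
  let y : Y → Ω := Sum.elim (fun l => algebraMap L Ω (x l 1)) (fun _ => T)
  let F := Lf (Set.range y)
  have hTF : T ∈ F := Lf_of_mem ⟨Sum.inr (), rfl⟩
  have hYcard : Fintype.card Y = N := by
    have e1 : Fintype.card {l : Fin N // l ≠ j} = N - 1 := by
      rw [Fintype.card_subtype_compl, Fintype.card_fin, Fintype.card_unique]
    simp only [Y, Fintype.card_sum, Fintype.card_unit]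
    omega
  have hxF : ∀ l e, algebraMap L Ω (x l e) ∈ F := by
    intro l e
    fin_cases e
    · change algebraMap L Ω (x l 0) ∈ F
      rcases hx l with h1 | ⟨h1, -⟩
      · rw [h1, map_one]; exact F.one_mem
      · rw [h1, map_zero]; exact F.zero_mem
    · change algebraMap L Ω (x l 1) ∈ F
      by_cases hl : l = j
      · rw [hl]; exact hTF
      · exact Lf_of_mem ⟨Sum.inl ⟨l, hl⟩, rfl⟩
  have hθF : ∀ (τ : Ω →ₐ[L] Ω) l e, τ (θ l e) ∈ F := by
    intro τ l e
    fin_cases e
    · change τ (θ l 0) ∈ F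
      rw [hθ0, AlgHom.commutes]
      exact hxF l 0
    · change τ (θ l 1) ∈ F
      have h1 : τ (θ l 1) ^ q ∈ F := by
        rw [← map_pow, hθ1, AlgHom.commutes, map_sub, map_mul, map_ratCast]
        refine F.sub_mem (hxF l 1) (F.mul_mem ?_ (hxF l 0))
        have h2 : ((a : ℚ) : Ω) ∈ F := Lf_of_alg (isAlgebraic_algebraMap a)
        exact h2
      rw [mem_Lf] at h1 ⊢
      exact h1.of_pow hq0
  have hesF : ∀ (τ : Ω →ₐ[L] Ω) i, τ (es θ i) ∈ F := by
    intro τ i
    have h1 : τ (es θ i) = es (fun l e => τ (θ l e)) i := map_es τ.toRingHom θ i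
    have h2 : F.subtype (es (fun l e => (⟨τ (θ l e), hθF τ l e⟩ : F)) i)
        = es (fun l e => τ (θ l e)) i := map_es F.subtype _ i
    rw [h1, ← h2]
    exact SetLike.coe_mem _
  -- the point is not zero
  set g0 : Polynomial Ω := ∏ k, (Polynomial.C (θ k 0) * Polynomial.X - Polynomial.C (θ k 1)) with hg0
  have hθne : ∀ k, θ k 0 = 0 → θ k 1 ≠ 0 := by
    intro k hk h1
    rw [hθ0, map_eq_zero] at hk
    rcases hx k with h2 | ⟨h2, h3⟩
    · rw [h2] at hk; exact one_ne_zero hk
    · have h4 := hθ1 k
      rw [h1, h2, h3, mul_zero, sub_zero, map_one, zero_pow hq0.ne'] at h4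
      exact zero_ne_one h4
  have hg0ne : g0 ≠ 0 := by
    rw [hg0]
    refine Finset.prod_ne_zero_iff.mpr fun k _ h1 => ?_
    have h2 := congrArg (fun f => Polynomial.coeff f 0) h1
    have h3 := congrArg (fun f => Polynomial.coeff f 1) h1
    simp at h2 h3
    exact hθne k h3 h2
  have hg0deg : g0.natDegree ≤ N := by
    rw [hg0]
    refine (Polynomial.natDegree_prod_le _ _).trans ?_
    have h1 : ∀ k ∈ (Finset.univ : Finset (Fin N)),
        (Polynomial.C (θ k 0) * Polynomial.X - Polynomial.C (θ k 1)).natDegree ≤ 1 := by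
      intro k _
      refine (Polynomial.natDegree_sub_le _ _).trans ?_
      rw [Polynomial.natDegree_C]
      exact max_le ((Polynomial.natDegree_C_mul_le _ _).trans Polynomial.natDegree_X_le) (Nat.zero_le _)
    refine (Finset.sum_le_sum h1).trans ?_
    simp
  let t0 : Fin (N + 1) := ⟨g0.natDegree, Nat.lt_succ_of_le hg0deg⟩
  have ht0 : es θ t0 ≠ 0 := by
    change g0.coeff g0.natDegree ≠ 0
    exact Polynomial.leadingCoeff_ne_zero.mpr hg0ne
  let ũ : Fin (N + 1) → Ω := fun i => (es θ t0)⁻¹ * es θ i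
  let E := IntermediateField.adjoin L (Set.range ũ)
  have hũE : ∀ i, ũ i ∈ E := fun i => IntermediateField.subset_adjoin L _ ⟨i, rfl⟩
  have hfdE : FiniteDimensional L E := by
    apply IntermediateField.finiteDimensional_adjoin
    rintro _ ⟨i, rfl⟩
    exact (Algebra.IsAlgebraic.isAlgebraic (R := L) (ũ i)).isIntegral
  -- `θ_j ∈ E`
  let g : Polynomial E := ∑ i : Fin (N + 1), Polynomial.C ⟨ũ i, hũE i⟩ * Polynomial.X ^ (i : ℕ)
  have hgmap : g.map (algebraMap E Ω) = Polynomial.C (es θ t0)⁻¹ * g0 := by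
    ext i
    simp only [g]
    rw [Polynomial.map_sum, Polynomial.finsetSum_coeff, Polynomial.coeff_C_mul]
    by_cases hi : i < N + 1
    · rw [Finset.sum_eq_single ⟨i, hi⟩]
      · rw [Polynomial.map_mul, Polynomial.map_C, Polynomial.map_pow, Polynomial.map_X,
          Polynomial.coeff_C_mul, Polynomial.coeff_X_pow, if_pos rfl, mul_one]
        rfl
      · intro l _ hl
        rw [Polynomial.map_mul, Polynomial.map_C, Polynomial.map_pow, Polynomial.map_X,
          Polynomial.coeff_C_mul, Polynomial.coeff_X_pow, if_neg, mul_zero]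
        intro h
        exact hl (Fin.ext h.symm)
      · intro h; exact absurd (Finset.mem_univ _) h
    · rw [Finset.sum_eq_zero, Polynomial.coeff_eq_zero_of_natDegree_lt (by omega), mul_zero]
      intro l _
      rw [Polynomial.map_mul, Polynomial.map_C, Polynomial.map_pow, Polynomial.map_X,
        Polynomial.coeff_C_mul, Polynomial.coeff_X_pow, if_neg, mul_zero]
      have := l.2
      omega
  have hg00 : g ≠ 0 := by
    intro h1
    rw [h1, Polynomial.map_zero] at hgmap
    exact mul_ne_zero (Polynomial.C_ne_zero.mpr (inv_ne_zero ht0)) hg0ne hgmap.symm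
  have hgdeg : g.natDegree ≤ N := by
    have h1 : (g.map (algebraMap E Ω)).natDegree = g.natDegree :=
      Polynomial.natDegree_map_eq_of_injective (algebraMap E Ω).injective g
    rw [← h1, hgmap]
    exact (Polynomial.natDegree_C_mul_le _ _).trans hg0deg
  have hgroot : Polynomial.aeval (θ j 1) g = 0 := by
    rw [Polynomial.aeval_def, ← Polynomial.eval_map, hgmap, Polynomial.eval_mul, hg0,
      Polynomial.eval_prod, Finset.prod_eq_zero (Finset.mem_univ j), mul_zero]
    rw [Polynomial.eval_sub, Polynomial.eval_mul, Polynomial.eval_C, Polynomial.eval_C,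
      Polynomial.eval_X, hθ0, hx0, map_one, one_mul, sub_self]
  have hθj : θ j 1 ^ q = algebraMap L Ω (x j 1 - (a : L)) := by
    rw [hθ1, hx0, mul_one]
  have hθj0 : θ j 1 ≠ 0 := by
    intro h1
    rw [h1, zero_pow hq0.ne'] at hθj
    have h2 := (map_eq_zero _).mp hθj.symm
    apply hT
    have h3 : T = algebraMap κ Ω (a : κ) := by
      change algebraMap L Ω (x j 1) = _
      rw [sub_eq_zero.mp h2, map_ratCast, map_ratCast]
    rw [h3]
    exact isAlgebraic_algebraMap _
  have hζL : IsPrimitiveRoot (φL ζ) q := hζ.map_of_injective φL.injective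
  have hone : ∀ (d : ℕ), d ∣ q → d < p → d = 1 := by
    intro d hd hdp
    obtain ⟨t, -, ht⟩ := (Nat.dvd_prime_pow hp).mp hd
    rcases t with _ | t
    · simpa using ht
    · exfalso
      rw [ht, pow_succ] at hdp
      have h1 : p ≤ p ^ t * p := Nat.le_mul_of_pos_left _ (pow_pos hp.pos t)
      omega
  have hθE : θ j 1 ∈ E := by
    have h1 := (kum1 (F := E) hθj0 hq0 (hζL.map_of_injective (algebraMap L E).injective)
      (b := algebraMap L E (x j 1 - (a : L))) hθj).2 q
      ⟨algebraMap L E (x j 1 - (a : L)), hθj⟩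
    have hint : IsIntegral E (θ j 1) := by
      have : IsIntegral L (θ j 1) := (Algebra.IsAlgebraic.isAlgebraic (R := L) (θ j 1)).isIntegral
      exact this.tower_top
    have h2 : Module.finrank E (IntermediateField.adjoin E {θ j 1}) ≤ N := by
      rw [IntermediateField.adjoin.finrank hint]
      exact (Polynomial.natDegree_le_of_dvd (minpoly.dvd E (θ j 1) hgroot) hg00).trans hgdeg
    have h3 := hone _ h1 (by omega)
    have h4 := IntermediateField.finrank_adjoin_simple_eq_one_iff.mp h3
    obtain ⟨e, he⟩ := IntermediateField.mem_bot.mp h4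
    rw [← he]
    exact e.2
  by_contra hcon
  have hdL : p ≤ Module.finrank L (IntermediateField.adjoin L {θ j 1}) := by
    have h1 := (kum1 (F := L) hθj0 hq0 hζL hθj).2 q ⟨_, hθj⟩
    by_contra hlt
    have h3 := hone _ h1 (not_le.mp hlt)
    have h4 := IntermediateField.finrank_adjoin_simple_eq_one_iff.mp h3
    obtain ⟨e, he⟩ := IntermediateField.mem_bot.mp h4
    exact hcon ⟨e, he.symm⟩
  have hdE : N ≤ Module.finrank L E := by
    have h1 : IntermediateField.adjoin L {θ j 1} ≤ E := by
      rw [IntermediateField.adjoin_le_iff]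
      simpa using hθE
    have h2 := IntermediateField.finrank_dvd_of_le_right h1
    have h3 := Nat.le_of_dvd Module.finrank_pos h2
    omega
  have hcard : Fintype.card (E →ₐ[L] Ω) = Module.finrank L E := AlgHom.card L E Ω
  obtain ⟨σ⟩ : Nonempty (Fin N ↪ (E →ₐ[L] Ω)) := by
    apply Function.Embedding.nonempty_of_card_le
    rw [Fintype.card_fin, hcard]
    exact hdE
  have hIAC : IsAlgClosure L Ω := ⟨inferInstance, inferInstance⟩
  have hnorm : Normal L Ω := IsAlgClosure.normal L Ω
  let P : Fin N → Fin (N + 1) → Ω := fun c i => σ c ⟨ũ i, hũE i⟩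
  have hPτ : ∀ c i, P c i = (σ c).liftNormal Ω (ũ i) := by
    intro c i
    exact ((σ c).liftNormal_commutes Ω ⟨ũ i, hũE i⟩).symm
  have hPF : ∀ c i, P c i ∈ F := by
    intro c i
    rw [hPτ]
    simp only [ũ]
    rw [map_mul, map_inv₀]
    exact F.mul_mem (F.inv_mem (hesF _ _)) (hesF _ _)
  have hP0 : ∀ c, P c t0 = 1 := by
    intro c
    rw [hPτ]
    simp only [ũ]
    rw [inv_mul_cancel₀ ht0, map_one]
  have hPinj : Function.Injective P := by
    intro c c' hcc
    apply σ.injective
    apply IntermediateField.adjoin_algHom_ext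
    rintro _ ⟨i, rfl⟩
    exact congrFun hcc i
  have hev := ev_linInd (q := s) hN P t0 hP0 hPinj
  have hevF : ∀ c μ, ev s (P c) μ ∈ F := fun c μ => F.prod_mem fun i _ => F.pow_mem (hPF c i) _
  have hli : LinearIndependent F (fun c => (fun μ => (⟨ev s (P c) μ, hevF c μ⟩ : F))) := by
    rw [Fintype.linearIndependent_iff] at hev ⊢
    intro gg hgg c
    have h1 := hev (fun c => (gg c : Ω)) (by
      funext μ
      have h2 := congrArg (fun f => ((f μ : F) : Ω)) hgg
      simp only [Finset.sum_apply, Pi.smul_apply, smul_eq_mul, Pi.zero_apply] at h2 ⊢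
      push_cast at h2
      exact h2) c
    exact Subtype.ext h1
  have hfin := count1 h hh T hT y hTF (fun c μ => (⟨ev s (P c) μ, hevF c μ⟩ : F)) hli (by
    intro c
    have h1 : eval₂ ((algebraMap L Ω).comp φL) (P c) (tp (Fin (N + 1)) κ s h) = 0 := by
      have h2 : aeval (es θ) (tp (Fin (N + 1)) κ s h) = 0 := hH
      have h3 : aeval ũ (tp (Fin (N + 1)) κ s h) = 0 := by
        have h4 := aeval_scale (es θ) (es θ t0)⁻¹ (tp_hom s h)
        rw [h2, mul_zero] at h4
        exact h4
      have h5 := congrArg ((σ c).liftNormal Ω) h3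
      rw [map_zero] at h5
      have h6 : (((σ c).liftNormal Ω).toRingHom.comp
          (eval₂Hom ((algebraMap L Ω).comp φL) ũ)) = eval₂Hom ((algebraMap L Ω).comp φL) (P c) := by
        apply MvPolynomial.ringHom_ext
        · intro b
          simp only [RingHom.comp_apply, coe_eval₂Hom, eval₂_C]
          exact ((σ c).liftNormal Ω).commutes (φL b)
        · intro i
          simp only [RingHom.comp_apply, coe_eval₂Hom, eval₂_X]
          exact (hPτ c i).symm
      have h7 := RingHom.congr_fun h6 (tp (Fin (N + 1)) κ s h)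
      simp only [RingHom.comp_apply, coe_eval₂Hom] at h7
      rw [← h7]
      exact h5
    rw [← eval_map, map_tp, eval_eq_ev s (P c) _ (tp_hom s _)] at h1
    rw [← h1]
    refine Finset.sum_congr rfl fun μ _ => ?_
    rw [coeff_tp, dif_pos μ.2, mul_comm]
    rfl)
  rw [hYcard] at hfin
  omega

end Pool.Agent.Helper14C
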