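import Mathlib
import Pool.Agent.Helper14C.Pts

/-!
# Divisibility of the degrees of points, and specialisation
-/

set_option autoImplicit false
set_option linter.unusedSectionVars false

open MvPolynomial

namespace Pool.Agent.Helper14C

open Pool.Agent.TH922.KC

/-- every common zero `z ≠ 0` of `S` over a finite extension `L` of `K` has `Q ∣ M [L : K]` -/
def Idx (K : Type) [Field K] {X : Type} (S : Set (MvPolynomial X K)) (Q M : ℕ) : Prop :=
  ∀ (L : Type) [Field L] [Algebra K L] [FiniteDimensional K L] (z : X → L), z ≠ 0 →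
    (∀ f ∈ S, aeval z f = 0) → Q ∣ M * Module.finrank K L

/-- ideals of bounded Hilbert function containing `S` -/
theorem Idx.ideal {K : Type} [Field K] {X : Type} [Finite X] {S : Set (MvPolynomial X K)}
    {Q M : ℕ} (h : Idx K S Q M) (J : Ideal (MvPolynomial X K)) (hJ : IsHom J) (hS : S ⊆ J)
    (hb : ∃ C : ℕ, ∀ t, hf J t ≤ C) : ∃ T : ℕ, ∀ t ≥ T, Q ∣ M * hf J t := by
  refine div_of_prime0 Q M (Ideal.span S) ?_ J hJ (Ideal.span_le.mpr hS) hb
  intro P hP hPp hFP hPb
  by_cases hall : ∀ x : X, (MvPolynomial.X x : MvPolynomial X K) ∈ P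
  · refine ⟨1, fun t ht => ?_⟩
    obtain ⟨s, rfl⟩ := Nat.exists_eq_add_of_le' ht
    rw [hf_all hall]
    simp
  · push Not at hall
    obtain ⟨x0, hx0⟩ := hall
    obtain ⟨L, _, _, hfd, z, hz, hPz, t0, ht0⟩ := pt_of_prime P hP hPp hPb x0 hx0
    refine ⟨t0, fun t ht => ?_⟩
    rw [ht0 t ht]
    exact h L z hz fun f hf => hPz f (hFP (Ideal.subset_span hf))

/-- **Specialisation.** -/
theorem idx_spec {K : Type} [Field K] (B : ValuationSubring K) {X : Type} [Finite X]
    (SB : Set (MvPolynomial X B)) (hS : ∀ g ∈ SB, ∃ d : ℕ, g.IsHomogeneous d) (Q M : ℕ)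
    (h : Idx (IsLocalRing.ResidueField B) ((MvPolynomial.map (IsLocalRing.residue B)) '' SB) Q M) :
    Idx K ((MvPolynomial.map B.subtype) '' SB) Q M := by
  intro L _ _ _ z hz hSz
  obtain ⟨I, hI, hI2, e, ⟨t0, he⟩, hdvd⟩ := pt_ideal (K := K) z hz
  obtain ⟨T, hT⟩ := h.ideal (red B I) (red_hom B hI) (by
    rintro _ ⟨g, hg, rfl⟩
    change _ ∈ red B I
    rw [mem_red]
    obtain ⟨d, hd⟩ := hS g hg
    refine ⟨g, ?_, rfl⟩
    exact hI2 _ d (hd.map _) (hSz _ ⟨g, hg, rfl⟩)) (by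
    obtain ⟨C, hC⟩ : ∃ C : ℕ, ∀ t, hf I t ≤ C := by
      refine ⟨e + ∑ s ∈ Finset.range t0, hf I s, fun t => ?_⟩
      by_cases ht : t0 ≤ t
      · rw [he t ht]; omega
      · have h1 : hf I t ≤ ∑ s ∈ Finset.range t0, hf I s :=
          Finset.single_le_sum (f := fun s => hf I s) (fun _ _ => Nat.zero_le _)
            (Finset.mem_range.mpr (not_le.mp ht))
        omega
    exact ⟨C, fun t => by rw [red_hf B hI]; exact hC t⟩)
  have h1 := hT (max T t0) (le_max_left _ _)
  rw [red_hf B hI, he _ (le_max_right _ _)] at h1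
  exact h1.trans (Nat.mul_dvd_mul_left M hdvd)

end Pool.Agent.Helper14C
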