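import Mathlib
import Pool.Agent.Helper14C.Red

/-!
# Gauss extensions of valuation rings, and specialisation over `κ(T)`
-/

set_option autoImplicit false
set_option linter.unusedSectionVars false

open Polynomial

namespace Pool.Agent.Helper14C

open Pool.Agent.TH922.KC

theorem Idx.equiv {K K' : Type} [Field K] [Field K'] (e : K ≃+* K') {X : Type}
    {S : Set (MvPolynomial X K)} {Q M : ℕ} (h : Idx K S Q M) :
    Idx K' ((MvPolynomial.map (e : K →+* K')) '' S) Q M := by
  intro L _ _ _ z hz hSz
  let _ : Algebra K L := ((algebraMap K' L).comp (e : K →+* K')).toAlgebra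
  have hfr : Module.finrank K L = Module.finrank K' L :=
    Algebra.finrank_eq_of_equiv_equiv e (RingEquiv.refl L) (by ext; rfl)
  have hfd : FiniteDimensional K L := by
    apply Module.finite_of_finrank_pos
    rw [hfr]
    exact Module.finrank_pos
  rw [← hfr]
  refine h L z hz fun f hf => ?_
  have h1 := hSz _ ⟨f, hf, rfl⟩
  rw [MvPolynomial.aeval_def, MvPolynomial.eval₂_map] at h1
  exact h1

section

variable {κ : Type} [Field κ] (B : ValuationSubring κ)

/-- `B[T] → κ(T)` -/
noncomputable def bet : B[X] →+* FractionRing κ[X] :=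
  (algebraMap κ[X] (FractionRing κ[X])).comp (mapRingHom B.subtype)

/-- `B[T] → k[T]` -/
noncomputable def pii : B[X] →+* (IsLocalRing.ResidueField B)[X] :=
  mapRingHom (IsLocalRing.residue B)

lemma bet_inj : Function.Injective (bet B) :=
  (IsFractionRing.injective κ[X] (FractionRing κ[X])).comp
    (Polynomial.map_injective _ Subtype.val_injective)

lemma content {f : κ[X]} (hf : f ≠ 0) :
    ∃ (c : κ) (f' : B[X]), c ≠ 0 ∧ f = C c * f'.map B.subtype ∧ pii B f' ≠ 0 := by
  classical
  obtain ⟨i0, hi0, hmax⟩ := Finset.exists_max_image f.support (fun i => B.valuation (f.coeff i))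
    (Polynomial.support_nonempty.mpr hf)
  have hc : f.coeff i0 ≠ 0 := Polynomial.mem_support_iff.mp hi0
  set c := f.coeff i0 with hcd
  have hle : ∀ i, c⁻¹ * f.coeff i ∈ B := by
    intro i
    rw [← ValuationSubring.valuation_le_one_iff, map_mul, map_inv₀]
    have h1 : B.valuation (f.coeff i) ≤ B.valuation c := by
      by_cases hi : i ∈ f.support
      · exact hmax i hi
      · rw [Polynomial.notMem_support_iff.mp hi, map_zero]
        exact zero_le
    have hc' : B.valuation c ≠ 0 := (Valuation.ne_zero_iff _).mpr hc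
    calc (B.valuation c)⁻¹ * B.valuation (f.coeff i) ≤ (B.valuation c)⁻¹ * B.valuation c :=
          mul_le_mul_right h1 _
      _ = 1 := inv_mul_cancel₀ hc'
  have hl : (C c⁻¹ * f) ∈ lifts B.subtype := by
    rw [lifts_iff_coeff_lifts]
    intro n
    rw [coeff_C_mul]
    exact ⟨⟨_, hle n⟩, rfl⟩
  obtain ⟨f', hf'⟩ := (mem_lifts _).mp hl
  refine ⟨c, f', hc, ?_, ?_⟩
  · rw [hf', ← mul_assoc, ← C_mul, mul_inv_cancel₀ hc, C_1, one_mul]
  · intro h0
    have h1 := congrArg (fun p => coeff p i0) h0
    simp only [pii, coe_mapRingHom, coeff_map, coeff_zero] at h1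
    have h2 : f'.coeff i0 = 1 := by
      apply Subtype.ext
      have h3 := congrArg (fun p => coeff p i0) hf'
      simp only [coeff_map, coeff_C_mul] at h3
      have h4 : B.subtype (f'.coeff i0) = 1 := by
        rw [h3]; exact inv_mul_cancel₀ hc
      exact h4
    rw [h2, map_one] at h1
    exact one_ne_zero h1

/-- the Gauss extension, as a subring -/
noncomputable def gsub : Subring (FractionRing κ[X]) where
  carrier := {x | ∃ f g : B[X], pii B g ≠ 0 ∧ x * bet B g = bet B f}
  mul_mem' := by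
    rintro x y ⟨f, g, hg, h⟩ ⟨f', g', hg', h'⟩
    refine ⟨f * f', g * g', ?_, ?_⟩
    · rw [map_mul]; exact mul_ne_zero hg hg'
    · rw [map_mul, map_mul, ← h, ← h']; ring
  one_mem' := ⟨1, 1, by rw [map_one]; exact one_ne_zero, by rw [map_one, one_mul]⟩
  add_mem' := by
    rintro x y ⟨f, g, hg, h⟩ ⟨f', g', hg', h'⟩
    refine ⟨f * g' + f' * g, g * g', ?_, ?_⟩
    · rw [map_mul]; exact mul_ne_zero hg hg'
    · rw [map_mul, map_add, map_mul, map_mul, ← h, ← h']; ring
  zero_mem' := ⟨0, 1, by rw [map_one]; exact one_ne_zero, by rw [map_zero, zero_mul]⟩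
  neg_mem' := by
    rintro x ⟨f, g, hg, h⟩
    exact ⟨-f, g, hg, by rw [map_neg, ← h]; ring⟩

lemma mem_gsub {x : FractionRing κ[X]} :
    x ∈ gsub B ↔ ∃ f g : B[X], pii B g ≠ 0 ∧ x * bet B g = bet B f := Iff.rfl

lemma bet_C (c : B) : bet B (C c) = algebraMap κ[X] (FractionRing κ[X]) (C (c : κ)) := by
  simp [bet]

/-- the Gauss extension -/
noncomputable def gval : ValuationSubring (FractionRing κ[X]) :=
  ValuationSubring.ofSubring (gsub B) (by
    intro x
    by_cases hx : x = 0
    · left; rw [hx]; exact (gsub B).zero_mem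
    obtain ⟨f, g, hg, hfg⟩ := IsFractionRing.div_surjective (A := κ[X]) x
    have hg0 : g ≠ 0 := nonZeroDivisors.ne_zero hg
    have hf0 : f ≠ 0 := by
      rintro rfl
      apply hx
      rw [← hfg, map_zero, zero_div]
    obtain ⟨c, f', hc, hf', hpf⟩ := content B hf0
    obtain ⟨c', g', hc', hg', hpg⟩ := content B hg0
    have e1 : algebraMap κ[X] (FractionRing κ[X]) f
        = algebraMap κ[X] (FractionRing κ[X]) (C c) * bet B f' := by
      rw [hf', map_mul]; rfl
    have e2 : algebraMap κ[X] (FractionRing κ[X]) g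
        = algebraMap κ[X] (FractionRing κ[X]) (C c') * bet B g' := by
      rw [hg', map_mul]; rfl
    have inj := IsFractionRing.injective κ[X] (FractionRing κ[X])
    have hC : ∀ a : κ, a ≠ 0 → algebraMap κ[X] (FractionRing κ[X]) (C a) ≠ 0 := fun a ha => by
      rw [Ne, map_eq_zero_iff _ inj, C_eq_zero]; exact ha
    have hb : ∀ u : B[X], pii B u ≠ 0 → bet B u ≠ 0 := fun u hu => by
      rw [Ne, map_eq_zero_iff _ (bet_inj B)]
      rintro rfl
      exact hu (map_zero _)
    rcases B.mem_or_inv_mem (c / c') with h | h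
    · left
      refine ⟨C ⟨c / c', h⟩ * f', g', hpg, ?_⟩
      rw [map_mul, bet_C, ← hfg, e1, e2]
      have e3 : algebraMap κ[X] (FractionRing κ[X]) (C (c / c'))
          = algebraMap κ[X] (FractionRing κ[X]) (C c) / algebraMap κ[X] (FractionRing κ[X]) (C c') := by
        rw [eq_div_iff (hC c' hc'), ← map_mul, ← C_mul, div_mul_cancel₀ _ hc']
      change _ = algebraMap κ[X] (FractionRing κ[X]) (C (c / c')) * bet B f'
      rw [e3]
      have := hC c' hc'
      have := hb g' hpg
      field_simp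
    · right
      refine ⟨C ⟨(c / c')⁻¹, h⟩ * g', f', hpf, ?_⟩
      rw [map_mul, bet_C, ← hfg, e1, e2]
      have e3 : algebraMap κ[X] (FractionRing κ[X]) (C (c / c')⁻¹)
          = algebraMap κ[X] (FractionRing κ[X]) (C c') / algebraMap κ[X] (FractionRing κ[X]) (C c) := by
        rw [eq_div_iff (hC c hc), ← map_mul, ← C_mul, inv_div, div_mul_cancel₀ _ hc]
      change _ = algebraMap κ[X] (FractionRing κ[X]) (C (c / c')⁻¹) * bet B g'
      rw [e3]
      have := hC c' hc'
      have := hC c hc
      have := hb g' hpg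
      have := hb f' hpf
      field_simp)

lemma mem_gval {x : FractionRing κ[X]} :
    x ∈ gval B ↔ ∃ f g : B[X], pii B g ≠ 0 ∧ x * bet B g = bet B f := Iff.rfl

lemma bet_mem (f : B[X]) : bet B f ∈ gval B :=
  (mem_gval B).mpr ⟨f, 1, by rw [map_one]; exact one_ne_zero, by rw [map_one, mul_one]⟩

/-- `B[T] → B'` -/
noncomputable def bet' : B[X] →+* gval B :=
  (bet B).codRestrict (gval B).toSubring (bet_mem B)

lemma residue_bet' (f : B[X]) :
    IsLocalRing.residue (gval B) (bet' B f) = 0 ↔ pii B f = 0 := by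
  rw [IsLocalRing.residue_eq_zero_iff, IsLocalRing.mem_maximalIdeal, mem_nonunits_iff]
  constructor
  · intro h
    by_contra hne
    apply h
    have hb : bet B f ≠ 0 := by
      rw [Ne, map_eq_zero_iff _ (bet_inj B)]
      rintro rfl
      exact hne (map_zero _)
    have h1 : (bet B f)⁻¹ ∈ gval B := by
      rw [mem_gval]
      exact ⟨1, f, hne, by rw [map_one]; exact inv_mul_cancel₀ hb⟩
    refine IsUnit.of_mul_eq_one (⟨_, h1⟩ : gval B) ?_
    apply Subtype.ext
    exact mul_inv_cancel₀ hb
  · intro h hu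
    obtain ⟨v, hv⟩ := hu.exists_right_inv
    obtain ⟨u, g, hg, hug⟩ := (mem_gval B).mp v.2
    have h1 : bet B f * (v : FractionRing κ[X]) = 1 := congrArg Subtype.val hv
    have h2 : bet B g = bet B (f * u) := by
      rw [map_mul, ← hug, ← mul_assoc, h1, one_mul]
    have h3 := bet_inj B h2
    apply hg
    rw [h3, map_mul, h, zero_mul]

/-- **Gauss extension.** -/
theorem gauss : ∃ e : FractionRing (IsLocalRing.ResidueField B)[X] ≃+* IsLocalRing.ResidueField (gval B),
    ∀ f : B[X], e (algebraMap _ _ (pii B f)) = IsLocalRing.residue (gval B) (bet' B f) := by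
  have hsurj : Function.Surjective (pii B) :=
    Polynomial.map_surjective _ IsLocalRing.residue_surjective
  let ρ : B[X] →+* IsLocalRing.ResidueField (gval B) :=
    (IsLocalRing.residue (gval B)).comp (bet' B)
  have hker : RingHom.ker (pii B) ≤ RingHom.ker ρ := by
    intro f hf
    rw [RingHom.mem_ker] at hf ⊢
    exact (residue_bet' B f).mpr hf
  let j : (IsLocalRing.ResidueField B)[X] →+* IsLocalRing.ResidueField (gval B) :=
    RingHom.liftOfSurjective (pii B) hsurj ⟨ρ, hker⟩
  have hj : ∀ f : B[X], j (pii B f) = IsLocalRing.residue (gval B) (bet' B f) := by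
    intro f
    exact RingHom.liftOfRightInverse_comp_apply (pii B) _ (Function.rightInverse_surjInv hsurj)
      ⟨ρ, hker⟩ f
  have hjinj : Function.Injective j := by
    rw [injective_iff_map_eq_zero]
    intro p hp
    obtain ⟨f, rfl⟩ := hsurj p
    rw [hj] at hp
    exact (residue_bet' B f).mp hp
  let _ : Algebra (IsLocalRing.ResidueField B)[X] (IsLocalRing.ResidueField (gval B)) := j.toAlgebra
  have hfs : FaithfulSMul (IsLocalRing.ResidueField B)[X] (IsLocalRing.ResidueField (gval B)) :=
    (faithfulSMul_iff_algebraMap_injective _ _).mpr hjinj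
  have hfrac : IsFractionRing (IsLocalRing.ResidueField B)[X] (IsLocalRing.ResidueField (gval B)) := by
    apply IsFractionRing.of_field
    intro z
    obtain ⟨x, rfl⟩ := IsLocalRing.residue_surjective z
    obtain ⟨f, g, hg, hx⟩ := (mem_gval B).mp x.2
    refine ⟨pii B f, pii B g, ?_⟩
    change _ = j _ / j _
    rw [hj, hj]
    have h0 : IsLocalRing.residue (gval B) (bet' B g) ≠ 0 := fun h => hg ((residue_bet' B g).mp h)
    rw [eq_div_iff h0, ← map_mul]
    congr 1
    exact Subtype.ext hx
  refine ⟨(FractionRing.algEquiv (IsLocalRing.ResidueField B)[X]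
    (IsLocalRing.ResidueField (gval B))).toRingEquiv, fun f => ?_⟩
  rw [← hj]
  exact (FractionRing.algEquiv (IsLocalRing.ResidueField B)[X]
    (IsLocalRing.ResidueField (gval B))).commutes (pii B f)

/-- **Specialisation over `κ(T)`.** -/
theorem idx_gauss {X : Type} [Finite X] (SB : Set (MvPolynomial X B[X]))
    (hS : ∀ g ∈ SB, ∃ d : ℕ, g.IsHomogeneous d) (Q M : ℕ)
    (h : Idx (FractionRing (IsLocalRing.ResidueField B)[X])
      ((MvPolynomial.map ((algebraMap (IsLocalRing.ResidueField B)[X]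
        (FractionRing (IsLocalRing.ResidueField B)[X])).comp (pii B))) '' SB) Q M) :
    Idx (FractionRing κ[X]) ((MvPolynomial.map (bet B)) '' SB) Q M := by
  obtain ⟨e, he⟩ := gauss B
  have h1 := idx_spec (gval B) ((MvPolynomial.map (bet' B)) '' SB) (by
    rintro _ ⟨g, hg, rfl⟩
    obtain ⟨d, hd⟩ := hS g hg
    exact ⟨d, hd.map _⟩) Q M (by
    have h2 := h.equiv e
    rw [Set.image_image] at h2 ⊢
    have h3 : (IsLocalRing.residue (gval B)).comp (bet' B)
        = (e : FractionRing (IsLocalRing.ResidueField B)[X] →+* _).comp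
          ((algebraMap (IsLocalRing.ResidueField B)[X] _).comp (pii B)) :=
      RingHom.ext fun f => (he f).symm
    convert h2 using 2
    ext1 g
    rw [MvPolynomial.map_map, MvPolynomial.map_map, h3])
  rw [Set.image_image] at h1
  convert h1 using 2
  ext1 g
  rw [MvPolynomial.map_map]
  rfl

end

/-- **Specialisation of independent elements.** -/
theorem specialise' {κ : Type} [Field κ] {k0 : Type} [Field k0] [Algebra k0 κ] {ι : Type}
    (c : ι → κ) (hc : AlgebraicIndependent k0 c) (c0 : ι → k0) :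
    ∃ (B : ValuationSubring κ) (hk : ∀ y : k0, algebraMap k0 κ y ∈ B) (hcB : ∀ x, c x ∈ B),
      ∀ x, IsLocalRing.residue B ⟨c x, hcB x⟩
        = IsLocalRing.residue B ⟨algebraMap k0 κ (c0 x), hk _⟩ := by
  classical
  let S := Algebra.adjoin k0 (Set.range c)
  let ψ : S →ₐ[k0] k0 := (MvPolynomial.aeval c0).comp (hc.repr : S →ₐ[k0] MvPolynomial _ k0)
  have hψa : ∀ x, ψ ⟨c x, Algebra.subset_adjoin (Set.mem_range_self x)⟩ = c0 x := by
    intro x
    have h1 : hc.aevalEquiv (MvPolynomial.X x) = ⟨c x, Algebra.subset_adjoin (Set.mem_range_self x)⟩ := by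
      apply Subtype.ext
      have := hc.algebraMap_aevalEquiv (MvPolynomial.X x)
      rw [MvPolynomial.aeval_X] at this
      exact this
    have h2 : hc.repr ⟨c x, Algebra.subset_adjoin (Set.mem_range_self x)⟩ = MvPolynomial.X x := by
      rw [← h1]
      exact hc.aevalEquiv.symm_apply_apply (MvPolynomial.X x)
    change MvPolynomial.aeval c0 (hc.repr _) = _
    rw [h2, MvPolynomial.aeval_X]
  let A : Subring κ := S.toSubring
  let ψ' : A →+* k0 := (ψ : S →+* k0)
  have hker : RingHom.ker ψ' ≠ ⊤ := RingHom.ker_ne_top ψ'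
  obtain ⟨B, hAB, hB⟩ := Ideal.image_subset_nonunits_valuationSubring (RingHom.ker ψ') hker
  have haA : ∀ x, c x ∈ A := fun x => Algebra.subset_adjoin (Set.mem_range_self x)
  have hKA : ∀ y : k0, algebraMap k0 κ y ∈ A := fun y => S.algebraMap_mem y
  refine ⟨B, fun y => hAB (hKA y), fun x => hAB (haA x), fun x => ?_⟩
  have h1 : (⟨c x - algebraMap k0 κ (c0 x), A.sub_mem (haA x) (hKA _)⟩ : A) ∈ RingHom.ker ψ' := by
    rw [RingHom.mem_ker]
    have e1 : (⟨c x - algebraMap k0 κ (c0 x), A.sub_mem (haA x) (hKA _)⟩ : A)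
        = (⟨c x, haA x⟩ : A) - ⟨algebraMap k0 κ (c0 x), hKA _⟩ := rfl
    rw [e1, map_sub]
    have e2 : ψ' ⟨c x, haA x⟩ = c0 x := hψa x
    have e3 : ψ' ⟨algebraMap k0 κ (c0 x), hKA _⟩ = c0 x := ψ.commutes (c0 x)
    rw [e2, e3, sub_self]
  have h2 : (c x - algebraMap k0 κ (c0 x)) ∈ B.nonunits := hB ⟨_, h1, rfl⟩
  rw [ValuationSubring.mem_nonunits_iff_exists_mem_maximalIdeal] at h2
  obtain ⟨h3, h4⟩ := h2
  rw [← sub_eq_zero, ← map_sub, IsLocalRing.residue_eq_zero_iff]
  exact h4

end Pool.Agent.Helper14C
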