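import Mathlib
import Pool.Agent.Helper14C.Red

/-!
# The hyperplane section `∑ T ^ i X_i`
-/

set_option autoImplicit false
set_option linter.unusedSectionVars false

open MvPolynomial

namespace Pool.Agent.Helper14C

open Pool.Agent.TH922.KC

/-- the homogeneous prime of a point over an arbitrary extension -/
theorem hom_ideal {K : Type*} [Field K] {X : Type*} [Finite X] {L : Type*} [Field L] [Algebra K L]
    (z : X → L) :
    ∃ I : Ideal (MvPolynomial X K), IsHom I ∧ I.IsPrime ∧
      (∀ (f : MvPolynomial X K) (d : ℕ), f.IsHomogeneous d → (f ∈ I ↔ aeval z f = 0)) ∧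
      ∀ t, hf I t = Module.finrank K (V K z t) := by
  classical
  let Ω := FractionRing (Polynomial L)
  let s : Ω := algebraMap (Polynomial L) Ω Polynomial.X
  let Φ : MvPolynomial X K →ₐ[K] Ω := aeval (fun i => s * algebraMap L Ω (z i))
  have hΦ : ∀ (f : MvPolynomial X K) (d : ℕ), f.IsHomogeneous d →
      Φ f = s ^ d * algebraMap L Ω (aeval z f) := by
    intro f d hfd
    have h1 : Φ f = s ^ d * aeval (fun i => algebraMap L Ω (z i)) f := aeval_scale _ _ hfd
    rw [h1]
    congr 1
    have h2 := aeval_algebraMap_apply (R := K) (A := L) Ω z f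
    exact h2
  have hinj : Function.Injective (algebraMap (Polynomial L) Ω) := IsFractionRing.injective _ _
  have hsum : ∀ (n : ℕ) (a : ℕ → L), ∑ d ∈ Finset.range n, s ^ d * algebraMap L Ω (a d) = 0 →
      ∀ d < n, a d = 0 := by
    intro n a h d hd
    have h1 : algebraMap (Polynomial L) Ω (∑ d ∈ Finset.range n, Polynomial.X ^ d * Polynomial.C (a d))
        = 0 := by
      rw [map_sum, ← h]
      refine Finset.sum_congr rfl fun d _ => ?_
      rw [map_mul, map_pow]
      congr 1
    have h2 := (map_eq_zero_iff _ hinj).mp h1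
    have h3 := congrArg (fun p => Polynomial.coeff p d) h2
    simp only [Polynomial.finsetSum_coeff, Polynomial.coeff_zero] at h3
    rw [Finset.sum_eq_single d] at h3
    · simpa [Polynomial.coeff_X_pow] using h3
    · intro b _ hb
      rw [Polynomial.coeff_X_pow_mul', ]
      split_ifs with hle
      · rw [Polynomial.coeff_C, if_neg (by omega)]
      · rfl
    · intro h; exact absurd (Finset.mem_range.mpr hd) h
  have hs0 : s ≠ 0 := by
    intro h
    exact Polynomial.X_ne_zero ((map_eq_zero_iff _ hinj).mp h)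
  refine ⟨RingHom.ker Φ, ?_, RingHom.ker_isPrime _, ?_, ?_⟩
  · intro p hp k
    rw [RingHom.mem_ker] at hp ⊢
    rw [← p.sum_homogeneousComponent, map_sum] at hp
    have h1 : ∑ d ∈ Finset.range (p.totalDegree + 1),
        s ^ d * algebraMap L Ω (aeval z (homogeneousComponent d p)) = 0 := by
      rw [← hp]
      exact Finset.sum_congr rfl fun d _ => (hΦ _ d (homogeneousComponent_isHomogeneous d p)).symm
    rw [hΦ _ k (homogeneousComponent_isHomogeneous k p)]
    by_cases hk : k < p.totalDegree + 1
    · rw [hsum _ _ h1 k hk, map_zero, mul_zero]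
    · rw [homogeneousComponent_eq_zero _ _ (by omega), map_zero, map_zero, mul_zero]
  · intro f d hfd
    rw [RingHom.mem_ker, hΦ f d hfd, mul_eq_zero, or_iff_right (pow_ne_zero _ hs0), map_eq_zero]
  · intro t
    rw [hf_ker]
    let ι : L →ₗ[K] Ω := (LinearMap.mulLeft K (s ^ t)).comp
      ((Algebra.ofId L Ω).restrictScalars K).toLinearMap
    have hι : Function.Injective ι := by
      intro a b hab
      have h1 : s ^ t * algebraMap L Ω a = s ^ t * algebraMap L Ω b := hab
      exact (algebraMap L Ω).injective (mul_left_cancel₀ (pow_ne_zero t hs0) h1)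
    have e : (homogeneousSubmodule X K t).map Φ.toLinearMap = (V K z t).map ι := by
      unfold V
      rw [← Submodule.map_comp]
      apply le_antisymm
      · rintro _ ⟨p, hp, rfl⟩
        exact ⟨p, hp, (hΦ p t hp).symm⟩
      · rintro _ ⟨p, hp, rfl⟩
        exact ⟨p, hp, hΦ p t hp⟩
    rw [e]
    exact (Submodule.equivMapOfInjective ι hι _).finrank_eq.symm

/-- the section by the hyperplane of the polynomials vanishing at `T` -/
noncomputable def UT (R : Type*) [CommRing R] (T : R) (n : ℕ) : MvPolynomial (Fin n) R :=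
  ∑ i : Fin n, C (T ^ (i : ℕ)) * MvPolynomial.X i

lemma UT_hom (R : Type*) [CommRing R] (T : R) (n : ℕ) : (UT R T n).IsHomogeneous 1 := by
  refine IsHomogeneous.sum _ _ _ fun i _ => ?_
  exact isHomogeneous_C_mul_X _ _

section

variable {κ : Type} [Field κ] {n : ℕ} (P : Ideal (MvPolynomial (Fin n) κ))

/-- extension of scalars to `κ(T)` -/
theorem ext_scalars (hP : IsHom P) (hp : P.IsPrime) (x0 : Fin n)
    (hx0 : (MvPolynomial.X x0 : MvPolynomial (Fin n) κ) ∉ P) :
    ∃ I : Ideal (MvPolynomial (Fin n) (FractionRing (Polynomial κ))), IsHom I ∧ I.IsPrime ∧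
      (∀ t, hf I t = hf P t) ∧
      (∀ f ∈ P, MvPolynomial.map (algebraMap κ (FractionRing (Polynomial κ))) f ∈ I) ∧
      UT (FractionRing (Polynomial κ)) (algebraMap (Polynomial κ) _ Polynomial.X) n ∉ I := by
  classical
  set K := FractionRing (Polynomial κ) with hK
  let Ω0 := FractionRing (MvPolynomial (Fin n) κ ⧸ P)
  let u : Fin n → Ω0 := fun i => algebraMap (MvPolynomial (Fin n) κ ⧸ P) Ω0
    (Ideal.Quotient.mk P (MvPolynomial.X i))
  have hau : ∀ f : MvPolynomial (Fin n) κ, aeval u f = algebraMap (MvPolynomial (Fin n) κ ⧸ P) Ω0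
      (Ideal.Quotient.mk P f) := by
    intro f
    have h1 : (aeval u : MvPolynomial (Fin n) κ →ₐ[κ] Ω0)
        = (IsScalarTower.toAlgHom κ (MvPolynomial (Fin n) κ ⧸ P) Ω0).comp (Ideal.Quotient.mkₐ κ P) := by
      ext i
      simp [u]
    rw [h1]
    rfl
  have hker : RingHom.ker (aeval u : MvPolynomial (Fin n) κ →ₐ[κ] Ω0) = P := by
    ext p
    rw [RingHom.mem_ker, hau,
      map_eq_zero_iff _ (IsFractionRing.injective (MvPolynomial (Fin n) κ ⧸ P) Ω0),
      Ideal.Quotient.eq_zero_iff_mem]
  have hux : u x0 ≠ 0 := by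
    intro h
    apply hx0
    rw [← hker, RingHom.mem_ker, aeval_X]
    exact h
  let Ω := FractionRing (Polynomial Ω0)
  have hinj : Function.Injective (algebraMap (Polynomial Ω0) Ω) := IsFractionRing.injective _ _
  let g : Polynomial κ →+* Ω := (algebraMap (Polynomial Ω0) Ω).comp
    (Polynomial.mapRingHom (algebraMap κ Ω0))
  have hg : Function.Injective g := hinj.comp (Polynomial.map_injective _ (algebraMap κ Ω0).injective)
  let ψ : K →+* Ω := IsFractionRing.lift hg
  have hψ : ∀ f, ψ (algebraMap _ K f) = g f := fun f => IsFractionRing.lift_algebraMap hg f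
  let _ : Algebra K Ω := ψ.toAlgebra
  let _ : Algebra (Polynomial κ) Ω := g.toAlgebra
  have : IsScalarTower (Polynomial κ) K Ω := IsScalarTower.of_algebraMap_eq fun f => (hψ f).symm
  let z : Fin n → Ω := fun i => algebraMap Ω0 Ω (u i)
  have hκ : ∀ a : κ, ψ (algebraMap κ K a) = algebraMap Ω0 Ω (algebraMap κ Ω0 a) := by
    intro a
    have h1 : algebraMap κ K a = algebraMap (Polynomial κ) K (Polynomial.C a) :=
      IsScalarTower.algebraMap_apply κ (Polynomial κ) K a
    rw [h1, hψ]
    simp only [g, RingHom.comp_apply, Polynomial.coe_mapRingHom, Polynomial.map_C]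
    rfl
  have haz : ∀ f : MvPolynomial (Fin n) κ, aeval z (MvPolynomial.map (algebraMap κ K) f)
      = algebraMap Ω0 Ω (aeval u f) := by
    intro f
    induction f using MvPolynomial.induction_on with
    | C a =>
      rw [map_C, aeval_C, aeval_C]
      exact hκ a
    | add p q hp hq => rw [map_add, map_add, map_add, map_add, hp, hq]
    | mul_X p i h =>
      rw [map_mul, map_mul, map_X, aeval_X, h, map_mul, map_mul, aeval_X]
  obtain ⟨I, hI, hIp, hImem, hIhf⟩ := hom_ideal (K := K) z
  refine ⟨I, hI, hIp, ?_, ?_, ?_⟩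
  · intro t
    rw [hIhf]
    have h1 : hf P t = Module.finrank κ (V κ u t) := by
      conv_lhs => rw [← hker, hf_ker]
      rfl
    rw [h1]
    let b := Module.finBasis κ (V κ u t)
    have hspan : V K z t = Submodule.span K (Set.range fun i => algebraMap Ω0 Ω (b i : Ω0)) := by
      apply le_antisymm
      · rintro _ ⟨p, hp, rfl⟩
        have hp' : p.IsHomogeneous t := hp
        change aeval z p ∈ _
        have hs : aeval z p = ∑ μ ∈ p.support, p.coeff μ • aeval z (monomial μ (1 : K)) := by
          conv_lhs => rw [p.as_sum, map_sum]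
          refine Finset.sum_congr rfl fun μ _ => ?_
          rw [← map_smul, smul_monomial, smul_eq_mul, mul_one]
        rw [hs]
        refine Submodule.sum_mem _ fun μ hμ => Submodule.smul_mem _ _ ?_
        have hdeg : μ.degree = t := by
          by_contra hne
          exact (mem_support_iff.mp hμ) (hp'.coeff_eq_zero hne)
        have h2 : (monomial μ (1 : K)) = MvPolynomial.map (algebraMap κ K) (monomial μ (1 : κ)) := by
          rw [map_monomial, (algebraMap κ K).map_one]
        rw [h2, haz]
        have h3 : aeval u (monomial μ (1 : κ)) ∈ V κ u t :=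
          ⟨_, isHomogeneous_monomial _ hdeg, rfl⟩
        have h4 := b.sum_repr ⟨_, h3⟩
        have h5 := congrArg (fun w : V κ u t => algebraMap Ω0 Ω (w : Ω0)) h4
        simp only at h5
        rw [← h5, Submodule.coe_sum, map_sum]
        refine Submodule.sum_mem _ fun i _ => ?_
        rw [Submodule.coe_smul, Algebra.smul_def, map_mul, ← hκ]
        exact Submodule.smul_mem (Submodule.span K (Set.range fun i => algebraMap Ω0 Ω (b i : Ω0)))
          (algebraMap κ K ((b.repr ⟨_, h3⟩) i)) (Submodule.subset_span ⟨i, rfl⟩)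
      · rw [Submodule.span_le]
        rintro _ ⟨i, rfl⟩
        obtain ⟨p, hp, hp'⟩ := (b i).2
        refine ⟨MvPolynomial.map (algebraMap κ K) p, ?_, ?_⟩
        · exact IsHomogeneous.map (φ := p) (n := t) hp _
        · have h2 : aeval u p = (b i : Ω0) := hp'
          change aeval z _ = _
          rw [haz, h2]
    have hli : LinearIndependent K (fun i => algebraMap Ω0 Ω (b i : Ω0)) := by
      rw [← LinearIndependent.iff_fractionRing (Polynomial κ) K]
      rw [Fintype.linearIndependent_iff]
      intro f hf i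
      have h2 : algebraMap (Polynomial Ω0) Ω (∑ i, (f i).map (algebraMap κ Ω0) * Polynomial.C (b i : Ω0))
          = 0 := by
        rw [map_sum, ← hf]
        refine Finset.sum_congr rfl fun i _ => ?_
        rw [map_mul, Algebra.smul_def]
        rfl
      have h3 := (map_eq_zero_iff _ hinj).mp h2
      ext k
      have h4 := congrArg (fun p => Polynomial.coeff p k) h3
      simp only [Polynomial.finsetSum_coeff, Polynomial.coeff_zero, Polynomial.coeff_mul_C,
        Polynomial.coeff_map] at h4
      have h5 : ∑ i, (f i).coeff k • b i = 0 := by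
        apply Subtype.ext
        rw [Submodule.coe_sum]
        rw [Submodule.coe_zero, ← h4]
        refine Finset.sum_congr rfl fun i _ => ?_
        rw [Submodule.coe_smul, Algebra.smul_def]
      have h6 := (Fintype.linearIndependent_iff.mp b.linearIndependent) _ h5 i
      rw [h6, Polynomial.coeff_zero]
    rw [hspan, finrank_span_eq_card hli, Fintype.card_fin]
  · intro f hf
    rw [← f.sum_homogeneousComponent, map_sum]
    refine Submodule.sum_mem _ fun d _ => ?_
    rw [hImem _ d ((homogeneousComponent_isHomogeneous d f).map _), haz]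
    have h1 := hP _ hf d
    rw [← hker, RingHom.mem_ker] at h1
    rw [h1, map_zero]
  · rw [hImem _ 1 (UT_hom _ _ _)]
    intro h
    unfold UT at h
    rw [map_sum] at h
    have h2 : algebraMap (Polynomial Ω0) Ω (∑ i : Fin n, Polynomial.X ^ (i : ℕ) * Polynomial.C (u i))
          = 0 := by
      rw [map_sum, ← h]
      refine Finset.sum_congr rfl fun i _ => ?_
      rw [map_mul, map_mul, aeval_C, aeval_X, map_pow, map_pow]
      congr 1
      congr 1
      change _ = ψ (algebraMap _ K Polynomial.X)
      rw [hψ]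
      simp only [g, RingHom.comp_apply, Polynomial.coe_mapRingHom, Polynomial.map_X]
    have h3 := (map_eq_zero_iff _ hinj).mp h2
    have h4 := congrArg (fun p => Polynomial.coeff p (x0 : ℕ)) h3
    simp only [Polynomial.finsetSum_coeff, Polynomial.coeff_zero] at h4
    rw [Finset.sum_eq_single x0] at h4
    · rw [Polynomial.coeff_X_pow_mul'] at h4
      simp at h4
      exact hux h4
    · intro b _ hb
      rw [Polynomial.coeff_X_pow_mul']
      split_ifs with hle
      · rw [Polynomial.coeff_C, if_neg]
        intro h0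
        apply hb
        exact Fin.ext (by omega)
      · rfl
    · intro h; exact absurd (Finset.mem_univ _) h

end

/-- **Sections.** -/
theorem T_trick {κ : Type} [Field κ] {n : ℕ} (S : Set (MvPolynomial (Fin n) κ)) (Q M : ℕ)
    (h : Idx (FractionRing (Polynomial κ)) (insert
      (UT (FractionRing (Polynomial κ)) (algebraMap (Polynomial κ) _ Polynomial.X) n)
      ((MvPolynomial.map (algebraMap κ (FractionRing (Polynomial κ)))) '' S)) Q M)
    (J : Ideal (MvPolynomial (Fin n) κ)) (hJ : IsHom J) (hS : S ⊆ J)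
    (hgr : ∃ C : ℕ, ∀ t, hf J t ≤ C * (t + 1)) :
    ∃ T : ℕ, ∀ t ≥ T, (Q : ℤ) ∣ (M : ℤ) * ((hf J (t + 1) : ℤ) - hf J t) := by
  refine div_of_prime Q (M : ℤ) (Ideal.span S) ?_ J hJ (Ideal.span_le.mpr hS) hgr
  intro P hP hPp hFP hPgr
  by_cases hall : ∀ x : Fin n, (MvPolynomial.X x : MvPolynomial (Fin n) κ) ∈ P
  · refine ⟨1, fun t ht => ?_⟩
    obtain ⟨s, rfl⟩ := Nat.exists_eq_add_of_le' ht
    rw [hf_all hall, hf_all hall]
    simp
  · push Not at hall
    obtain ⟨x0, hx0⟩ := hall
    obtain ⟨I, hI, hIp, hIhf, hIP, hU⟩ := ext_scalars P hP hPp x0 hx0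
    set U := UT (FractionRing (Polynomial κ)) (algebraMap (Polynomial κ) _ Polynomial.X) n with hUd
    have hU0 : U ≠ 0 := fun h0 => hU (h0 ▸ I.zero_mem)
    have hcol : col I U = I := by
      ext p
      rw [mem_col]
      constructor
      · intro hp
        exact (hIp.mem_or_mem hp).resolve_left hU
      · intro hp
        exact I.mul_mem_left _ hp
    have hex : ∀ t, hf P (t + 1) = hf (I ⊔ Ideal.span {U}) (t + 1) + hf P t := by
      intro t
      have h1 := hf_exact hI (UT_hom _ _ n) hU0 t
      rw [← hUd, hcol, hIhf, hIhf] at h1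
      exact h1
    obtain ⟨K0, e, he⟩ := ev_lin P hP hPgr
    have hev : ∀ t ≥ K0, hf (I ⊔ Ideal.span {U}) (t + 1) = e := by
      intro t ht
      have h1 := hex t
      have h2 := he t ht
      omega
    obtain ⟨T, hT⟩ := h.ideal (I ⊔ Ideal.span {U}) (hI.sup (UT_hom _ _ n)) (by
      rintro _ (rfl | ⟨f, hf, rfl⟩)
      · exact Ideal.mem_sup_right (Ideal.subset_span rfl)
      · exact Ideal.mem_sup_left (hIP f (hFP (Ideal.subset_span hf)))) (by
      refine ⟨e + ∑ s ∈ Finset.range (K0 + 1), hf (I ⊔ Ideal.span {U}) s, fun t => ?_⟩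
      by_cases ht : K0 + 1 ≤ t
      · obtain ⟨s, rfl⟩ := Nat.exists_eq_add_of_le' (show 1 ≤ t by omega)
        rw [hev s (by omega)]
        omega
      · have h1 : hf (I ⊔ Ideal.span {U}) t ≤ ∑ s ∈ Finset.range (K0 + 1),
            hf (I ⊔ Ideal.span {U}) s :=
          Finset.single_le_sum (f := fun s => hf (I ⊔ Ideal.span {U}) s)
            (fun _ _ => Nat.zero_le _) (Finset.mem_range.mpr (not_le.mp ht))
        omega)
    refine ⟨T + K0, fun t ht => ?_⟩
    have h1 := hT (t + 1) (by omega)
    have h2 := hex t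
    have h3 : (hf P (t + 1) : ℤ) - hf P t = hf (I ⊔ Ideal.span {U}) (t + 1) := by
      rw [h2]; push_cast; ring
    rw [h3]
    exact_mod_cast h1

end Pool.Agent.Helper14C
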