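import Mathlib
import Pool.Agent.Helper14C.Sy
import Pool.Agent.Helper14C.Tt
import Pool.Agent.Helper14C.Gauss

/-!
# Points of `(P^1)^N` over finite extensions of `κ(T)`
-/

set_option autoImplicit false
set_option linter.unusedSectionVars false

open MvPolynomial

namespace Pool.Agent.Helper14C

open Pool.Agent.TH922.KC

/-- common zeros of multihomogeneous forms, with one coordinate `T` -/
def PtIdx (K : Type) [Field K] (T : K) {r N : ℕ} (j : Fin N) (m : Fin r → ℕ)
    (c : ∀ i, (Fin N → Fin (m i + 1)) → K) (Q M : ℕ) : Prop :=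
  ∀ (L : Type) [Field L] [Algebra K L] [FiniteDimensional K L] (x : Fin N → Fin 2 → L),
    (∀ k, x k ≠ 0) → x j 1 = algebraMap K L T * x j 0 →
    (∀ i, mfe (m i) (fun a => algebraMap K L (c i a)) x = 0) → Q ∣ M * Module.finrank K L

/-- the equations in Segre coordinates -/
def segS {R : Type} [CommRing R] (T : R) {r N : ℕ} (j : Fin N) (m : Fin r → ℕ)
    (c : ∀ i, (Fin N → Fin (m i + 1)) → R) : Set (MvPolynomial (Fin N → Fin 2) R) :=
  {p | (∃ (f g : Fin N → Fin 2) (k : Fin N),
        X f * X g - X (Function.update f k (g k)) * X (Function.update g k (f k)) = p) ∨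
      (∃ f : Fin N → Fin 2, f j = 0 ∧ C T * X f - X (Function.update f j 1) = p) ∨
      ∃ i, sgp (m i) (c i) = p}

lemma segS_hom {R : Type} [CommRing R] (T : R) {r N : ℕ} (j : Fin N) (m : Fin r → ℕ)
    (c : ∀ i, (Fin N → Fin (m i + 1)) → R) : ∀ p ∈ segS T j m c, ∃ d : ℕ, p.IsHomogeneous d := by
  rintro p (⟨f, g, k, rfl⟩ | ⟨f, -, rfl⟩ | ⟨i, rfl⟩)
  · exact ⟨2, ((isHomogeneous_X R _).mul (isHomogeneous_X R _)).sub
      ((isHomogeneous_X R _).mul (isHomogeneous_X R _))⟩
  · exact ⟨1, (isHomogeneous_C_mul_X _ _).sub (isHomogeneous_X R _)⟩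
  · exact ⟨m i, sgp_hom _ _⟩

lemma map_segS {R S : Type} [CommRing R] [CommRing S] (φ : R →+* S) (T : R) {r N : ℕ} (j : Fin N)
    (m : Fin r → ℕ) (c : ∀ i, (Fin N → Fin (m i + 1)) → R) :
    (MvPolynomial.map φ) '' segS T j m c = segS (φ T) j m (fun i a => φ (c i a)) := by
  ext p
  constructor
  · rintro ⟨p, (⟨f, g, k, rfl⟩ | ⟨f, hf, rfl⟩ | ⟨i, rfl⟩), rfl⟩
    · exact Or.inl ⟨f, g, k, by simp⟩
    · exact Or.inr (Or.inl ⟨f, hf, by simp⟩)
    · exact Or.inr (Or.inr ⟨i, by rw [map_sgp]⟩)
  · rintro (⟨f, g, k, rfl⟩ | ⟨f, hf, rfl⟩ | ⟨i, rfl⟩)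
    · exact ⟨_, Or.inl ⟨f, g, k, rfl⟩, by simp⟩
    · exact ⟨_, Or.inr (Or.inl ⟨f, hf, rfl⟩), by simp⟩
    · exact ⟨_, Or.inr (Or.inr ⟨i, rfl⟩), by rw [map_sgp]⟩

lemma aeval_sgp {K L : Type} [Field K] [Field L] [Algebra K L] {N : ℕ} (m : ℕ)
    (c : (Fin N → Fin (m + 1)) → K) (x : Fin N → Fin 2 → L) (u : L) (z : (Fin N → Fin 2) → L)
    (hz : ∀ f, z f = u * ∏ k, x k (f k)) :
    aeval z (sgp m c) = u ^ m * mfe m (fun a => algebraMap K L (c a)) x := by
  rw [aeval_def, ← eval_map, map_sgp]
  exact eval_sgp m _ x u z hz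

theorem seg_of_pt {K : Type} [Field K] {T : K} {r N : ℕ} {j : Fin N} {m : Fin r → ℕ}
    {c : ∀ i, (Fin N → Fin (m i + 1)) → K} {Q M : ℕ} (h : PtIdx K T j m c Q M) :
    Idx K (segS T j m c) Q M := by
  intro L _ _ _ z hz hS
  obtain ⟨x, u, hu, hx, hT, hzx⟩ := seg_pt z hz (by
    intro f g k
    have h1 := hS _ (Or.inl ⟨f, g, k, rfl⟩)
    simp only [map_sub, map_mul, aeval_X] at h1
    exact sub_eq_zero.mp h1) (algebraMap K L T) j (by
    intro f hf
    have h1 := hS _ (Or.inr (Or.inl ⟨f, hf, rfl⟩))
    simp only [map_sub, map_mul, aeval_X, aeval_C] at h1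
    exact sub_eq_zero.mp h1)
  refine h L x hx hT fun i => ?_
  have h1 := hS _ (Or.inr (Or.inr ⟨i, rfl⟩))
  rw [aeval_sgp (m i) (c i) x u z hzx] at h1
  exact (mul_eq_zero.mp h1).resolve_left (pow_ne_zero _ hu)

theorem pt_of_seg {K : Type} [Field K] {T : K} {r N : ℕ} {j : Fin N} {m : Fin r → ℕ}
    {c : ∀ i, (Fin N → Fin (m i + 1)) → K} {Q M : ℕ} (h : Idx K (segS T j m c) Q M) :
    PtIdx K T j m c Q M := by
  classical
  intro L _ _ _ x hx hT hc
  let z : (Fin N → Fin 2) → L := fun f => ∏ k, x k (f k)
  have hne : ∀ l, ∃ c, x l c ≠ 0 := fun l => by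
    by_contra hcon
    push Not at hcon
    exact hx l (funext hcon)
  choose ε hε using hne
  have hz : z ≠ 0 := by
    intro h0
    have h1 := congrFun h0 ε
    exact Finset.prod_ne_zero_iff.mpr (fun k _ => hε k) h1
  have hup : ∀ (f : Fin N → Fin 2) (k : Fin N) (e : Fin 2),
      z (Function.update f k e) = x k e * ∏ l ∈ Finset.univ.erase k, x l (f l) := by
    intro f k e
    simp only [z]
    rw [← Finset.mul_prod_erase _ _ (Finset.mem_univ k), Function.update_self]
    congr 1
    refine Finset.prod_congr rfl fun l hl => ?_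
    rw [Function.update_of_ne (Finset.ne_of_mem_erase hl)]
  have hself : ∀ (f : Fin N → Fin 2) (k : Fin N),
      z f = x k (f k) * ∏ l ∈ Finset.univ.erase k, x l (f l) := fun f k =>
    (Finset.mul_prod_erase _ _ (Finset.mem_univ k)).symm
  refine h L z hz ?_
  rintro p (⟨f, g, k, rfl⟩ | ⟨f, hf, rfl⟩ | ⟨i, rfl⟩)
  · simp only [map_sub, map_mul, aeval_X]
    rw [hup f k (g k), hup g k (f k), hself f k, hself g k]
    ring
  · simp only [map_sub, map_mul, aeval_X, aeval_C]
    rw [hup f j 1, hself f j, hf, hT]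
    ring
  · rw [aeval_sgp (m i) (c i) x 1 z (fun f => by rw [one_mul]), hc i, mul_zero]

/-- **Specialisation.** -/
theorem pt_spec {κ : Type} [Field κ] (B : ValuationSubring κ) {r N : ℕ} (j : Fin N) (m : Fin r → ℕ)
    (c : ∀ i, (Fin N → Fin (m i + 1)) → B) (Q M : ℕ)
    (h : PtIdx (FractionRing (Polynomial (IsLocalRing.ResidueField B)))
      (algebraMap (Polynomial (IsLocalRing.ResidueField B))
        (FractionRing (Polynomial (IsLocalRing.ResidueField B))) Polynomial.X) j m
      (fun i a => algebraMap (Polynomial (IsLocalRing.ResidueField B))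
        (FractionRing (Polynomial (IsLocalRing.ResidueField B)))
        (Polynomial.C (IsLocalRing.residue B (c i a)))) Q M) :
    PtIdx (FractionRing (Polynomial κ))
      (algebraMap (Polynomial κ) (FractionRing (Polynomial κ)) Polynomial.X) j m
      (fun i a => algebraMap (Polynomial κ) (FractionRing (Polynomial κ))
        (Polynomial.C ((c i a : B) : κ))) Q M := by
  have h1 := idx_gauss B (segS (Polynomial.X : Polynomial B) j m (fun i a => Polynomial.C (c i a)))
    (segS_hom _ _ _ _) Q M (by
      rw [map_segS]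
      have e1 : ((algebraMap (Polynomial (IsLocalRing.ResidueField B))
          (FractionRing (Polynomial (IsLocalRing.ResidueField B)))).comp (pii B)) Polynomial.X
          = algebraMap (Polynomial (IsLocalRing.ResidueField B))
            (FractionRing (Polynomial (IsLocalRing.ResidueField B))) Polynomial.X := by
        simp [pii]
      have e2 : ∀ b : B, ((algebraMap (Polynomial (IsLocalRing.ResidueField B))
          (FractionRing (Polynomial (IsLocalRing.ResidueField B)))).comp (pii B)) (Polynomial.C b)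
          = algebraMap (Polynomial (IsLocalRing.ResidueField B))
            (FractionRing (Polynomial (IsLocalRing.ResidueField B)))
            (Polynomial.C (IsLocalRing.residue B b)) := by
        intro b
        simp [pii]
      rw [e1]
      simp only [e2]
      exact seg_of_pt h)
  rw [map_segS] at h1
  have e1 : bet B Polynomial.X
      = algebraMap (Polynomial κ) (FractionRing (Polynomial κ)) Polynomial.X := by
    simp [bet]
  rw [e1] at h1
  simp only [bet_C] at h1
  exact pt_of_seg h1

/-- **Splitting.** -/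
theorem idx_of_points {K : Type} [Field K] [CharZero K] (T : K) {N : ℕ}
    (S : Set (MvPolynomial (Fin (N + 1)) K)) (hS : ∀ f ∈ S, ∃ d : ℕ, f.IsHomogeneous d) (Q M : ℕ)
    (H : ∀ (L : Type) [Field L] [Algebra K L] [FiniteDimensional K L] (x : Fin N → Fin 2 → L)
      (j : Fin N), (∀ k, x k ≠ 0) → x j 1 = algebraMap K L T * x j 0 →
      (∀ f ∈ S, aeval (es x) f = 0) → Q ∣ M * Module.finrank K L) :
    Idx K (insert (UT K T (N + 1)) S) Q ((N - 1).factorial * M) := by
  classical
  intro L _ _ _ e he hf
  have hcL : CharZero L := charZero_of_injective_algebraMap (algebraMap K L).injective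
  set E : Polynomial L := ∑ i : Fin (N + 1), Polynomial.C (e i) * Polynomial.X ^ (i : ℕ) with hE
  have hcoeff : ∀ i : Fin (N + 1), E.coeff i = e i := by
    intro i
    rw [hE, Polynomial.finsetSum_coeff, Finset.sum_eq_single i]
    · simp
    · intro j _ hj
      rw [Polynomial.coeff_C_mul, Polynomial.coeff_X_pow, if_neg, mul_zero]
      intro h
      exact hj (Fin.ext h.symm)
    · intro h; exact absurd (Finset.mem_univ i) h
  have hE0 : E ≠ 0 := by
    intro h
    apply he
    funext i
    rw [← hcoeff i, h]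
    simp
  have hdeg : E.natDegree ≤ N := by
    apply Polynomial.natDegree_sum_le_of_forall_le
    intro i _
    refine (Polynomial.natDegree_C_mul_X_pow_le _ _).trans ?_
    have := i.2
    omega
  have hroot : E.eval (algebraMap K L T) = 0 := by
    have h1 := hf _ (Set.mem_insert _ _)
    unfold UT at h1
    rw [map_sum] at h1
    rw [hE, Polynomial.eval_finsetSum, ← h1]
    refine Finset.sum_congr rfl fun i _ => ?_
    rw [Polynomial.eval_mul, Polynomial.eval_C, Polynomial.eval_pow, Polynomial.eval_X, map_mul,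
      aeval_C, aeval_X, map_pow]
    ring
  obtain ⟨g, hg⟩ := Polynomial.dvd_iff_isRoot.mpr hroot
  have hg0 : g ≠ 0 := by
    rintro rfl
    rw [mul_zero] at hg
    exact hE0 hg
  have hgdeg : g.natDegree ≤ N - 1 := by
    have h1 := congrArg Polynomial.natDegree hg
    rw [Polynomial.natDegree_mul (Polynomial.X_sub_C_ne_zero _) hg0,
      Polynomial.natDegree_X_sub_C] at h1
    omega
  let L' := g.SplittingField
  have hfd : FiniteDimensional L L' := inferInstance
  have hgal : IsGalois L L' :=
    { to_isSeparable := inferInstance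
      to_normal := Normal.of_isSplittingField g }
  have hdvd : Module.finrank L L' ∣ (N - 1).factorial := by
    have h1 : Nat.card (L' ≃ₐ[L] L') = Module.finrank L L' := IsGalois.card_aut_eq_finrank L L'
    rw [← h1]
    have hsp : Fact ((g.map (algebraMap L L')).Splits) := ⟨Polynomial.SplittingField.splits g⟩
    have h2 := Subgroup.card_dvd_of_injective (Polynomial.Gal.galActionHom g L')
      (Polynomial.Gal.galActionHom_injective g L')
    have h3 : Nat.card (Equiv.Perm (g.rootSet L')) ∣ (N - 1).factorial := by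
      rw [Nat.card_eq_fintype_card, Fintype.card_perm]
      apply Nat.factorial_dvd_factorial
      have h5 : Fintype.card (g.rootSet L') ≤ g.natDegree := by
        simp_rw [Polynomial.rootSet_def, Finset.coe_sort_coe, Fintype.card_coe]
        exact (Multiset.toFinset_card_le _).trans
          ((Polynomial.card_roots' _).trans Polynomial.natDegree_map_le)
      omega
    exact h2.trans h3
  have hEs : (∑ i : Fin (N + 1), Polynomial.C ((fun i => algebraMap L L' (e i)) i) *
      Polynomial.X ^ (i : ℕ)).Splits := by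
    have h1 : (∑ i : Fin (N + 1), Polynomial.C ((fun i => algebraMap L L' (e i)) i) *
      Polynomial.X ^ (i : ℕ)) = E.map (algebraMap L L') := by
      rw [hE, Polynomial.map_sum]
      simp
    rw [h1, hg, Polynomial.map_mul]
    refine Polynomial.Splits.mul ?_ (Polynomial.SplittingField.splits g)
    rw [Polynomial.map_sub, Polynomial.map_X, Polynomial.map_C]
    exact Polynomial.Splits.X_sub_C _
  obtain ⟨x, c, hc, hx, hex, hT⟩ := fac (fun i => algebraMap L L' (e i)) (by
    intro h
    apply he
    funext i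
    have h1 := congrFun h i
    exact (map_eq_zero _).mp h1) hEs
  obtain ⟨j, hj⟩ := hT (algebraMap K L' T) (by
    have h1 : (∑ i : Fin (N + 1), Polynomial.C ((fun i => algebraMap L L' (e i)) i) *
      Polynomial.X ^ (i : ℕ)) = E.map (algebraMap L L') := by
      rw [hE, Polynomial.map_sum]
      simp
    rw [h1, IsScalarTower.algebraMap_apply K L L', Polynomial.eval_map,
      Polynomial.eval₂_at_apply, hroot, map_zero])
  have hfdK : FiniteDimensional K L' := FiniteDimensional.trans K L L'
  have h1 := H L' x j hx hj (by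
    intro f hfS
    obtain ⟨d, hd⟩ := hS f hfS
    have h2 : aeval (fun i => algebraMap L L' (e i)) f = 0 := by
      have h3 := aeval_algebraMap_apply (R := K) (A := L) L' e f
      exact h3.trans (by rw [hf f (Set.mem_insert_of_mem _ hfS), map_zero])
    have h4 : (fun i => algebraMap L L' (e i)) = fun i => c * es x i := funext hex
    rw [h4, aeval_scale (es x) c hd] at h2
    exact (mul_eq_zero.mp h2).resolve_left (pow_ne_zero _ hc))
  rw [← Module.finrank_mul_finrank K L L'] at h1
  refine h1.trans ?_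
  have h2 : (N - 1).factorial * M * Module.finrank K L
      = M * (Module.finrank K L * (N - 1).factorial) := by ring
  rw [h2]
  exact Nat.mul_dvd_mul_left _ (Nat.mul_dvd_mul_left _ hdvd)

end Pool.Agent.Helper14C
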