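import Mathlib
import Pool.Agent.TH922.KC.Fin2
import Pool.Agent.Helper14C.Pt

/-!
# Norm forms and generic forms over `κ(T)`
-/

set_option autoImplicit false
set_option linter.unusedSectionVars false

open MvPolynomial

namespace Pool.Agent.Helper14C

open Pool.Agent.TH922.KC

/-- coefficients of the norm form -/
noncomputable def nc {k0 : Type} [Field k0] {N : ℕ} (q : ℕ) (j : Fin N)
    (b : ℕ → (Fin N → Fin 2) → k0) (a : k0) : (Fin N → Fin (q + 1)) → k0 := fun al =>
  coeff (expo q al) (mat q (X (j, 0) : MvPolynomial (Fin N × Fin 2) k0) (X (j, 1) - C a * X (j, 0))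
    (fun k => lin j (fun g => C (b k g)) (fun k e => X (k, e)))).det

lemma nc_eval {k0 R : Type} [Field k0] [CommRing R] (φ : k0 →+* R) {N : ℕ} (q : ℕ) (j : Fin N)
    (b : ℕ → (Fin N → Fin 2) → k0) (a : k0) (x : Fin N → Fin 2 → R) :
    mfe q (fun al => φ (nc q j b a al)) x
      = (mat q (x j 0) (x j 1 - φ a * x j 0) (fun k => lin j (fun g => φ (b k g)) x)).det := by
  have h1 := mh_coeff (mh_norm q j b a)
  have h2 := congrArg (eval₂Hom φ (fun y : Fin N × Fin 2 => x y.1 y.2)) h1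
  rw [map_mfe, map_mat] at h2
  simp only [map_lin, map_sub, map_mul, coe_eval₂Hom, eval₂_C, eval₂_X] at h2
  exact h2.symm

/-- the final case -/
theorem pt_final {κ : Type} [Field κ] [CharZero κ]
    (hroots : ∀ n : ℕ, n ≠ 0 → ∃ ζ : κ, IsPrimitiveRoot ζ n) {k0 : Type} [Field k0] [CharZero k0]
    (φ : k0 →+* κ) {r N Qm : ℕ} (b : Fin r → ℕ → (Fin N → Fin 2) → k0)
    (hb : AlgebraicIndependent ℚ (fun z : Fin r × Fin Qm × (Fin N → Fin 2) =>
      φ (b z.1 z.2.1 z.2.2)))
    (q : Fin r → ℕ) (hq : ∀ i, 0 < q i) (hqm : ∀ i, q i ≤ Qm) (a : Fin r → ℚ)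
    (ha : Function.Injective a) (Mn : ℕ)
    (hM : ∀ d : Fin r → ℕ, (∀ i, 0 < d i) → ∑ i, d i + 1 ≤ N → ∏ i, d i ∣ Mn) (j : Fin N) :
    PtIdx (FractionRing (Polynomial κ))
      (algebraMap (Polynomial κ) (FractionRing (Polynomial κ)) Polynomial.X) j q
      (fun i al => algebraMap (Polynomial κ) (FractionRing (Polynomial κ))
        (Polynomial.C (φ (nc (q i) j (b i) (a i : k0) al)))) (∏ i, q i) Mn := by
  intro L _ _ _ x hx hT hc
  refine fin0 hroots (fun i k g => φ (b i k g)) hb q hq hqm a ha Mn hM j x hx hT fun i => ?_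
  let ψ : k0 →+* L := (algebraMap (FractionRing (Polynomial κ)) L).comp
    ((algebraMap (Polynomial κ) (FractionRing (Polynomial κ))).comp
      ((Polynomial.C : κ →+* Polynomial κ).comp φ))
  have h1 : mfe (q i) (fun al => ψ (nc (q i) j (b i) (a i : k0) al)) x = 0 := hc i
  rw [nc_eval ψ, map_ratCast] at h1
  exact h1

/-- generic coefficients -/
theorem pt_gen {κ1 : Type} [Field κ1] {k0 : Type} [Field k0] [CharZero k0] [Algebra k0 κ1]
    (hroots : ∀ n : ℕ, n ≠ 0 → ∃ ζ : k0, IsPrimitiveRoot ζ n)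
    {r N Qm : ℕ} (b : Fin r → ℕ → (Fin N → Fin 2) → k0)
    (hb : AlgebraicIndependent ℚ (fun z : Fin r × Fin Qm × (Fin N → Fin 2) =>
      b z.1 z.2.1 z.2.2))
    (q : Fin r → ℕ) (hq : ∀ i, 0 < q i) (hqm : ∀ i, q i ≤ Qm) (Mn : ℕ)
    (hM : ∀ d : Fin r → ℕ, (∀ i, 0 < d i) → ∑ i, d i + 1 ≤ N → ∏ i, d i ∣ Mn) (j : Fin N)
    (c : ∀ i, (Fin N → Fin (q i + 1)) → κ1)
    (hc : AlgebraicIndependent k0 (fun y : (Σ i : Fin r, (Fin N → Fin (q i + 1))) => c y.1 y.2)) :
    PtIdx (FractionRing (Polynomial κ1))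
      (algebraMap (Polynomial κ1) (FractionRing (Polynomial κ1)) Polynomial.X) j q
      (fun i al => algebraMap (Polynomial κ1) (FractionRing (Polynomial κ1))
        (Polynomial.C (c i al))) (∏ i, q i) Mn := by
  classical
  let a : Fin r → ℚ := fun i => ((i : ℕ) : ℚ)
  have ha : Function.Injective a := fun i i' h => Fin.ext (Nat.cast_injective h)
  obtain ⟨B, hk, hcB, hres⟩ := specialise' _ hc
    (fun y : (Σ i : Fin r, (Fin N → Fin (q i + 1))) => nc (q y.1) j (b y.1) (a y.1 : k0) y.2)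
  let ι0 : k0 →+* B := (algebraMap k0 κ1).codRestrict B.toSubring hk
  let φ : k0 →+* IsLocalRing.ResidueField B := (IsLocalRing.residue B).comp ι0
  have hcκ : CharZero (IsLocalRing.ResidueField B) := charZero_of_injective_ringHom φ.injective
  have hroots' : ∀ n : ℕ, n ≠ 0 → ∃ ζ : IsLocalRing.ResidueField B, IsPrimitiveRoot ζ n := by
    intro n hn
    obtain ⟨ζ, hζ⟩ := hroots n hn
    exact ⟨φ ζ, hζ.map_of_injective φ.injective⟩
  have h1 := pt_final hroots' φ b (by
    have := hb.map' (f := φ.toRatAlgHom) φ.injective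
    exact this) q hq hqm a ha Mn hM j
  have h2 := pt_spec B j q (fun i al => ⟨c i al, hcB ⟨i, al⟩⟩) (∏ i, q i) Mn (by
    have e : ∀ (i : Fin r) (al : Fin N → Fin (q i + 1)),
        IsLocalRing.residue B ⟨c i al, hcB ⟨i, al⟩⟩ = φ (nc (q i) j (b i) (a i : k0) al) :=
      fun i al => hres ⟨i, al⟩
    simp only [e]
    exact h1)
  exact h2

/-- independence over the algebraic closure -/
theorem indep_closure {K1 : Type} [Field K1] [CharZero K1] {ι ι' : Type} (c : ι → K1) (b : ι' → K1)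
    (h : AlgebraicIndependent ℚ (Sum.elim c b)) :
    AlgebraicIndependent (Lf (Set.range b)) c ∧
      AlgebraicIndependent ℚ (fun y => (⟨b y, Lf_of_mem ⟨y, rfl⟩⟩ : Lf (Set.range b))) := by
  obtain ⟨h1, h2⟩ := AlgebraicIndependent.sumElim_iff.mp h
  constructor
  · set A0 := Algebra.adjoin ℚ (Set.range b) with hA0
    set K0 := Lf (Set.range b) with hK0
    have hle : ∀ z : A0, (z : K1) ∈ K0 := fun z => isAlgebraic_algebraMap z
    let f : A0 →+* K0 :=
      { toFun := fun z => ⟨z, hle z⟩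
        map_one' := rfl
        map_mul' := fun _ _ => rfl
        map_zero' := rfl
        map_add' := fun _ _ => rfl }
    let _ : Algebra A0 K0 := f.toAlgebra
    have htow : IsScalarTower A0 K0 K1 := IsScalarTower.of_algebraMap_eq fun z => rfl
    have halg : Algebra.IsAlgebraic A0 K0 := ⟨fun z => by
      have h3 : IsAlgebraic A0 (z : K1) := z.2
      exact (isAlgebraic_algHom_iff (IsScalarTower.toAlgHom A0 K0 K1) Subtype.val_injective).mp h3⟩
    exact h2.extendScalars K0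
  · have h3 : AlgebraicIndependent ℚ (fun y => (Lf (Set.range b)).subtype.toRatAlgHom
        (⟨b y, Lf_of_mem ⟨y, rfl⟩⟩ : Lf (Set.range b))) := h1
    exact AlgebraicIndependent.of_comp (Lf (Set.range b)).subtype.toRatAlgHom h3

end Pool.Agent.Helper14C
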