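import Mathlib
import Pool.Agent.Helper14C.Sy
import Pool.Agent.Helper14C.Tt
import Pool.Agent.Helper14C.Gauss
import Pool.Agent.Helper14C.Pt

/-!
# Points of `(P^1)^N` over finite extensions of `κ(T)`, any families of equations
-/

set_option autoImplicit false
set_option linter.unusedSectionVars false

open MvPolynomial

namespace Pool.Agent.Helper14C

open Pool.Agent.TH922.KC

/-- common zeros of multihomogeneous forms, with one coordinate `T` -/
def PtIdx2 (K : Type) [Field K] (T : K) {ι : Type} {N : ℕ} (j : Fin N) (m : ι → ℕ)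
    (c : ∀ i, (Fin N → Fin (m i + 1)) → K) (Q M : ℕ) : Prop :=
  ∀ (L : Type) [Field L] [Algebra K L] [FiniteDimensional K L] (x : Fin N → Fin 2 → L),
    (∀ k, x k ≠ 0) → x j 1 = algebraMap K L T * x j 0 →
    (∀ i, mfe (m i) (fun a => algebraMap K L (c i a)) x = 0) → Q ∣ M * Module.finrank K L

/-- the equations in Segre coordinates -/
def segS2 {R : Type} [CommRing R] (T : R) {ι : Type} {N : ℕ} (j : Fin N) (m : ι → ℕ)
    (c : ∀ i, (Fin N → Fin (m i + 1)) → R) : Set (MvPolynomial (Fin N → Fin 2) R) :=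
  {p | (∃ (f g : Fin N → Fin 2) (k : Fin N),
        X f * X g - X (Function.update f k (g k)) * X (Function.update g k (f k)) = p) ∨
      (∃ f : Fin N → Fin 2, f j = 0 ∧ C T * X f - X (Function.update f j 1) = p) ∨
      ∃ i, sgp (m i) (c i) = p}

lemma segS2_hom {R : Type} [CommRing R] (T : R) {ι : Type} {N : ℕ} (j : Fin N) (m : ι → ℕ)
    (c : ∀ i, (Fin N → Fin (m i + 1)) → R) : ∀ p ∈ segS2 T j m c, ∃ d : ℕ, p.IsHomogeneous d := by
  rintro p (⟨f, g, k, rfl⟩ | ⟨f, -, rfl⟩ | ⟨i, rfl⟩)
  · exact ⟨2, ((isHomogeneous_X R _).mul (isHomogeneous_X R _)).sub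
      ((isHomogeneous_X R _).mul (isHomogeneous_X R _))⟩
  · exact ⟨1, (isHomogeneous_C_mul_X _ _).sub (isHomogeneous_X R _)⟩
  · exact ⟨m i, sgp_hom _ _⟩

lemma map_segS2 {R S : Type} [CommRing R] [CommRing S] (φ : R →+* S) (T : R) {ι : Type} {N : ℕ} (j : Fin N)
    (m : ι → ℕ) (c : ∀ i, (Fin N → Fin (m i + 1)) → R) :
    (MvPolynomial.map φ) '' segS2 T j m c = segS2 (φ T) j m (fun i a => φ (c i a)) := by
  ext p
  constructor
  · rintro ⟨p, (⟨f, g, k, rfl⟩ | ⟨f, hf, rfl⟩ | ⟨i, rfl⟩), rfl⟩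
    · exact Or.inl ⟨f, g, k, by simp⟩
    · exact Or.inr (Or.inl ⟨f, hf, by simp⟩)
    · exact Or.inr (Or.inr ⟨i, by rw [map_sgp]⟩)
  · rintro (⟨f, g, k, rfl⟩ | ⟨f, hf, rfl⟩ | ⟨i, rfl⟩)
    · exact ⟨_, Or.inl ⟨f, g, k, rfl⟩, by simp⟩
    · exact ⟨_, Or.inr (Or.inl ⟨f, hf, rfl⟩), by simp⟩
    · exact ⟨_, Or.inr (Or.inr ⟨i, rfl⟩), by rw [map_sgp]⟩

theorem seg_of_pt2 {K : Type} [Field K] {T : K} {ι : Type} {N : ℕ} {j : Fin N} {m : ι → ℕ}
    {c : ∀ i, (Fin N → Fin (m i + 1)) → K} {Q M : ℕ} (h : PtIdx2 K T j m c Q M) :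
    Idx K (segS2 T j m c) Q M := by
  intro L _ _ _ z hz hS
  obtain ⟨x, u, hu, hx, hT, hzx⟩ := seg_pt z hz (by
    intro f g k
    have h1 := hS _ (Or.inl ⟨f, g, k, rfl⟩)
    simp only [map_sub, map_mul, aeval_X] at h1
    exact sub_eq_zero.mp h1) (algebraMap K L T) j (by
    intro f hf
    have h1 := hS _ (Or.inr (Or.inl ⟨f, hf, rfl⟩))
    simp only [map_sub, map_mul, aeval_X, aeval_C] at h1
    exact sub_eq_zero.mp h1)
  refine h L x hx hT fun i => ?_
  have h1 := hS _ (Or.inr (Or.inr ⟨i, rfl⟩))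
  rw [aeval_sgp (m i) (c i) x u z hzx] at h1
  exact (mul_eq_zero.mp h1).resolve_left (pow_ne_zero _ hu)

theorem pt_of_seg2 {K : Type} [Field K] {T : K} {ι : Type} {N : ℕ} {j : Fin N} {m : ι → ℕ}
    {c : ∀ i, (Fin N → Fin (m i + 1)) → K} {Q M : ℕ} (h : Idx K (segS2 T j m c) Q M) :
    PtIdx2 K T j m c Q M := by
  classical
  intro L _ _ _ x hx hT hc
  let z : (Fin N → Fin 2) → L := fun f => ∏ k, x k (f k)
  have hne : ∀ l, ∃ c, x l c ≠ 0 := fun l => by
    by_contra hcon
    push Not at hcon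
    exact hx l (funext hcon)
  choose ε hε using hne
  have hz : z ≠ 0 := by
    intro h0
    have h1 := congrFun h0 ε
    exact Finset.prod_ne_zero_iff.mpr (fun k _ => hε k) h1
  have hup : ∀ (f : Fin N → Fin 2) (k : Fin N) (e : Fin 2),
      z (Function.update f k e) = x k e * ∏ l ∈ Finset.univ.erase k, x l (f l) := by
    intro f k e
    simp only [z]
    rw [← Finset.mul_prod_erase _ _ (Finset.mem_univ k), Function.update_self]
    congr 1
    refine Finset.prod_congr rfl fun l hl => ?_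
    rw [Function.update_of_ne (Finset.ne_of_mem_erase hl)]
  have hself : ∀ (f : Fin N → Fin 2) (k : Fin N),
      z f = x k (f k) * ∏ l ∈ Finset.univ.erase k, x l (f l) := fun f k =>
    (Finset.mul_prod_erase _ _ (Finset.mem_univ k)).symm
  refine h L z hz ?_
  rintro p (⟨f, g, k, rfl⟩ | ⟨f, hf, rfl⟩ | ⟨i, rfl⟩)
  · simp only [map_sub, map_mul, aeval_X]
    rw [hup f k (g k), hup g k (f k), hself f k, hself g k]
    ring
  · simp only [map_sub, map_mul, aeval_X, aeval_C]
    rw [hup f j 1, hself f j, hf, hT]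
    ring
  · rw [aeval_sgp (m i) (c i) x 1 z (fun f => by rw [one_mul]), hc i, mul_zero]

/-- **Specialisation.** -/
theorem pt_spec2 {κ : Type} [Field κ] (B : ValuationSubring κ) {ι : Type} {N : ℕ} (j : Fin N) (m : ι → ℕ)
    (c : ∀ i, (Fin N → Fin (m i + 1)) → B) (Q M : ℕ)
    (h : PtIdx2 (FractionRing (Polynomial (IsLocalRing.ResidueField B)))
      (algebraMap (Polynomial (IsLocalRing.ResidueField B))
        (FractionRing (Polynomial (IsLocalRing.ResidueField B))) Polynomial.X) j m
      (fun i a => algebraMap (Polynomial (IsLocalRing.ResidueField B))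
        (FractionRing (Polynomial (IsLocalRing.ResidueField B)))
        (Polynomial.C (IsLocalRing.residue B (c i a)))) Q M) :
    PtIdx2 (FractionRing (Polynomial κ))
      (algebraMap (Polynomial κ) (FractionRing (Polynomial κ)) Polynomial.X) j m
      (fun i a => algebraMap (Polynomial κ) (FractionRing (Polynomial κ))
        (Polynomial.C ((c i a : B) : κ))) Q M := by
  have h1 := idx_gauss B (segS2 (Polynomial.X : Polynomial B) j m (fun i a => Polynomial.C (c i a)))
    (segS2_hom _ _ _ _) Q M (by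
      rw [map_segS2]
      have e1 : ((algebraMap (Polynomial (IsLocalRing.ResidueField B))
          (FractionRing (Polynomial (IsLocalRing.ResidueField B)))).comp (pii B)) Polynomial.X
          = algebraMap (Polynomial (IsLocalRing.ResidueField B))
            (FractionRing (Polynomial (IsLocalRing.ResidueField B))) Polynomial.X := by
        simp [pii]
      have e2 : ∀ b : B, ((algebraMap (Polynomial (IsLocalRing.ResidueField B))
          (FractionRing (Polynomial (IsLocalRing.ResidueField B)))).comp (pii B)) (Polynomial.C b)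
          = algebraMap (Polynomial (IsLocalRing.ResidueField B))
            (FractionRing (Polynomial (IsLocalRing.ResidueField B)))
            (Polynomial.C (IsLocalRing.residue B b)) := by
        intro b
        simp [pii]
      rw [e1]
      simp only [e2]
      exact seg_of_pt2 h)
  rw [map_segS2] at h1
  have e1 : bet B Polynomial.X
      = algebraMap (Polynomial κ) (FractionRing (Polynomial κ)) Polynomial.X := by
    simp [bet]
  rw [e1] at h1
  simp only [bet_C] at h1
  exact pt_of_seg2 h1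

end Pool.Agent.Helper14C
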