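import Mathlib
import Pool.Agent.TH922.KC.Norm
import Pool.Agent.Helper14C.Sy

/-!
# Symmetric norm forms
-/

set_option autoImplicit false
set_option linter.unusedSectionVars false

open MvPolynomial

namespace Pool.Agent.Helper14C

open Pool.Agent.TH922.KC

section

variable {k : Type} [Field k] [CharZero k] {N : ℕ}

/-- evaluation at the coefficients of a product -/
lemma eval_es {R : Type} [CommRing R] (G : MvPolynomial (Fin (N + 1)) k) (φ : k →+* R)
    (x : Fin N → Fin 2 → R) :
    (eval₂Hom φ (fun y : Fin N × Fin 2 => x y.1 y.2)) (aeval (es (gx k N)) G) = eval₂ φ (es x) G := by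
  have h3 : (eval₂Hom φ (fun y : Fin N × Fin 2 => x y.1 y.2)).comp
      (aeval (es (gx k N)) : MvPolynomial (Fin (N + 1)) k →ₐ[k] _).toRingHom
      = eval₂Hom φ (es x) := by
    apply MvPolynomial.ringHom_ext
    · intro a
      simp
    · intro i
      have h4 := map_es (eval₂Hom φ (fun y : Fin N × Fin 2 => x y.1 y.2)) (gx k N) i
      have h5 : (fun l e => (eval₂Hom φ (fun y : Fin N × Fin 2 => x y.1 y.2)) (gx k N l e)) = x := by
        funext l e
        simp [gx]
      rw [h5] at h4
      simpa using h4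
  exact RingHom.congr_fun h3 G

lemma theta_surj {D : ℕ} {p : MvPolynomial (Fin N × Fin 2) k} (hp : p ∈ W k N D) :
    ∃ G : MvPolynomial (Fin (N + 1)) k, G.IsHomogeneous D ∧ aeval (es (gx k N)) G = p := by
  obtain ⟨hfin, hle⟩ := finrank_W (k := k) (N := N) D
  have h1 := LinearMap.finrank_le_finrank_of_injective (theta_inj (k := k) (N := N) D)
  rw [finrank_hom] at h1
  have hsurj : Function.Surjective (theta k N D) :=
    (LinearMap.injective_iff_surjective_of_finrank_eq_finrank (by
      rw [finrank_hom]; exact le_antisymm h1 hle)).mp (theta_inj D)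
  obtain ⟨G, hG⟩ := hsurj ⟨_, hp⟩
  exact ⟨G.1, G.2, congrArg Subtype.val hG⟩

lemma mh_mfe' (m : ℕ) (c : (Fin N → Fin (m + 1)) → k)
    (x : Fin N → Fin 2 → MvPolynomial (Fin N × Fin 2) k)
    (hx : ∀ l e, IsWeightedHomogeneous (wt N) (x l e) (Pi.single l 1)) :
    MH m (mfe m (fun a => C (c a)) x) := by
  unfold mfe MH
  refine IsWeightedHomogeneous.sum _ _ _ fun a _ => ?_
  refine IsWeightedHomogeneous.C_mul ?_ _
  have h1 := IsWeightedHomogeneous.prod (w := wt N) Finset.univ
    (fun l => x l 1 ^ (a l : ℕ) * x l 0 ^ (m - (a l : ℕ)))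
    (fun l => (a l : ℕ) • (Pi.single l 1 : Fin N → ℕ) + (m - (a l : ℕ)) • Pi.single l 1)
    (fun l _ => ((hx l 1).pow _).mul ((hx l 0).pow _))
  have h2 : ∑ l, ((a l : ℕ) • (Pi.single l 1 : Fin N → ℕ) + (m - (a l : ℕ)) • Pi.single l 1)
      = fun _ => m := by
    funext i
    rw [Finset.sum_apply, Finset.sum_eq_single i]
    · rw [← add_smul, Pi.smul_apply, Pi.single_eq_same, smul_eq_mul, mul_one]
      have := (a i).2
      omega
    · intro l _ hl
      rw [← add_smul, Pi.smul_apply, Pi.single_eq_of_ne (Ne.symm hl), smul_zero]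
    · intro h; exact absurd (Finset.mem_univ i) h
  rw [h2] at h1
  exact h1

/-- forms on `P^N` as multihomogeneous forms -/
lemma es_mfe {R : Type} [CommRing R] {D : ℕ} {G : MvPolynomial (Fin (N + 1)) k}
    (hG : G.IsHomogeneous D) (φ : k →+* R) (x : Fin N → Fin 2 → R) :
    eval₂ φ (es x) G
      = mfe D (fun al => φ (coeff (expo D al) (aeval (es (gx k N)) G))) x := by
  have h1 := congrArg (eval₂Hom φ (fun y : Fin N × Fin 2 => x y.1 y.2)) (mh_coeff (theta_mem hG).1)
  rw [eval_es, map_mfe] at h1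
  rw [h1]
  simp

/-- the scaling vectors -/
def sv {q : ℕ} (l : Fin N → rootsOfUnity q k) (y : Fin N × Fin 2) : k :=
  if y.2 = 1 then ((l y.1 : kˣ) : k) else 1

lemma scl_mh {m : ℕ} {p : MvPolynomial (Fin N × Fin 2) k} (hp : MH m p) (e : Fin N × Fin 2 → k) :
    MH m (scl e p) := by
  intro μ hμ
  rw [coeff_scl] at hμ
  exact hp (right_ne_zero_of_mul hμ)

lemma rename_scl (σ : Equiv.Perm (Fin N)) (e : Fin N × Fin 2 → k)
    (p : MvPolynomial (Fin N × Fin 2) k) :
    rename (Prod.map σ id) (scl e p)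
      = scl (fun y => e (σ.symm y.1, y.2)) (rename (Prod.map σ id) p) := by
  have h : (rename (Prod.map σ id) : MvPolynomial (Fin N × Fin 2) k →ₐ[k] _).comp (scl e)
      = (scl (fun y => e (σ.symm y.1, y.2))).comp (rename (Prod.map σ id)) := by
    ext1 y
    simp [scl]
  exact DFunLike.congr_fun h p

/-- **Symmetric norm forms.** -/
theorem normB {q s : ℕ} [NeZero q] (ω : k) (hω : IsPrimitiveRoot ω q) (hN : 0 < N)
    {H : MvPolynomial (Fin (N + 1)) k} (hH : H.IsHomogeneous s) (a : k) :
    ∃ Bf : MvPolynomial (Fin (N + 1)) k, Bf.IsHomogeneous (q ^ (N - 1) * s) ∧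
      ∀ (Ω : Type) [Field Ω] (φ : k →+* Ω) (x θ : Fin N → Fin 2 → Ω),
        (∀ l, θ l 0 ^ q = x l 0) → (∀ l, θ l 1 ^ q = x l 1 - φ a * x l 0) →
        eval₂ φ (es x) Bf = ∏ l : (Fin N → rootsOfUnity q k),
          eval₂ φ (es (fun i e => φ (sv l (i, e)) * θ i e)) H := by
  classical
  have hq : 0 < q := Nat.pos_of_ne_zero (NeZero.ne q)
  set Λ := (Fin N → rootsOfUnity q k) with hΛ
  have hcard : Fintype.card Λ = q ^ N := by
    change Fintype.card (Fin N → rootsOfUnity q k) = q ^ N
    rw [Fintype.card_fun, Fintype.card_fin, ← Nat.card_eq_fintype_card, hω.card_rootsOfUnity]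
  let ωu : rootsOfUnity q k := hω.toRootsOfUnity
  have hωu : ((ωu : kˣ) : k) = ω := hω.val_toRootsOfUnity_coe
  set He := aeval (es (gx k N)) H with hHe
  have hHW : He ∈ W k N s := theta_mem hH
  set P : MvPolynomial (Fin N × Fin 2) k := ∏ l : Λ, scl (sv l) He with hP
  have hqN : q ^ N = q * q ^ (N - 1) := by
    rw [← pow_succ']; congr 1; omega
  have hPm : MH (q ^ N * s) P := by
    have h1 := IsWeightedHomogeneous.prod (w := wt N) Finset.univ
      (fun l : Λ => scl (sv l) He) (fun _ => (fun _ => s : Fin N → ℕ))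
      (fun l _ => scl_mh hHW.1 (sv l))
    have h2 : ∑ l : Λ, (fun _ => s : Fin N → ℕ) = fun _ => q ^ N * s := by
      funext i
      rw [Finset.sum_apply, Finset.sum_const, Finset.card_univ, hcard, smul_eq_mul]
    rw [h2] at h1
    exact h1
  have hinv : ∀ i : Fin N, scl (Pi.mulSingle (i, 1) ω) P = P := by
    intro i
    rw [hP, map_prod]
    refine Fintype.prod_equiv (Equiv.mulLeft (Pi.mulSingle i ωu : Λ)) _ _ fun l => ?_
    rw [← scl_mul]
    congr 1
    congr 1
    funext y
    rw [Pi.mul_apply]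
    simp only [sv, Equiv.coe_mulLeft]
    by_cases h1 : y.2 = 1
    · rw [if_pos h1, if_pos h1, Pi.mul_apply]
      by_cases h2 : y.1 = i
      · have : y = (i, 1) := Prod.ext h2 h1
        rw [this, Pi.mulSingle_eq_same, Pi.mulSingle_eq_same]
        simp [hωu]
      · have h3 : y ≠ (i, 1) := fun h => h2 (congrArg Prod.fst h)
        rw [Pi.mulSingle_eq_of_ne h3, Pi.mulSingle_eq_of_ne h2]
        simp
    · rw [if_neg h1, if_neg h1]
      have h3 : y ≠ (i, 1) := fun h => h1 (congrArg Prod.snd h)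
      rw [Pi.mulSingle_eq_of_ne h3, one_mul]
  have hdvd : ∀ μ ∈ P.support, ∀ y, q ∣ μ y := by
    intro μ hμ
    rw [mem_support_iff] at hμ
    have hd1 : ∀ i : Fin N, q ∣ μ (i, 1) := by
      intro i
      have h1 := congrArg (coeff μ) (hinv i)
      rw [coeff_scl] at h1
      have h2 : (∏ y, (Pi.mulSingle (i, 1) ω : Fin N × Fin 2 → k) y ^ μ y) = ω ^ μ (i, 1) := by
        rw [Finset.prod_eq_single (i, 1)]
        · simp
        · intro b _ hb
          rw [Pi.mulSingle_eq_of_ne hb, one_pow]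
        · intro h; exact absurd (Finset.mem_univ _) h
      rw [h2] at h1
      have h3 : ω ^ μ (i, 1) = 1 := by
        have : (ω ^ μ (i, 1) - 1) * coeff μ P = 0 := by rw [sub_mul, h1]; ring
        rcases mul_eq_zero.mp this with h | h
        · exact sub_eq_zero.mp h
        · exact absurd h hμ
      exact hω.dvd_of_pow_eq_one _ h3
    rintro ⟨i, e⟩
    fin_cases e
    · have h1 := congrFun (hPm hμ) i
      rw [weight_apply] at h1
      have h2 : q ∣ μ (i, 0) + μ (i, 1) := by
        rw [h1, hqN, mul_assoc]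
        exact Dvd.intro _ rfl
      exact (Nat.dvd_add_left (hd1 i)).mp h2
    · exact hd1 i
  set F : MvPolynomial (Fin N × Fin 2) k :=
    ∑ μ ∈ P.support, monomial (μ.mapRange (· / q) (Nat.zero_div q)) (coeff μ P) with hF
  have hFP : expand q F = P := by
    rw [hF, map_sum]
    conv_rhs => rw [P.as_sum]
    refine Finset.sum_congr rfl fun μ hμ => ?_
    rw [expand_monomial]
    have h1 : q • (μ.mapRange (· / q) (Nat.zero_div q)) = μ := by
      ext i
      rw [Finsupp.smul_apply, Finsupp.mapRange_apply, smul_eq_mul]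
      exact Nat.mul_div_cancel' (hdvd μ hμ i)
    rw [h1]
  have hFm : MH (q ^ (N - 1) * s) F := by
    rw [hF]
    refine IsWeightedHomogeneous.sum _ _ _ fun μ hμ => ?_
    refine isWeightedHomogeneous_monomial _ _ _ ?_
    funext i
    have h1 := congrFun (hPm (mem_support_iff.mp hμ)) i
    rw [weight_apply] at h1 ⊢
    rw [Finsupp.mapRange_apply, Finsupp.mapRange_apply]
    have h2 := Nat.mul_div_cancel' (hdvd μ hμ (i, 0))
    have h3 := Nat.mul_div_cancel' (hdvd μ hμ (i, 1))
    apply Nat.eq_of_mul_eq_mul_left hq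
    rw [mul_add, h2, h3, h1, hqN, mul_assoc]
  have hPs : ∀ σ : Equiv.Perm (Fin N), rename (Prod.map σ id) P = P := by
    intro σ
    rw [hP, map_prod]
    refine Fintype.prod_equiv (Equiv.arrowCongr σ (Equiv.refl _)) _ _ fun l => ?_
    rw [rename_scl, hHW.2 σ]
    congr 1
  have hFs : ∀ σ : Equiv.Perm (Fin N), rename (Prod.map σ id) F = F := by
    intro σ
    apply expand_injective hq
    rw [← rename_expand, hFP, hPs]
  set m := q ^ (N - 1) * s with hm
  have hFW : F ∈ W k N m := ⟨hFm, hFs⟩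
  let cF : (Fin N → Fin (m + 1)) → k := fun al => coeff (expo m al) F
  have hFc : F = mfe m (fun al => C (cF al)) (gx k N) := mh_coeff hFm
  let x'' : Fin N → Fin 2 → MvPolynomial (Fin N × Fin 2) k := fun l e =>
    if e = 1 then X (l, 1) - C a * X (l, 0) else X (l, 0)
  have hx'' : ∀ l e, IsWeightedHomogeneous (wt N) (x'' l e) (Pi.single l 1) := by
    intro l e
    simp only [x'']
    split_ifs
    · exact (isWeightedHomogeneous_X k (wt N) (l, 1)).sub
        ((isWeightedHomogeneous_X k (wt N) (l, 0)).C_mul a)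
    · exact isWeightedHomogeneous_X k (wt N) (l, 0)
  have hF'W : mfe m (fun al => C (cF al)) x'' ∈ W k N m := by
    refine ⟨mh_mfe' m cF x'' hx'', fun σ => ?_⟩
    have h1 := map_mfe (rename (Prod.map σ id) : MvPolynomial (Fin N × Fin 2) k →ₐ[k] _).toRingHom
      m (fun al => C (cF al)) x''
    have h2 : (fun l e => (rename (Prod.map σ id) : MvPolynomial (Fin N × Fin 2) k →ₐ[k] _).toRingHom
        (x'' l e)) = fun l => x'' (σ l) := by
      funext l e
      simp only [x'']
      split_ifs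
      · simp
      · simp
    have h3 : (fun al => (rename (Prod.map σ id) : MvPolynomial (Fin N × Fin 2) k →ₐ[k] _).toRingHom
        (C (cF al))) = fun al => C (cF al) := by
      funext a
      simp
    rw [h2, h3, mfe_perm] at h1
    have h4 : (fun al : Fin N → Fin (m + 1) => (C (cF (fun l => al (σ l))) :
        MvPolynomial (Fin N × Fin 2) k)) = fun al => C (cF al) := by
      funext al
      congr 1
      exact coeff_sym hFW al σ
    rw [h4] at h1
    exact h1
  obtain ⟨Bf, hBf, hBf'⟩ := theta_surj hF'W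
  refine ⟨Bf, hBf, ?_⟩
  intro Ω _ φ x θ h0 h1
  rw [← eval_es, hBf', map_mfe]
  have e1 : (fun l e => (eval₂Hom φ (fun y : Fin N × Fin 2 => x y.1 y.2)) (x'' l e))
      = fun l e => θ l e ^ q := by
    funext l e
    simp only [x'']
    fin_cases e
    · simp [h0]
    · simp [h1]
  rw [e1]
  have e2 : mfe m (fun al => (eval₂Hom φ (fun y : Fin N × Fin 2 => x y.1 y.2)) (C (cF al)))
      (fun l e => θ l e ^ q) = eval₂ φ (fun y : Fin N × Fin 2 => θ y.1 y.2) (expand q F) := by
    rw [eval₂_expand]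
    conv_rhs => rw [hFc]
    have h2 := map_mfe (eval₂Hom φ ((fun y : Fin N × Fin 2 => θ y.1 y.2) ^ q)) m
      (fun al => C (cF al)) (gx k N)
    rw [coe_eval₂Hom] at h2
    rw [h2]
    simp [gx]
  rw [e2, hFP, hP]
  have e3 : ∀ l : Λ, eval₂ φ (fun y : Fin N × Fin 2 => θ y.1 y.2) (scl (sv l) He)
      = eval₂ φ (es (fun i e => φ (sv l (i, e)) * θ i e)) H := by
    intro l
    rw [← eval_es]
    have h2 : (eval₂Hom φ (fun y : Fin N × Fin 2 => θ y.1 y.2)).comp
        (scl (sv l) : MvPolynomial (Fin N × Fin 2) k →ₐ[k] _).toRingHom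
        = eval₂Hom φ (fun y : Fin N × Fin 2 => φ (sv l (y.1, y.2)) * θ y.1 y.2) := by
      apply MvPolynomial.ringHom_ext
      · intro b
        simp [scl]
      · intro y
        simp [scl]
    exact RingHom.congr_fun h2 He
  rw [← coe_eval₂Hom, map_prod]
  exact Finset.prod_congr rfl fun l _ => e3 l

end

end Pool.Agent.Helper14C
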