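import Mathlib
import Pool.Agent.Helper14C.Cb
import Pool.Agent.Helper14C.NB
import Pool.Agent.Helper14C.Fin0

/-!
# Prime powers with prime `p > N`: points on norm hypersurfaces
-/

set_option autoImplicit false
set_option linter.unusedSectionVars false

open Polynomial

namespace Pool.Agent.Helper14C

open Pool.Agent.TH922.KC

section

variable {κ : Type} [Field κ] [CharZero κ] {L : Type} [Field L]
    [Algebra (FractionRing κ[X]) L] [FiniteDimensional (FractionRing κ[X]) L] {N : ℕ}

lemma Ta_eq (a : ℚ) : algebraMap (FractionRing κ[X]) L (algebraMap κ[X] _ X) - (a : L)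
    = algebraMap (FractionRing κ[X]) L (algebraMap κ[X] _ (X - C (algebraMap ℚ κ a))) := by
  have hcK : CharZero (FractionRing κ[X]) :=
    charZero_of_injective_algebraMap (IsFractionRing.injective κ[X] _)
  have hcL : CharZero L :=
    charZero_of_injective_algebraMap (algebraMap (FractionRing κ[X]) L).injective
  rw [map_sub, map_sub]
  congr 1
  have h3 : algebraMap (FractionRing κ[X]) L (algebraMap κ[X] _ (C (algebraMap ℚ κ a)))
    = ((algebraMap (FractionRing κ[X]) L).comp ((algebraMap κ[X] (FractionRing κ[X])).comp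
        ((C : κ →+* κ[X]).comp (algebraMap ℚ κ)))) a := rfl
  rw [h3]
  exact (map_ratCast _ _).symm

lemma Ta_ne (a : ℚ) : algebraMap (FractionRing κ[X]) L (algebraMap κ[X] _ X) - (a : L) ≠ 0 := by
  intro h
  rw [Ta_eq] at h
  have h2 := (map_eq_zero _).mp h
  rw [map_eq_zero_iff _ (IsFractionRing.injective κ[X] _)] at h2
  exact X_sub_C_ne_zero _ h2

lemma dvd_pow_lt {p v : ℕ} (hp : p.Prime) (d : ℕ) (hd : d ∣ p ^ v) (hdp : d < p) : d = 1 := by
  obtain ⟨t, -, ht⟩ := (Nat.dvd_prime_pow hp).mp hd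
  rcases t with _ | t
  · simpa using ht
  · exfalso
    rw [ht, pow_succ] at hdp
    have h1 : p ≤ p ^ t * p := Nat.le_mul_of_pos_left _ (pow_pos hp.pos t)
    omega

/-- points on the norm forms -/
theorem typeA {p v : ℕ} (hp : p.Prime) (hpN : N < p) (ζ : κ) (hζ : IsPrimitiveRoot ζ (p ^ v))
    (b : ℕ → (Fin N → Fin 2) → κ)
    (hb : AlgebraicIndependent ℚ (fun z : Fin (p ^ v) × (Fin N → Fin 2) => b z.1 z.2)) (a : ℚ)
    (j : Fin N) (x : Fin N → Fin 2 → L) (hx : ∀ l, x l ≠ 0)
    (hT : x j 1 = algebraMap (FractionRing κ[X]) L (algebraMap κ[X] _ X) * x j 0)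
    (heq : (mat (p ^ v) (x j 0) (x j 1 - (a : L) * x j 0)
      (fun k => lin j (fun g => algebraMap (FractionRing κ[X]) L (algebraMap κ _ (b k g))) x)).det
        = 0) :
    ∃ η : L, η ^ (p ^ v) = algebraMap (FractionRing κ[X]) L (algebraMap κ[X] _ X) - (a : L) := by
  classical
  set K := FractionRing κ[X] with hK
  have hcK : CharZero K := charZero_of_injective_algebraMap (IsFractionRing.injective κ[X] K)
  have hcL : CharZero L := charZero_of_injective_algebraMap (algebraMap K L).injective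
  let Ω := AlgebraicClosure L
  have hcΩ : CharZero Ω := charZero_of_injective_algebraMap (algebraMap L Ω).injective
  let T : L := algebraMap K L (algebraMap κ[X] K X)
  set q := p ^ v with hqd
  have hq : 0 < q := pow_pos hp.pos v
  have hx0 : x j 0 ≠ 0 := by
    intro h0
    apply hx j
    funext c
    fin_cases c
    · exact h0
    · change x j 1 = 0
      rw [hT, h0, mul_zero]
  have hTa0 : T - (a : L) ≠ 0 := Ta_ne a
  have hdet : (mat q 1 (T - (a : L))
      (fun k => lin j (fun g => algebraMap K L (algebraMap κ _ (b k g))) x)).det = 0 := by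
    have h1 := heq
    rw [hT, ← sub_mul, mat_scale] at h1
    exact (mul_eq_zero.mp h1).resolve_left (pow_ne_zero _ hx0)
  have hζL : IsPrimitiveRoot (algebraMap K L (algebraMap κ K ζ)) q :=
    (hζ.map_of_injective (algebraMap κ K).injective).map_of_injective (algebraMap K L).injective
  obtain ⟨θ, hθ, hsum⟩ : ∃ θ : Ω, θ ^ q = algebraMap L Ω (T - (a : L)) ∧
      ∑ k ∈ Finset.range q, θ ^ k * algebraMap L Ω
        (lin j (fun g => algebraMap K L (algebraMap κ _ (b k g))) x) = 0 := by
    obtain ⟨θ0, hθ0⟩ := IsAlgClosed.exists_pow_nat_eq (algebraMap L Ω (T - (a : L))) hq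
    have h00 : θ0 ≠ 0 := by
      rintro rfl
      rw [zero_pow hq.ne'] at hθ0
      exact hTa0 ((map_eq_zero _).mp hθ0.symm)
    have h1 := congrArg (algebraMap L Ω) hdet
    rw [map_mat, map_one, map_zero, ← hθ0] at h1
    obtain ⟨θ, hθ, h2⟩ := det_zero (hζL.map_of_injective (algebraMap L Ω).injective) h00 _ h1
    exact ⟨θ, hθ.trans hθ0, h2⟩
  have hne : ∀ l, ∃ c, x l c ≠ 0 := fun l => by
    by_contra hcon
    push Not at hcon
    exact hx l (funext hcon)
  choose ε hε using hne
  let x' : Fin N → Fin 2 → L := fun l c => (x l (ε l))⁻¹ * x l c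
  have hx' : ∀ l, x' l (ε l) = 1 := fun l => inv_mul_cancel₀ (hε l)
  have hθK : θ ^ q = algebraMap K Ω (algebraMap κ[X] K (X - C (algebraMap ℚ κ a))) := by
    rw [hθ, Ta_eq]
    exact (IsScalarTower.algebraMap_apply K L Ω _).symm
  have hθ0 : θ ≠ 0 := by
    intro h
    rw [h, zero_pow hq.ne'] at hθ
    exact hTa0 ((map_eq_zero _).mp hθ.symm)
  have hk1 := kum1 (F := L) hθ0 hq hζL hθ
  have hcount := count (r := 1) (Qm := q) (fun _ => b) (by
      have h1 := hb.comp (fun z : Fin 1 × Fin q × (Fin N → Fin 2) => (z.2.1, z.2.2)) (by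
        rintro ⟨i, s, g⟩ ⟨i', s', g'⟩ h
        have h1 : i = i' := Subsingleton.elim _ _
        have h2 : s = s' := congrArg Prod.fst h
        have h3 : g = g' := congrArg Prod.snd h
        rw [h1, h2, h3])
      exact h1) (fun _ => θ) (fun _ => q) (fun _ => hq) (fun _ => le_rfl) (fun _ => a)
    (fun _ => hθK)
    (fun _ => Module.finrank L (IntermediateField.adjoin L {θ})) (fun _ => rfl)
    (fun _ => hk1.2 _ ⟨_, hθ⟩) (fun _ => hk1.1) j x' ε hx' (by
      intro i
      have h1 : ∀ k, lin j (fun g => algebraMap K L (algebraMap κ _ (b k g))) x'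
          = (∏ l ∈ Finset.univ.erase j, (x l (ε l))⁻¹) *
            lin j (fun g => algebraMap K L (algebraMap κ _ (b k g))) x :=
        fun k => lin_scale j _ x (fun l => (x l (ε l))⁻¹)
      calc ∑ k ∈ Finset.range q, θ ^ k * algebraMap L Ω
            (lin j (fun g => algebraMap K L (algebraMap κ _ (b k g))) x')
          = algebraMap L Ω (∏ l ∈ Finset.univ.erase j, (x l (ε l))⁻¹) *
            ∑ k ∈ Finset.range q, θ ^ k * algebraMap L Ω
              (lin j (fun g => algebraMap K L (algebraMap κ _ (b k g))) x) := by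
            rw [Finset.mul_sum]
            refine Finset.sum_congr rfl fun k _ => ?_
            rw [h1, map_mul]
            ring
        _ = 0 := by rw [hsum, mul_zero])
  rw [Fin.sum_univ_one] at hcount
  have h3 := dvd_pow_lt hp _ (hk1.2 _ ⟨_, hθ⟩) (by omega)
  have h4 := IntermediateField.finrank_adjoin_simple_eq_one_iff.mp h3
  obtain ⟨e, he⟩ := IntermediateField.mem_bot.mp h4
  refine ⟨e, ?_⟩
  apply (algebraMap L Ω).injective
  rw [map_pow, he, hθ]

lemma es_scale {R : Type} [CommRing R] (x : Fin N → Fin 2 → R) (c : Fin N → R)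
    (i : Fin (N + 1)) : es (fun l e => c l * x l e) i = (∏ l, c l) * es x i := by
  unfold es
  rw [← Polynomial.coeff_C_mul]
  congr 1
  rw [map_prod, ← Finset.prod_mul_distrib]
  refine Finset.prod_congr rfl fun l _ => ?_
  rw [Polynomial.C_mul, Polynomial.C_mul]
  ring

/-- points on the symmetric norm forms -/
theorem etaB {p v s : ℕ} [NeZero (p ^ v)] (hp : p.Prime) (hpN : N < p) (hN : N ≤ s + 1)
    (ζ : κ) (hζ : IsPrimitiveRoot ζ (p ^ v)) {k0 : Type} [Field k0] [CharZero k0]
    (φ : k0 →+* κ) (h : It (Fin (N + 1)) s → k0)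
    (hh : AlgebraicIndependent ℚ (fun μ => φ (h μ))) (a : ℚ)
    (Bf : MvPolynomial (Fin (N + 1)) k0) {D : ℕ} (hBh : Bf.IsHomogeneous D)
    (hB : ∀ (Ω : Type) [Field Ω] (φ : k0 →+* Ω) (x θ : Fin N → Fin 2 → Ω),
        (∀ l, θ l 0 ^ (p ^ v) = x l 0) → (∀ l, θ l 1 ^ (p ^ v) = x l 1 - φ (a : k0) * x l 0) →
        MvPolynomial.eval₂ φ (es x) Bf = ∏ l : (Fin N → rootsOfUnity (p ^ v) k0),
          MvPolynomial.eval₂ φ (es (fun i e => φ (sv l (i, e)) * θ i e)) (tp (Fin (N + 1)) k0 s h))
    (j : Fin N) (x : Fin N → Fin 2 → L) (hx : ∀ l, x l ≠ 0)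
    (hT : x j 1 = algebraMap (FractionRing κ[X]) L (algebraMap κ[X] _ X) * x j 0)
    (heq : MvPolynomial.eval₂ ((algebraMap (FractionRing κ[X]) L).comp
      ((algebraMap κ (FractionRing κ[X])).comp φ)) (es x) Bf = 0) :
    ∃ η : L, η ^ (p ^ v) = algebraMap (FractionRing κ[X]) L (algebraMap κ[X] _ X) - (a : L) := by
  classical
  set K := FractionRing κ[X] with hK
  have hcK : CharZero K := charZero_of_injective_algebraMap (IsFractionRing.injective κ[X] K)
  have hcL : CharZero L := charZero_of_injective_algebraMap (algebraMap K L).injective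
  let Ω := AlgebraicClosure L
  have hcΩ : CharZero Ω := charZero_of_injective_algebraMap (algebraMap L Ω).injective
  let T : L := algebraMap K L (algebraMap κ[X] K X)
  have hq : 0 < p ^ v := pow_pos hp.pos v
  have hx0 : x j 0 ≠ 0 := by
    intro h0
    apply hx j
    funext c
    fin_cases c
    · exact h0
    · change x j 1 = 0
      rw [hT, h0, mul_zero]
  let c : Fin N → L := fun l => if x l 0 = 0 then (x l 1)⁻¹ else (x l 0)⁻¹
  let x' : Fin N → Fin 2 → L := fun l e => c l * x l e
  have hx' : ∀ l, x' l 0 = 1 ∨ (x' l 0 = 0 ∧ x' l 1 = 1) := by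
    intro l
    by_cases h0 : x l 0 = 0
    · right
      have h1 : x l 1 ≠ 0 := by
        intro h1
        apply hx l
        funext e
        fin_cases e
        · exact h0
        · exact h1
      simp only [x', c, if_pos h0]
      exact ⟨by rw [h0, mul_zero], inv_mul_cancel₀ h1⟩
    · left
      simp only [x', c, if_neg h0]
      exact inv_mul_cancel₀ h0
  have hxj0 : x' j 0 = 1 := by
    simp only [x', c, if_neg hx0]
    exact inv_mul_cancel₀ hx0
  have hxj1 : x' j 1 = T := by
    simp only [x', c, if_neg hx0]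
    rw [hT]
    field_simp
    rfl
  let φL : κ →+* L := (algebraMap K L).comp (algebraMap κ K)
  have heq' : MvPolynomial.eval₂ (φL.comp φ) (es x') Bf = 0 := by
    have h1 : es x' = fun i => (∏ l, c l) * es x i := funext fun i => es_scale x c i
    have h2 := aeval_scale (es x) (∏ l, c l) (hBh.map (φL.comp φ))
    rw [h1]
    rw [MvPolynomial.aeval_def, MvPolynomial.eval₂_map, MvPolynomial.aeval_def,
      MvPolynomial.eval₂_map] at h2
    have h3 : (algebraMap L L).comp (φL.comp φ) = φL.comp φ := by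
      ext; rfl
    rw [h3] at h2
    rw [h2]
    have h4 : MvPolynomial.eval₂ (φL.comp φ) (es x) Bf = 0 := heq
    rw [h4, mul_zero]
  have hθ1ex : ∀ l, ∃ t : Ω, t ^ (p ^ v) = algebraMap L Ω (x' l 1 - (a : L) * x' l 0) :=
    fun l => IsAlgClosed.exists_pow_nat_eq _ hq
  choose t ht using hθ1ex
  let θ : Fin N → Fin 2 → Ω := fun l e => if e = 1 then t l else algebraMap L Ω (x' l 0)
  have hθ0 : ∀ l, θ l 0 = algebraMap L Ω (x' l 0) := fun l => by simp [θ]
  have hθ1 : ∀ l, θ l 1 = t l := fun l => by simp [θ]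
  let ψ : k0 →+* Ω := (algebraMap L Ω).comp (φL.comp φ)
  have h1 := hB Ω ψ (fun l e => algebraMap L Ω (x' l e)) θ (by
    intro l
    rw [hθ0]
    rcases hx' l with h | ⟨h, -⟩
    · rw [h, map_one, one_pow]
    · rw [h, map_zero, zero_pow hq.ne']) (by
    intro l
    have h3 : ∀ u w : L, algebraMap L Ω (u - (a : L) * w)
        = algebraMap L Ω u - (a : Ω) * algebraMap L Ω w := fun u w => by
      rw [map_sub, map_mul, map_ratCast]
    rw [hθ1, ht, map_ratCast]
    exact h3 _ _)
  have h2 : MvPolynomial.eval₂ ψ (es (fun l e => algebraMap L Ω (x' l e))) Bf = 0 := by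
    have h3 : es (fun l e => algebraMap L Ω (x' l e)) = fun i => algebraMap L Ω (es x' i) :=
      funext fun i => (map_es (algebraMap L Ω) x' i).symm
    rw [h3]
    have h4 : MvPolynomial.eval₂ ψ (fun i => algebraMap L Ω (es x' i)) Bf
        = algebraMap L Ω (MvPolynomial.eval₂ (φL.comp φ) (es x') Bf) := by
      rw [MvPolynomial.eval₂_comp_left]
      rfl
    rw [h4, heq', map_zero]
  rw [h2] at h1
  obtain ⟨w, -, hw⟩ := Finset.prod_eq_zero_iff.mp h1.symm
  have hw1 : ∀ l : Fin N, ψ (sv w (l, 1)) ^ (p ^ v) = 1 := by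
    intro l
    rw [← map_pow]
    have h3 : (sv w (l, 1)) ^ (p ^ v) = 1 := by
      simp only [sv, if_true]
      have h4 := (w l).2
      rw [mem_rootsOfUnity] at h4
      have h5 := congrArg (fun u : k0ˣ => (u : k0)) h4
      simpa using h5
    rw [h3, map_one]
  have hw0 : ∀ l : Fin N, ψ (sv w (l, 0)) = 1 := by
    intro l
    simp [sv]
  obtain ⟨η, hη⟩ := typeB (κ := κ) (L := L) (Ω := Ω) hp hpN hN ζ hζ (fun μ => φ (h μ)) hh a j x' hx'
    hxj0 hxj1 (fun i e => ψ (sv w (i, e)) * θ i e) (by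
      intro l
      change ψ (sv w (l, 0)) * θ l 0 = _
      rw [hw0, one_mul, hθ0]) (by
      intro l
      change (ψ (sv w (l, 1)) * θ l 1) ^ (p ^ v) = _
      rw [mul_pow, hw1, one_mul, hθ1, ht]) (by
      rw [← hw]
      have h3 : tp (Fin (N + 1)) κ s (fun μ => φ (h μ))
          = MvPolynomial.map φ (tp (Fin (N + 1)) k0 s h) := (map_tp φ s h).symm
      rw [h3, MvPolynomial.eval₂_map]
      rfl)
  refine ⟨η, ?_⟩
  apply (algebraMap L Ω).injective
  rw [map_pow, ← hη]
  change (ψ (sv w (j, 1)) * θ j 1) ^ (p ^ v) = _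
  rw [mul_pow, hw1, one_mul, hθ1, ht, hxj0, hxj1, mul_one]

/-- **Divisibility.** -/
theorem fin2 (hroots : ∀ n : ℕ, n ≠ 0 → ∃ ζ : κ, IsPrimitiveRoot ζ n) {r : ℕ} (q : Fin r → ℕ)
    (hq : ∀ i, 0 < q i) (a : Fin r → ℚ) (ha : Function.Injective a)
    (hη : ∀ i, ∃ η : L, η ^ q i
      = algebraMap (FractionRing κ[X]) L (algebraMap κ[X] _ X) - (a i : L)) :
    ∏ i, q i ∣ Module.finrank (FractionRing κ[X]) L := by
  classical
  set K := FractionRing κ[X] with hK
  let Ω := AlgebraicClosure L
  choose η hη using hη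
  have h1 := kummer (L := L) (Ω := Ω) hroots (fun i => algebraMap L Ω (η i)) q hq
    (fun i => algebraMap ℚ κ (a i)) (fun i i' h => ha ((algebraMap ℚ κ).injective h)) (by
      intro i
      rw [← map_pow, hη, Ta_eq]
      exact (IsScalarTower.algebraMap_apply K L Ω _).symm)
  have h2 : ∀ i, Module.finrank L (IntermediateField.adjoin L {algebraMap L Ω (η i)}) = 1 := by
    intro i
    apply IntermediateField.finrank_adjoin_simple_eq_one_iff.mpr
    exact IntermediateField.mem_bot.mpr ⟨η i, rfl⟩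
  rw [Finset.prod_congr rfl fun i _ => h2 i, Finset.prod_const_one, one_mul] at h1
  exact h1

end

end Pool.Agent.Helper14C
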