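import Mathlib
import Pool.Agent.Helper14C.Gen
import Pool.Agent.Helper14C.Pt2
import Pool.Agent.Helper14C.Ta

/-!
# Norm forms, symmetric norm forms and generic forms over `κ(T)`
-/

set_option autoImplicit false
set_option linter.unusedSectionVars false

open MvPolynomial

namespace Pool.Agent.Helper14C

open Pool.Agent.TH922.KC

/-- the multidegrees of two families -/
def summ {r : ℕ} (A B : Set (Fin r)) (m1 m2 : Fin r → ℕ) : (A ⊕ B) → ℕ :=
  Sum.elim (fun i => m1 i) (fun i => m2 i)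

/-- the coefficients of two families -/
def sumc {R : Type} {r N : ℕ} (A B : Set (Fin r)) (m1 m2 : Fin r → ℕ)
    (c1 : ∀ i, (Fin N → Fin (m1 i + 1)) → R) (c2 : ∀ i, (Fin N → Fin (m2 i + 1)) → R) :
    ∀ y : A ⊕ B, (Fin N → Fin (summ A B m1 m2 y + 1)) → R
  | Sum.inl i => c1 i
  | Sum.inr i => c2 i

/-- the defining property of the symmetric norm forms -/
def IsNB {k0 : Type} [Field k0] [CharZero k0] (N q s : ℕ) [NeZero q]
    (h : It (Fin (N + 1)) s → k0) (a : ℚ) (Bf : MvPolynomial (Fin (N + 1)) k0) : Prop :=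
  ∀ (Ω : Type) [Field Ω] (φ : k0 →+* Ω) (x θ : Fin N → Fin 2 → Ω),
    (∀ l, θ l 0 ^ q = x l 0) → (∀ l, θ l 1 ^ q = x l 1 - φ (a : k0) * x l 0) →
    eval₂ φ (es x) Bf = ∏ l : (Fin N → rootsOfUnity q k0),
      eval₂ φ (es (fun i e => φ (sv l (i, e)) * θ i e)) (tp (Fin (N + 1)) k0 s h)

/-- the final case -/
theorem pt_final2 {κ : Type} [Field κ] [CharZero κ]
    (hroots : ∀ n : ℕ, n ≠ 0 → ∃ ζ : κ, IsPrimitiveRoot ζ n) {k0 : Type} [Field k0] [CharZero k0]
    (φ : k0 →+* κ) {r N p s : ℕ} (hp : p.Prime) (hpN : N < p) (hs : N ≤ s + 1) (v : Fin r → ℕ)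
    [∀ i, NeZero (p ^ v i)]
    (b : Fin r → ℕ → (Fin N → Fin 2) → k0)
    (hb : ∀ i, AlgebraicIndependent ℚ (fun z : Fin (p ^ v i) × (Fin N → Fin 2) => b i z.1 z.2))
    (h : Fin r → It (Fin (N + 1)) s → k0) (hh : ∀ i, AlgebraicIndependent ℚ (h i))
    (a : Fin r → ℚ) (ha : Function.Injective a)
    (D : Fin r → ℕ) (Bf : Fin r → MvPolynomial (Fin (N + 1)) k0)
    (hBh : ∀ i, (Bf i).IsHomogeneous (D i)) (hB : ∀ i, IsNB N (p ^ v i) s (h i) (a i) (Bf i))
    (A B : Set (Fin r)) (hAB : ∀ i, v i = 0 ∨ i ∈ A ∨ i ∈ B) (j : Fin N) :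
    PtIdx2 (FractionRing (Polynomial κ))
      (algebraMap (Polynomial κ) (FractionRing (Polynomial κ)) Polynomial.X) j
      (summ A B (fun i => p ^ v i) D)
      (fun y al => algebraMap (Polynomial κ) (FractionRing (Polynomial κ))
        (Polynomial.C (sumc A B (fun i => p ^ v i) D
          (fun i al => φ (nc (p ^ v i) j (b i) (a i : k0) al))
          (fun i al => φ (coeff (expo (D i) al) (aeval (es (gx k0 N)) (Bf i)))) y al)))
      (∏ i, p ^ v i) 1 := by
  intro L _ _ _ x hx hT hc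
  rw [one_mul]
  refine fin2 hroots (fun i => p ^ v i) (fun i => pow_pos hp.pos _) a ha fun i => ?_
  let ψ : k0 →+* L := (algebraMap (FractionRing (Polynomial κ)) L).comp
    ((algebraMap (Polynomial κ) (FractionRing (Polynomial κ))).comp
      ((Polynomial.C : κ →+* Polynomial κ).comp φ))
  obtain ⟨ζ, hζ⟩ := hroots (p ^ v i) (pow_pos hp.pos _).ne'
  rcases hAB i with hi | hi | hi
  · refine ⟨algebraMap (FractionRing (Polynomial κ)) L (algebraMap (Polynomial κ) _ Polynomial.X)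
      - (a i : L), ?_⟩
    rw [hi, pow_zero, pow_one]
  · refine typeA hp hpN ζ hζ (fun k g => φ (b i k g)) ?_ (a i) j x hx hT ?_
    · have := (hb i).map' (f := φ.toRatAlgHom) φ.injective
      exact this
    · have h1 : mfe (p ^ v i) (fun al => ψ (nc (p ^ v i) j (b i) (a i : k0) al)) x = 0 :=
        hc (Sum.inl ⟨i, hi⟩)
      rw [nc_eval ψ, map_ratCast] at h1
      exact h1
  · refine etaB hp hpN hs ζ hζ φ (h i) ?_ (a i) (Bf i) (hBh i) (hB i) j x hx hT ?_
    · have := (hh i).map' (f := φ.toRatAlgHom) φ.injective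
      exact this
    · have h1 : mfe (D i) (fun al => ψ (coeff (expo (D i) al) (aeval (es (gx k0 N)) (Bf i)))) x
          = 0 := hc (Sum.inr ⟨i, hi⟩)
      rw [← es_mfe (hBh i) ψ x] at h1
      exact h1

/-- generic coefficients -/
theorem pt_gen2 {κ1 : Type} [Field κ1] {k0 : Type} [Field k0] [CharZero k0] [Algebra k0 κ1]
    (hroots : ∀ n : ℕ, n ≠ 0 → ∃ ζ : k0, IsPrimitiveRoot ζ n)
    {r N p s : ℕ} (hp : p.Prime) (hpN : N < p) (hs : N ≤ s + 1) (v : Fin r → ℕ)
    [∀ i, NeZero (p ^ v i)]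
    (b : Fin r → ℕ → (Fin N → Fin 2) → k0)
    (hb : ∀ i, AlgebraicIndependent ℚ (fun z : Fin (p ^ v i) × (Fin N → Fin 2) => b i z.1 z.2))
    (h : Fin r → It (Fin (N + 1)) s → k0) (hh : ∀ i, AlgebraicIndependent ℚ (h i))
    (a : Fin r → ℚ) (ha : Function.Injective a)
    (D : Fin r → ℕ) (Bf : Fin r → MvPolynomial (Fin (N + 1)) k0)
    (hBh : ∀ i, (Bf i).IsHomogeneous (D i)) (hB : ∀ i, IsNB N (p ^ v i) s (h i) (a i) (Bf i))
    (A B : Set (Fin r)) (hAB : ∀ i, v i = 0 ∨ i ∈ A ∨ i ∈ B) (j : Fin N)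
    (c : ∀ i, (Fin N → Fin (p ^ v i + 1)) → κ1)
    (hc : AlgebraicIndependent k0
      (fun y : (Σ i : Fin r, (Fin N → Fin (p ^ v i + 1))) => c y.1 y.2)) :
    PtIdx2 (FractionRing (Polynomial κ1))
      (algebraMap (Polynomial κ1) (FractionRing (Polynomial κ1)) Polynomial.X) j
      (summ A B (fun i => p ^ v i) D)
      (fun y al => algebraMap (Polynomial κ1) (FractionRing (Polynomial κ1))
        (Polynomial.C (sumc A B (fun i => p ^ v i) D c
          (fun i al => algebraMap k0 κ1 (coeff (expo (D i) al) (aeval (es (gx k0 N)) (Bf i))))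
          y al)))
      (∏ i, p ^ v i) 1 := by
  classical
  obtain ⟨B', hk, hcB, hres⟩ := specialise' _ hc
    (fun y : (Σ i : Fin r, (Fin N → Fin (p ^ v i + 1))) =>
      nc (p ^ v y.1) j (b y.1) (a y.1 : k0) y.2)
  let ι0 : k0 →+* B' := (algebraMap k0 κ1).codRestrict B'.toSubring hk
  let φ : k0 →+* IsLocalRing.ResidueField B' := (IsLocalRing.residue B').comp ι0
  have hcκ : CharZero (IsLocalRing.ResidueField B') := charZero_of_injective_ringHom φ.injective
  have hroots' : ∀ n : ℕ, n ≠ 0 → ∃ ζ : IsLocalRing.ResidueField B', IsPrimitiveRoot ζ n := by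
    intro n hn
    obtain ⟨ζ, hζ⟩ := hroots n hn
    exact ⟨φ ζ, hζ.map_of_injective φ.injective⟩
  have h1 := pt_final2 hroots' φ hp hpN hs v b hb h hh a ha D Bf hBh hB A B hAB j
  let cB : ∀ y : A ⊕ B, (Fin N → Fin (summ A B (fun i => p ^ v i) D y + 1)) → B' :=
    sumc A B (fun i => p ^ v i) D (fun i al => ⟨c i al, hcB ⟨i, al⟩⟩)
      (fun i al => ι0 (coeff (expo (D i) al) (aeval (es (gx k0 N)) (Bf i))))
  have h2 := pt_spec2 B' j (summ A B (fun i => p ^ v i) D) cB (∏ i, p ^ v i) 1 (by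
    have e : ∀ (y : A ⊕ B) (al : Fin N → Fin (summ A B (fun i => p ^ v i) D y + 1)),
        IsLocalRing.residue B' (cB y al) = sumc A B (fun i => p ^ v i) D
          (fun i al => φ (nc (p ^ v i) j (b i) (a i : k0) al))
          (fun i al => φ (coeff (expo (D i) al) (aeval (es (gx k0 N)) (Bf i)))) y al := by
      rintro (i | i) al
      · exact hres ⟨i.1, al⟩
      · rfl
    simp only [e]
    exact h1)
  have e2 : ∀ (y : A ⊕ B) (al : Fin N → Fin (summ A B (fun i => p ^ v i) D y + 1)),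
      ((cB y al : B') : κ1) = sumc A B (fun i => p ^ v i) D c
          (fun i al => algebraMap k0 κ1 (coeff (expo (D i) al) (aeval (es (gx k0 N)) (Bf i))))
          y al := by
    rintro (i | i) al
    · rfl
    · rfl
  simp only [e2] at h2
  exact h2

end Pool.Agent.Helper14C
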