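import Mathlib
import Pool.Agent.Helper14C.Gen

/-!
# Curve degrees on very general complete intersections of degrees `N! m_i`
-/

set_option autoImplicit false
set_option linter.unusedSectionVars false

open MvPolynomial

namespace Pool.Agent.Helper14C

open Pool.Agent.TH922.KC

/-- evaluation of symmetric forms -/
lemma sym_eval {k R : Type} [Field k] [CharZero k] [CommRing R] {N δ : ℕ}
    (c : (Fin N → Fin (δ + 1)) → k) {G : MvPolynomial (Fin (N + 1)) k}
    (hG : aeval (es (gx k N)) G = ∏ σ : Equiv.Perm (Fin N),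
      rename (Prod.map σ id) (mfe δ (fun a => C (c a)) (gx k N)))
    (ψ : k →+* R) (x : Fin N → Fin 2 → R) :
    eval₂ ψ (es x) G = ∏ σ : Equiv.Perm (Fin N), mfe δ (fun a => ψ (c (fun l => a (σ l)))) x := by
  have h1 := congrArg (eval₂Hom ψ (fun y : Fin N × Fin 2 => x y.1 y.2)) hG
  have h2 : (eval₂Hom ψ (fun y : Fin N × Fin 2 => x y.1 y.2)) (aeval (es (gx k N)) G)
      = eval₂ ψ (es x) G := by
    have h3 : (eval₂Hom ψ (fun y : Fin N × Fin 2 => x y.1 y.2)).comp
        (aeval (es (gx k N)) : MvPolynomial (Fin (N + 1)) k →ₐ[k] _).toRingHom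
        = eval₂Hom ψ (es x) := by
      apply MvPolynomial.ringHom_ext
      · intro a
        simp
      · intro i
        have h4 := map_es (eval₂Hom ψ (fun y : Fin N × Fin 2 => x y.1 y.2)) (gx k N) i
        have h5 : (fun l e => (eval₂Hom ψ (fun y : Fin N × Fin 2 => x y.1 y.2)) (gx k N l e)) = x := by
          funext l e
          simp [gx]
        rw [h5] at h4
        simpa using h4
    exact RingHom.congr_fun h3 G
  rw [h2, map_prod] at h1
  rw [h1]
  refine Finset.prod_congr rfl fun σ _ => ?_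
  rw [rename_mfe, map_mfe]
  simp [gx]

theorem main1 (N r : ℕ) (m : Fin r → ℕ) (hm : ∀ i, 0 < m i) (Mn : ℕ)
    (hM : ∀ d : Fin r → ℕ, (∀ i, 0 < d i) → ∑ i, d i + 1 ≤ N → ∏ i, d i ∣ Mn)
    (d : Fin r → ℕ) (hd : ∀ i, d i = N.factorial * m i) :
    ∃ bad : ℕ → MvPolynomial (Σ i : Fin r, {μ : Fin (N + 1) →₀ ℕ // μ.degree = d i}) ℂ,
      (∀ j, bad j ≠ 0) ∧
      ∀ f : Fin r → MvPolynomial (Fin (N + 1)) ℂ,
        (∀ i, f i ∈ MvPolynomial.homogeneousSubmodule (Fin (N + 1)) ℂ (d i)) →
        (∀ j, MvPolynomial.eval (fun x => MvPolynomial.coeff x.2.1 (f x.1)) (bad j) ≠ 0) →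
        ∀ I : Ideal (MvPolynomial (Fin (N + 1)) ℂ),
          (∀ p ∈ I, ∀ k : ℕ, MvPolynomial.homogeneousComponent k p ∈ I) →
          I.IsPrime →
          ringKrullDim (MvPolynomial (Fin (N + 1)) ℂ ⧸ I) = 2 →
          (∀ i, f i ∈ I) →
            ∃ K : ℕ, ∀ k : ℕ, K ≤ k →
              ((∏ i, m i : ℕ) : ℤ) ∣ (((N - 1).factorial * Mn : ℕ) : ℤ) *
                ((Module.finrank ℂ (Submodule.map (Ideal.Quotient.mkₐ ℂ I).toLinearMap
                    (MvPolynomial.homogeneousSubmodule (Fin (N + 1)) ℂ (k + 1))) : ℤ) -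
                (Module.finrank ℂ (Submodule.map (Ideal.Quotient.mkₐ ℂ I).toLinearMap
                    (MvPolynomial.homogeneousSubmodule (Fin (N + 1)) ℂ k)) : ℤ)) := by
  classical
  obtain ⟨K1, hcount, hroots, hindep⟩ := exists_countable_field
  set σ := (Σ i : Fin r, {μ : Fin (N + 1) →₀ ℕ // μ.degree = d i}) with hσ
  have hcp : Countable (MvPolynomial σ K1) := by
    rw [← Cardinal.mk_le_aleph0_iff]
    refine MvPolynomial.cardinalMk_le_max.trans ?_
    simp only [max_le_iff, le_refl, and_true]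
    exact ⟨Cardinal.mk_le_aleph0_iff.mpr hcount, Cardinal.mk_le_aleph0_iff.mpr inferInstance⟩
  have hne : Nonempty {p : MvPolynomial σ K1 // p ≠ 0} := ⟨⟨1, one_ne_zero⟩⟩
  obtain ⟨en, hen⟩ := exists_surjective_nat {p : MvPolynomial σ K1 // p ≠ 0}
  refine ⟨fun j => MvPolynomial.map K1.subtype (en j).1, fun j => ?_, ?_⟩
  · have h1 := (en j).2
    intro h
    exact h1 ((map_eq_zero_iff _ (MvPolynomial.map_injective _ K1.subtype.injective)).mp h)
  intro f hfh hbad I hI hIp hdim hfI
  have hind : AlgebraicIndependent K1 (fun x : σ => coeff x.2.1 (f x.1)) := by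
    rw [algebraicIndependent_iff]
    intro p hp
    by_contra hp0
    obtain ⟨l, hl⟩ := hen ⟨p, hp0⟩
    apply hbad l
    change MvPolynomial.eval _ (MvPolynomial.map K1.subtype (en l).1) = 0
    rw [hl, MvPolynomial.eval_map]
    exact hp
  set Qm := ∑ i, m i with hQm
  have hqm : ∀ i, m i ≤ Qm := fun i =>
    Finset.single_le_sum (f := m) (fun _ _ => Nat.zero_le _) (Finset.mem_univ i)
  obtain ⟨u, hu⟩ := hindep ((Σ i : Fin r, (Fin N → Fin (m i + 1))) ⊕
    (Fin r × Fin Qm × (Fin N → Fin 2)))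
  let c : (Σ i : Fin r, (Fin N → Fin (m i + 1))) → K1 := fun y => u (Sum.inl y)
  let b' : Fin r × Fin Qm × (Fin N → Fin 2) → K1 := fun y => u (Sum.inr y)
  have hcK : CharZero K1 := inferInstance
  have hcb : AlgebraicIndependent ℚ (Sum.elim c b') := by
    have : Sum.elim c b' = u := by
      funext y
      rcases y with y | y <;> rfl
    rw [this]
    exact hu
  obtain ⟨hc0, hb0⟩ := indep_closure c b' hcb
  let K0 : Subfield K1 := Lf (Set.range b')
  have hcK0 : CharZero K0 := inferInstance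
  have hroots0 : ∀ l : ℕ, l ≠ 0 → ∃ ζ : K0, IsPrimitiveRoot ζ l := by
    intro l hl
    obtain ⟨ζ, hζ⟩ := hroots l hl
    have hζ0 : ζ ∈ K0 := by
      apply Lf_of_alg
      refine (IsIntegral.of_pow (Nat.pos_of_ne_zero hl) ?_).isAlgebraic
      rw [hζ.pow_eq_one]
      exact isIntegral_one
    refine ⟨⟨ζ, hζ0⟩, IsPrimitiveRoot.of_map_of_injective (f := K0.subtype) ?_ K0.subtype.injective⟩
    exact hζ
  let b : Fin r → ℕ → (Fin N → Fin 2) → K0 := fun i k g =>
    if h : k < Qm then ⟨b' (i, ⟨k, h⟩, g), Lf_of_mem ⟨_, rfl⟩⟩ else 0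
  have hb : AlgebraicIndependent ℚ (fun z : Fin r × Fin Qm × (Fin N → Fin 2) =>
      b z.1 z.2.1 z.2.2) := by
    have : (fun z : Fin r × Fin Qm × (Fin N → Fin 2) => b z.1 z.2.1 z.2.2)
        = fun y => (⟨b' y, Lf_of_mem ⟨y, rfl⟩⟩ : K0) := by
      funext ⟨i, ⟨k, hk⟩, g⟩
      simp only [b, dif_pos hk]
    rw [this]
    exact hb0
  have hGex : ∀ i : Fin r, ∃ G : MvPolynomial (Fin (N + 1)) K1, G.IsHomogeneous (d i) ∧
      aeval (es (gx K1 N)) G = ∏ σ : Equiv.Perm (Fin N),
        rename (Prod.map σ id) (mfe (m i) (fun a => C (c ⟨i, a⟩)) (gx K1 N)) := by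
    intro i
    rw [hd i]
    exact sym_form (mh_mfe (m i) (fun a => c ⟨i, a⟩))
  choose G hGh hG using hGex
  obtain ⟨B, φ1, hB⟩ := specialise d K1 f hfh hind G hGh
  have hBI := hB I hfI
  have hcκ : CharZero (IsLocalRing.ResidueField B) :=
    charZero_of_injective_ringHom φ1.injective
  have hredh := red_hom B (I := I) hI
  obtain ⟨C0, hC0⟩ := growth2 I hI hdim.le
  let κ1 := IsLocalRing.ResidueField B
  let _ : Algebra K0 κ1 := (φ1.comp K0.subtype).toAlgebra
  let φ1' : K1 →ₐ[K0] κ1 := { φ1 with commutes' := fun _ => rfl }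
  have hTt := T_trick (κ := κ1) (n := N + 1) (Set.range fun i => MvPolynomial.map φ1 (G i))
    (∏ i, m i) ((N - 1).factorial * Mn) (by
      have hcF : CharZero (FractionRing (Polynomial κ1)) :=
        charZero_of_injective_algebraMap (IsFractionRing.injective (Polynomial κ1) _)
      refine idx_of_points _ _ ?_ _ _ ?_
      · rintro _ ⟨_, ⟨i, rfl⟩, rfl⟩
        exact ⟨d i, ((hGh i).map _).map _⟩
      · intro L _ _ _ x j hx hT hS
        let ψ : K1 →+* L := (algebraMap (FractionRing (Polynomial κ1)) L).comp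
          ((algebraMap κ1 (FractionRing (Polynomial κ1))).comp φ1)
        have hτ : ∀ i, ∃ τ : Equiv.Perm (Fin N),
            mfe (m i) (fun a => ψ (c ⟨i, fun l => a (τ l)⟩)) x = 0 := by
          intro i
          have h1 := hS _ ⟨_, ⟨i, rfl⟩, rfl⟩
          rw [aeval_def, eval₂_map, eval₂_map] at h1
          have h2 := sym_eval (fun a => c ⟨i, a⟩) (hG i) ψ x
          have h3 : eval₂ ψ (es x) (G i) = 0 := h1
          rw [h3] at h2
          obtain ⟨τ, -, hτ⟩ := Finset.prod_eq_zero_iff.mp h2.symm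
          exact ⟨τ, hτ⟩
        choose τ hτ using hτ
        have hinj : Function.Injective (fun y : (Σ i : Fin r, (Fin N → Fin (m i + 1))) =>
            (⟨y.1, fun l => y.2 (τ y.1 l)⟩ : (Σ i : Fin r, (Fin N → Fin (m i + 1))))) := by
          rintro ⟨i, a⟩ ⟨i', a'⟩ h
          have h1 : i = i' := congrArg Sigma.fst h
          subst h1
          have h2 : (fun l => a (τ i l)) = fun l => a' (τ i l) := by
            simpa using h
          have h3 : a = a' := by
            funext l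
            have := congrFun h2 ((τ i).symm l)
            simpa using this
          rw [h3]
        have hgen := pt_gen (κ1 := κ1) hroots0 b hb m hm hqm Mn hM j
          (fun i a => φ1 (c ⟨i, fun l => a (τ i l)⟩)) (by
            have h1 := (hc0.map' (f := φ1') φ1.injective).comp _ hinj
            exact h1)
        exact hgen L x hx hT hτ)
    (red B I) hredh (by
      rintro _ ⟨i, rfl⟩
      exact hBI i) ⟨C0, fun t => by rw [red_hf B hI]; exact hC0 t⟩
  obtain ⟨T, hT⟩ := hTt
  refine ⟨T, fun k hk => ?_⟩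
  have h1 := hT k hk
  rw [red_hf B hI, red_hf B hI] at h1
  exact h1

end Pool.Agent.Helper14C
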