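import Mathlib
import Pool.Agent.Helper14C.Main1
import Pool.Agent.Helper14C.Gen2

/-!
# Exact divisibility for primes `p > N`
-/

set_option autoImplicit false
set_option linter.unusedSectionVars false

open MvPolynomial

namespace Pool.Agent.Helper14C

open Pool.Agent.TH922.KC

lemma coprime_prod {N r p : ℕ} (hp : p.Prime) (hpN : N < p) (v : Fin r → ℕ) :
    IsCoprime ((∏ i, p ^ v i : ℕ) : ℤ) (((N - 1).factorial * 1 : ℕ) : ℤ) := by
  rw [mul_one, Nat.isCoprime_iff_coprime]
  apply Nat.Coprime.prod_left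
  intro i _
  apply Nat.Coprime.pow_left
  rw [hp.coprime_iff_not_dvd, hp.dvd_factorial]
  omega

theorem main2 (N r : ℕ) (hN : 0 < N) (d : Fin r → ℕ) :
    ∃ bad : ℕ → MvPolynomial (Σ i : Fin r, {μ : Fin (N + 1) →₀ ℕ // μ.degree = d i}) ℂ,
      (∀ j, bad j ≠ 0) ∧
      ∀ f : Fin r → MvPolynomial (Fin (N + 1)) ℂ,
        (∀ i, f i ∈ MvPolynomial.homogeneousSubmodule (Fin (N + 1)) ℂ (d i)) →
        (∀ j, MvPolynomial.eval (fun x => MvPolynomial.coeff x.2.1 (f x.1)) (bad j) ≠ 0) →
        ∀ I : Ideal (MvPolynomial (Fin (N + 1)) ℂ),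
          (∀ p ∈ I, ∀ k : ℕ, MvPolynomial.homogeneousComponent k p ∈ I) →
          I.IsPrime →
          ringKrullDim (MvPolynomial (Fin (N + 1)) ℂ ⧸ I) = 2 →
          (∀ i, f i ∈ I) →
          ∀ (p s : ℕ) (v al be : Fin r → ℕ), p.Prime → N < p → N ≤ s + 1 →
            (∀ i, v i = 0 ∨
              d i = al i * (N.factorial * p ^ v i) + be i * ((p ^ v i) ^ (N - 1) * s)) →
            ∃ K : ℕ, ∀ k : ℕ, K ≤ k →
              ((∏ i, p ^ v i : ℕ) : ℤ) ∣
                ((Module.finrank ℂ (Submodule.map (Ideal.Quotient.mkₐ ℂ I).toLinearMap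
                    (MvPolynomial.homogeneousSubmodule (Fin (N + 1)) ℂ (k + 1))) : ℤ) -
                (Module.finrank ℂ (Submodule.map (Ideal.Quotient.mkₐ ℂ I).toLinearMap
                    (MvPolynomial.homogeneousSubmodule (Fin (N + 1)) ℂ k)) : ℤ)) := by
  classical
  obtain ⟨K1, hcount, hroots, hindep⟩ := exists_countable_field
  set σ := (Σ i : Fin r, {μ : Fin (N + 1) →₀ ℕ // μ.degree = d i}) with hσ
  have hcp : Countable (MvPolynomial σ K1) := by
    rw [← Cardinal.mk_le_aleph0_iff]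
    refine MvPolynomial.cardinalMk_le_max.trans ?_
    simp only [max_le_iff, le_refl, and_true]
    exact ⟨Cardinal.mk_le_aleph0_iff.mpr hcount, Cardinal.mk_le_aleph0_iff.mpr inferInstance⟩
  have hne : Nonempty {p : MvPolynomial σ K1 // p ≠ 0} := ⟨⟨1, one_ne_zero⟩⟩
  obtain ⟨en, hen⟩ := exists_surjective_nat {p : MvPolynomial σ K1 // p ≠ 0}
  refine ⟨fun j => MvPolynomial.map K1.subtype (en j).1, fun j => ?_, ?_⟩
  · have h1 := (en j).2
    intro h
    exact h1 ((map_eq_zero_iff _ (MvPolynomial.map_injective _ K1.subtype.injective)).mp h)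
  intro f hfh hbad I hI hIp hdim hfI p s v al be hp hpN hs hd
  have hind : AlgebraicIndependent K1 (fun x : σ => coeff x.2.1 (f x.1)) := by
    rw [algebraicIndependent_iff]
    intro p hp
    by_contra hp0
    obtain ⟨l, hl⟩ := hen ⟨p, hp0⟩
    apply hbad l
    change MvPolynomial.eval _ (MvPolynomial.map K1.subtype (en l).1) = 0
    rw [hl, MvPolynomial.eval_map]
    exact hp
  set Qm := ∑ i, p ^ v i with hQm
  have hqm : ∀ i, p ^ v i ≤ Qm := fun i =>
    Finset.single_le_sum (f := fun i => p ^ v i) (fun _ _ => Nat.zero_le _) (Finset.mem_univ i)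
  have hnz : ∀ i, NeZero (p ^ v i) := fun i => ⟨(pow_pos hp.pos _).ne'⟩
  obtain ⟨u, hu⟩ := hindep ((Σ i : Fin r, (Fin N → Fin (p ^ v i + 1))) ⊕
    ((Fin r × Fin Qm × (Fin N → Fin 2)) ⊕ (Fin r × It (Fin (N + 1)) s)))
  let c : (Σ i : Fin r, (Fin N → Fin (p ^ v i + 1))) → K1 := fun y => u (Sum.inl y)
  let w : ((Fin r × Fin Qm × (Fin N → Fin 2)) ⊕ (Fin r × It (Fin (N + 1)) s)) → K1 :=
    fun y => u (Sum.inr y)
  have hcK : CharZero K1 := inferInstance
  have hcb : AlgebraicIndependent ℚ (Sum.elim c w) := by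
    have : Sum.elim c w = u := by
      funext y
      rcases y with y | y <;> rfl
    rw [this]
    exact hu
  obtain ⟨hc0, hw0⟩ := indep_closure c w hcb
  let K0 : Subfield K1 := Lf (Set.range w)
  have hcK0 : CharZero K0 := inferInstance
  have hroots0 : ∀ l : ℕ, l ≠ 0 → ∃ ζ : K0, IsPrimitiveRoot ζ l := by
    intro l hl
    obtain ⟨ζ, hζ⟩ := hroots l hl
    have hζ0 : ζ ∈ K0 := by
      apply Lf_of_alg
      refine (IsIntegral.of_pow (Nat.pos_of_ne_zero hl) ?_).isAlgebraic
      rw [hζ.pow_eq_one]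
      exact isIntegral_one
    refine ⟨⟨ζ, hζ0⟩, IsPrimitiveRoot.of_map_of_injective (f := K0.subtype) ?_ K0.subtype.injective⟩
    exact hζ
  let w0 : ((Fin r × Fin Qm × (Fin N → Fin 2)) ⊕ (Fin r × It (Fin (N + 1)) s)) → K0 :=
    fun y => ⟨w y, Lf_of_mem ⟨y, rfl⟩⟩
  let b : Fin r → ℕ → (Fin N → Fin 2) → K0 := fun i k g =>
    if h : k < Qm then w0 (Sum.inl (i, ⟨k, h⟩, g)) else 0
  let h : Fin r → It (Fin (N + 1)) s → K0 := fun i μ => w0 (Sum.inr (i, μ))
  have hb : ∀ i, AlgebraicIndependent ℚ (fun z : Fin (p ^ v i) × (Fin N → Fin 2) =>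
      b i z.1 z.2) := by
    intro i
    have h1 := hw0.comp (fun z : Fin (p ^ v i) × (Fin N → Fin 2) =>
      (Sum.inl (i, ⟨(z.1 : ℕ), z.1.2.trans_le (hqm i)⟩, z.2) :
        ((Fin r × Fin Qm × (Fin N → Fin 2)) ⊕ (Fin r × It (Fin (N + 1)) s)))) (by
      rintro ⟨s, g⟩ ⟨s', g'⟩ h
      have h1 := Sum.inl_injective h
      have h2 : (s : ℕ) = s' := congrArg (fun z : Fin r × Fin Qm × (Fin N → Fin 2) => (z.2.1 : ℕ)) h1
      have h3 : g = g' := congrArg (fun z : Fin r × Fin Qm × (Fin N → Fin 2) => z.2.2) h1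
      rw [Fin.ext h2, h3])
    have : (fun z : Fin (p ^ v i) × (Fin N → Fin 2) => b i z.1 z.2)
        = (w0 ∘ fun z : Fin (p ^ v i) × (Fin N → Fin 2) =>
      (Sum.inl (i, ⟨(z.1 : ℕ), z.1.2.trans_le (hqm i)⟩, z.2) :
        ((Fin r × Fin Qm × (Fin N → Fin 2)) ⊕ (Fin r × It (Fin (N + 1)) s)))) := by
      funext z
      simp only [b, Function.comp_apply]
      rw [dif_pos (z.1.2.trans_le (hqm i))]
    rw [this]
    exact h1
  have hh : ∀ i, AlgebraicIndependent ℚ (h i) := by
    intro i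
    exact hw0.comp (fun μ => (Sum.inr (i, μ) :
        ((Fin r × Fin Qm × (Fin N → Fin 2)) ⊕ (Fin r × It (Fin (N + 1)) s)))) (by
      intro μ μ' h
      exact congrArg Prod.snd (Sum.inr_injective h))
  let a : Fin r → ℚ := fun i => ((i : ℕ) : ℚ)
  have ha : Function.Injective a := fun i i' h => Fin.ext (Nat.cast_injective h)
  have hBex : ∀ i : Fin r, ∃ Bf : MvPolynomial (Fin (N + 1)) K0,
      Bf.IsHomogeneous ((p ^ v i) ^ (N - 1) * s) ∧ IsNB N (p ^ v i) s (h i) (a i) Bf := by
    intro i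
    obtain ⟨ζ, hζ⟩ := hroots0 (p ^ v i) (pow_pos hp.pos _).ne'
    exact normB ζ hζ hN (tp_hom s (h i)) (a i : K0)
  choose Bf hBh hB using hBex
  have hGex : ∀ i : Fin r, ∃ G : MvPolynomial (Fin (N + 1)) K1,
      G.IsHomogeneous (N.factorial * p ^ v i) ∧
      aeval (es (gx K1 N)) G = ∏ σ : Equiv.Perm (Fin N),
        rename (Prod.map σ id) (mfe (p ^ v i) (fun a => C (c ⟨i, a⟩)) (gx K1 N)) := by
    intro i
    exact sym_form (mh_mfe (p ^ v i) (fun a => c ⟨i, a⟩))
  choose G hGh hG using hGex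
  let f0 : Fin r → MvPolynomial (Fin (N + 1)) K1 := fun i =>
    if v i = 0 then X 0 ^ d i
    else G i ^ al i * (MvPolynomial.map K0.subtype (Bf i)) ^ be i
  have hf0 : ∀ i, (f0 i).IsHomogeneous (d i) := by
    intro i
    simp only [f0]
    split_ifs with hi
    · exact isHomogeneous_X_pow 0 (d i)
    · have h1 := (hd i).resolve_left hi
      have h2 := ((hGh i).pow (al i)).mul (((hBh i).map K0.subtype).pow (be i))
      have h3 : N.factorial * p ^ v i * al i + (p ^ v i) ^ (N - 1) * s * be i = d i := by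
        rw [h1]; ring
      rw [h3] at h2
      exact h2
  obtain ⟨B, φ1, hB1⟩ := specialise d K1 f hfh hind f0 hf0
  have hBI := hB1 I hfI
  have hcκ : CharZero (IsLocalRing.ResidueField B) :=
    charZero_of_injective_ringHom φ1.injective
  have hredh := red_hom B (I := I) hI
  obtain ⟨C0, hC0⟩ := growth2 I hI hdim.le
  let κ1 := IsLocalRing.ResidueField B
  let _ : Algebra K0 κ1 := (φ1.comp K0.subtype).toAlgebra
  let φ1' : K1 →ₐ[K0] κ1 := { φ1 with commutes' := fun _ => rfl }
  have hmain := div_of_prime (∏ i, p ^ v i) 1 (red B I) (by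
    intro P hP hPp hJP hPgr
    let As : Set (Fin r) := {i | v i ≠ 0 ∧ MvPolynomial.map φ1 (G i) ∈ P}
    let Bs : Set (Fin r) := {i | v i ≠ 0 ∧
      MvPolynomial.map φ1 (MvPolynomial.map K0.subtype (Bf i)) ∈ P}
    have hAB : ∀ i, v i = 0 ∨ i ∈ As ∨ i ∈ Bs := by
      intro i
      by_cases hi : v i = 0
      · exact Or.inl hi
      · right
        have h1 := hJP (hBI i)
        simp only [f0, if_neg hi] at h1
        rw [map_mul, map_pow, map_pow] at h1
        rcases hPp.mem_or_mem h1 with h2 | h2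
        · exact Or.inl ⟨hi, hPp.mem_of_pow_mem _ h2⟩
        · exact Or.inr ⟨hi, hPp.mem_of_pow_mem _ h2⟩
    let S : Set (MvPolynomial (Fin (N + 1)) κ1) :=
      {g | (∃ i ∈ As, MvPolynomial.map φ1 (G i) = g) ∨
        (∃ i ∈ Bs, MvPolynomial.map φ1 (MvPolynomial.map K0.subtype (Bf i)) = g)}
    have hTt := T_trick (κ := κ1) (n := N + 1) S
      (∏ i, p ^ v i) ((N - 1).factorial * 1) (by
        have hcF : CharZero (FractionRing (Polynomial κ1)) :=
          charZero_of_injective_algebraMap (IsFractionRing.injective (Polynomial κ1) _)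
        refine idx_of_points _ _ ?_ _ _ ?_
        · rintro _ ⟨_, (⟨i, -, rfl⟩ | ⟨i, -, rfl⟩), rfl⟩
          · exact ⟨_, ((hGh i).map _).map _⟩
          · exact ⟨_, (((hBh i).map _).map _).map _⟩
        · intro L _ _ _ x j hx hT hS
          let ψ : K1 →+* L := (algebraMap (FractionRing (Polynomial κ1)) L).comp
            ((algebraMap κ1 (FractionRing (Polynomial κ1))).comp φ1)
          have hτ : ∀ i, ∃ τ : Equiv.Perm (Fin N), i ∈ As →
              mfe (p ^ v i) (fun a => ψ (c ⟨i, fun l => a (τ l)⟩)) x = 0 := by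
            intro i
            by_cases hi : i ∈ As
            · have h1 := hS _ ⟨_, Or.inl ⟨i, hi, rfl⟩, rfl⟩
              rw [aeval_def, eval₂_map, eval₂_map] at h1
              have h2 := sym_eval (fun a => c ⟨i, a⟩) (hG i) ψ x
              have h3 : eval₂ ψ (es x) (G i) = 0 := h1
              rw [h3] at h2
              obtain ⟨τ, -, hτ⟩ := Finset.prod_eq_zero_iff.mp h2.symm
              exact ⟨τ, fun _ => hτ⟩
            · exact ⟨1, fun h => absurd h hi⟩
          choose τ hτ using hτ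
          have hinj : Function.Injective (fun y : (Σ i : Fin r, (Fin N → Fin (p ^ v i + 1))) =>
              (⟨y.1, fun l => y.2 (τ y.1 l)⟩ : (Σ i : Fin r, (Fin N → Fin (p ^ v i + 1))))) := by
            rintro ⟨i, a⟩ ⟨i', a'⟩ h
            have h1 : i = i' := congrArg Sigma.fst h
            subst h1
            have h2 : (fun l => a (τ i l)) = fun l => a' (τ i l) := by
              simpa using h
            have h3 : a = a' := by
              funext l
              have := congrFun h2 ((τ i).symm l)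
              simpa using this
            rw [h3]
          have hgen := pt_gen2 (κ1 := κ1) hroots0 hp hpN hs v b hb h hh a ha
            (fun i => (p ^ v i) ^ (N - 1) * s) Bf hBh hB As Bs hAB j
            (fun i a => φ1 (c ⟨i, fun l => a (τ i l)⟩)) (by
              have h1 := (hc0.map' (f := φ1') φ1.injective).comp _ hinj
              exact h1)
          refine hgen L x hx hT ?_
          rintro (⟨i, hi⟩ | ⟨i, hi⟩)
          · exact hτ i hi
          · have h1 := hS _ ⟨_, Or.inr ⟨i, hi, rfl⟩, rfl⟩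
            rw [aeval_def, eval₂_map, eval₂_map, eval₂_map] at h1
            have h2 : eval₂ (ψ.comp K0.subtype) (es x) (Bf i) = 0 := h1
            rw [es_mfe (hBh i)] at h2
            exact h2)
      P hP (by
        rintro _ (⟨i, hi, rfl⟩ | ⟨i, hi, rfl⟩)
        · exact hi.2
        · exact hi.2) hPgr
    obtain ⟨T, hT⟩ := hTt
    refine ⟨T, fun t ht => ?_⟩
    rw [one_mul]
    exact (coprime_prod hp hpN v).dvd_of_dvd_mul_left (hT t ht))
    (red B I) hredh le_rfl ⟨C0, fun t => by rw [red_hf B hI]; exact hC0 t⟩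
  obtain ⟨T, hT⟩ := hmain
  refine ⟨T, fun k hk => ?_⟩
  have h1 := hT k hk
  rw [red_hf B hI, red_hf B hI, one_mul] at h1
  exact h1

end Pool.Agent.Helper14C
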