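import Mathlib

/-!
# The arithmetic of the constants
-/

set_option autoImplicit false

namespace Pool.Agent.Helper14C

lemma fac_bound (p d : ℕ) (hp : p.Prime) (hd : 0 < d) : (p - 1) * d.factorization p + 1 ≤ d := by
  have h1 : p ^ d.factorization p ≤ d := Nat.ordProj_le p hd.ne'
  have h2 : ∀ v : ℕ, (p - 1) * v + 1 ≤ p ^ v := by
    obtain ⟨s, rfl⟩ := Nat.exists_eq_add_of_le' hp.pos
    simp only [Nat.add_sub_cancel]
    intro v
    induction v with
    | zero => simp
    | succ v ih =>
      calc s * (v + 1) + 1 ≤ (s * v + 1) * (s + 1) := by nlinarith [Nat.zero_le (s * s * v)]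
        _ ≤ (s + 1) ^ v * (s + 1) := Nat.mul_le_mul_right _ ih
        _ = (s + 1) ^ (v + 1) := (pow_succ _ _).symm
  exact (h2 _).trans h1

theorem prod_dvd {r : ℕ} (n : ℕ) (hn : 0 < n) (d : Fin r → ℕ) (hd : ∀ i, 0 < d i)
    (hs : ∑ i, d i + 1 ≤ n + r) :
    ∏ i, d i ∣ ∏ p ∈ (Finset.range (n + 1)).filter Nat.Prime, p ^ ((n - 1) / (p - 1)) := by
  classical
  have hP : ∏ i, d i ≠ 0 := Finset.prod_ne_zero_iff.mpr fun i _ => (hd i).ne'
  have hv : ∀ p : ℕ, p.Prime → (p - 1) * (∏ i, d i).factorization p ≤ n - 1 := by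
    intro p hp
    have h1 : (∏ i, d i).factorization p = ∑ i, (d i).factorization p := by
      rw [Nat.factorization_prod fun i _ => (hd i).ne', Finsupp.finsetSum_apply]
    rw [h1, Finset.mul_sum]
    have h2 : ∑ i, ((p - 1) * (d i).factorization p + 1) ≤ ∑ i, d i :=
      Finset.sum_le_sum fun i _ => fac_bound p (d i) hp (hd i)
    rw [Finset.sum_add_distrib] at h2
    simp only [Finset.sum_const, Finset.card_univ, Fintype.card_fin, smul_eq_mul, mul_one] at h2
    omega
  conv_lhs => rw [← Nat.prod_factorization_pow_eq_self hP]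
  rw [Finsupp.prod, Nat.support_factorization]
  have hsub : (∏ i, d i).primeFactors ⊆ (Finset.range (n + 1)).filter Nat.Prime := by
    intro p hp
    have hpp := Nat.prime_of_mem_primeFactors hp
    rw [Finset.mem_filter, Finset.mem_range]
    refine ⟨?_, hpp⟩
    have h1 : 1 ≤ (∏ i, d i).factorization p :=
      (hpp.dvd_iff_one_le_factorization hP).mp (Nat.dvd_of_mem_primeFactors hp)
    have h2 := hv p hpp
    have h3 : (p - 1) * 1 ≤ (p - 1) * (∏ i, d i).factorization p := Nat.mul_le_mul_left _ h1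
    have := hpp.pos
    omega
  refine (Finset.prod_dvd_prod_of_dvd _ _ fun p hp => ?_).trans
    (Finset.prod_dvd_prod_of_subset _ _ _ hsub)
  apply pow_dvd_pow
  have hpp := Nat.prime_of_mem_primeFactors hp
  rw [Nat.le_div_iff_mul_le (by have := hpp.two_le; omega), mul_comm]
  exact hv p hpp

end Pool.Agent.Helper14C
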