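import Mathlib

/-!
# Arithmetic for the exact divisibility
-/

set_option autoImplicit false

namespace Pool.Agent.Helper14C

/-- representing `m` by two coprime integers -/
lemma coin (F t m : ℕ) (hF : 0 < F) (ht : Nat.Coprime t F) (hm : (F - 1) * t ≤ m) :
    ∃ al be : ℕ, m = al * F + be * t := by
  rcases Nat.lt_or_ge 1 F with h1 | h1
  · obtain ⟨u, -, hu⟩ := Nat.exists_mul_mod_eq_one_of_coprime ht h1
    set be := (u * m) % F with hbe
    have hlt : be < F := Nat.mod_lt _ hF
    have hle : be * t ≤ m := (Nat.mul_le_mul_right t (by omega)).trans hm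
    have hmod : be * t ≡ m [MOD F] := by
      have h2 : be ≡ u * m [MOD F] := Nat.mod_modEq _ _
      have h3 : t * u ≡ 1 [MOD F] := by
        unfold Nat.ModEq
        rw [hu, Nat.mod_eq_of_lt h1]
      calc be * t ≡ (u * m) * t [MOD F] := h2.mul_right t
        _ = (t * u) * m := by ring
        _ ≡ 1 * m [MOD F] := h3.mul_right m
        _ = m := one_mul m
    obtain ⟨al, hal⟩ := (Nat.modEq_iff_dvd' hle).mp hmod
    refine ⟨al, be, ?_⟩
    have : m = F * al + be * t := by omega
    rw [this]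
    ring
  · have hF1 : F = 1 := by omega
    exact ⟨m, 0, by rw [hF1]; ring⟩

lemma rep (N p v d : ℕ) (hN : 0 < N) (hp : p.Prime) (hpN : N < p) (hq : p ^ v ∣ d)
    (h : N.factorial * p ^ v ∣ d ∨ N.factorial ^ 2 * (p ^ v) ^ (N - 1) ≤ d) :
    ∃ al be : ℕ, d = al * (N.factorial * p ^ v) +
      be * ((p ^ v) ^ (N - 1) * (N.factorial + 1)) := by
  rcases h with ⟨m, hm⟩ | h
  · exact ⟨m, 0, by rw [hm]; ring⟩
  have hF : 0 < N.factorial := Nat.factorial_pos N
  have hq0 : 0 < p ^ v := pow_pos hp.pos v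
  obtain ⟨m, rfl⟩ := hq
  rcases Nat.lt_or_ge 1 N with h1 | h1
  · obtain ⟨N', rfl⟩ := Nat.exists_eq_add_of_le' h1
    have e1 : N' + (1 + 1) - 1 = N' + 1 := rfl
    have hcop : Nat.Coprime ((p ^ v) ^ N' * ((N' + (1 + 1)).factorial + 1))
        (N' + (1 + 1)).factorial := by
      apply Nat.Coprime.mul_left
      · apply Nat.Coprime.pow_left
        apply Nat.Coprime.pow_left
        rw [hp.coprime_iff_not_dvd, hp.dvd_factorial]
        omega
      · simp
    obtain ⟨al, be, hab⟩ := coin (N' + (1 + 1)).factorial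
      ((p ^ v) ^ N' * ((N' + (1 + 1)).factorial + 1)) m hF hcop (by
      rw [e1, pow_succ (p ^ v) N'] at h
      have h2 : p ^ v * ((N' + (1 + 1)).factorial ^ 2 * (p ^ v) ^ N') ≤ p ^ v * m := by
        calc p ^ v * ((N' + (1 + 1)).factorial ^ 2 * (p ^ v) ^ N')
            = (N' + (1 + 1)).factorial ^ 2 * ((p ^ v) ^ N' * p ^ v) := by ring
          _ ≤ p ^ v * m := h
      have h3 := Nat.le_of_mul_le_mul_left h2 hq0
      refine le_trans ?_ h3
      obtain ⟨F', hF'⟩ := Nat.exists_eq_add_of_le' hF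
      rw [hF', Nat.add_sub_cancel]
      nlinarith [Nat.zero_le ((p ^ v) ^ N')])
    refine ⟨al, be, ?_⟩
    rw [e1, pow_succ (p ^ v) N']
    conv_lhs => rw [hab]
    ring
  · have hN1 : N = 1 := by omega
    subst hN1
    exact ⟨m, 0, by simp [mul_comm]⟩

end Pool.Agent.Helper14C
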